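import Pool.Agent.Hhelper76.SC.Defs

/-!
# SC module P3 (AlCoef): the coefficients `al` of `(1 - x)^(1/2)` and the local coefficients

PAPER PROOF. `al e = C(2e,e) / (4^e (1-2e))`: `al 0 = 1`, `al 1 = -1/2`, `al 2 = -1/8`, and `al e < 0` for
`e ≥ 1`. `al_conv`: `∑_{a+b=n} al a al b` is the coefficient of `x^n` in `1 - x`, by the recursion
`al (e+1) = al e (2e-1)/(2e+2)`.
-/

open Finset

namespace Pool.Hhelper76.SC

theorem al_zero : al 0 = 1 := by
  simp [al]

theorem al_one : al 1 = -1 / 2 := by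
  simp only [al, Nat.centralBinom_eq_two_mul_choose]
  norm_num [Nat.choose]

theorem al_two : al 2 = -1 / 8 := by
  simp only [al, Nat.centralBinom_eq_two_mul_choose]
  norm_num [Nat.choose]

/-- The recursion. -/
theorem al_succ (e : ℕ) : al (e + 1) * (2 * e + 2) = al e * (2 * e - 1) := by
  have h := Nat.succ_mul_centralBinom_succ e
  have h' : ((e : ℝ) + 1) * (Nat.centralBinom (e + 1) : ℝ) =
      2 * (2 * (e : ℝ) + 1) * (Nat.centralBinom e : ℝ) := by
    exact_mod_cast h
  have h1 : (1 : ℝ) - 2 * (e : ℝ) ≠ 0 := by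
    intro h0
    have : (2 * e : ℤ) = 1 := by
      have : (2 * (e : ℝ)) = 1 := by linarith
      exact_mod_cast this
    omega
  have h2 : (1 : ℝ) - 2 * ((e : ℝ) + 1) ≠ 0 := by
    have : (0 : ℝ) ≤ e := Nat.cast_nonneg e
    intro h0
    linarith
  have h4 : (4 : ℝ) ^ e ≠ 0 := by positivity
  have hcb : (Nat.centralBinom (e + 1) : ℝ) =
      2 * (2 * (e : ℝ) + 1) * (Nat.centralBinom e : ℝ) / ((e : ℝ) + 1) := by
    have : (e : ℝ) + 1 ≠ 0 := by positivity
    field_simp
    linarith
  have h5 : (e : ℝ) + 1 ≠ 0 := by positivity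
  unfold al
  push_cast
  rw [hcb, pow_succ]
  field_simp
  ring

theorem al_neg (e : ℕ) (he : 1 ≤ e) : al e < 0 := by
  unfold al
  have h1 : (0 : ℝ) < (Nat.centralBinom e : ℝ) := by exact_mod_cast Nat.centralBinom_pos e
  have h2 : (1 : ℝ) - 2 * (e : ℝ) < 0 := by
    have : (1 : ℝ) ≤ e := by exact_mod_cast he
    linarith
  have h3 : (0 : ℝ) < 4 ^ e := by positivity
  exact div_neg_of_pos_of_neg h1 (mul_neg_of_pos_of_neg h3 h2)

theorem abs_al_succ_le (e : ℕ) : |al (e + 1)| ≤ |al e| := by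
  have h := al_succ e
  have h0 : (0 : ℝ) ≤ e := Nat.cast_nonneg e
  have h1 : |al (e + 1)| * (2 * e + 2) = |al e| * |2 * (e : ℝ) - 1| := by
    rw [← abs_mul, ← h, abs_mul, abs_of_pos (show (0 : ℝ) < 2 * e + 2 by positivity)]
  have h2 : |2 * (e : ℝ) - 1| ≤ 2 * e + 2 := by
    rw [abs_le]
    constructor <;> linarith
  have h3 : |al (e + 1)| * (2 * e + 2) ≤ |al e| * (2 * e + 2) := by
    rw [h1]
    exact mul_le_mul_of_nonneg_left h2 (abs_nonneg _)
  exact le_of_mul_le_mul_right h3 (by positivity)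

theorem abs_al_le (e : ℕ) : |al e| ≤ 1 := by
  induction e with
  | zero => rw [al_zero]; simp
  | succ n ih => exact (abs_al_succ_le n).trans ih

/-- Antitone bound. -/
theorem abs_al_anti {a b : ℕ} (h : a ≤ b) : |al b| ≤ |al a| := by
  induction b, h using Nat.le_induction with
  | base => exact le_refl _
  | succ n _ ih => exact (abs_al_succ_le n).trans ih

/-- The convolution. -/
theorem al_conv_succ (n : ℕ) :
    ((n : ℝ) + 1) * ∑ p ∈ antidiagonal (n + 1), al p.1 * al p.2 =
      ((n : ℝ) - 1) * ∑ p ∈ antidiagonal n, al p.1 * al p.2 := by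
  have h1 : ((n : ℝ) + 1) * ∑ p ∈ antidiagonal (n + 1), al p.1 * al p.2 =
      2 * ∑ p ∈ antidiagonal (n + 1), (p.1 : ℝ) * (al p.1 * al p.2) := by
    have hs : ∑ p ∈ antidiagonal (n + 1), (p.2 : ℝ) * (al p.1 * al p.2) =
        ∑ p ∈ antidiagonal (n + 1), (p.1 : ℝ) * (al p.1 * al p.2) := by
      rw [← Finset.Nat.sum_antidiagonal_swap]
      exact Finset.sum_congr rfl fun p _ => by simp only [Prod.snd_swap, Prod.fst_swap]; ring
    have : ((n : ℝ) + 1) * ∑ p ∈ antidiagonal (n + 1), al p.1 * al p.2 =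
        ∑ p ∈ antidiagonal (n + 1), (p.1 : ℝ) * (al p.1 * al p.2) +
          ∑ p ∈ antidiagonal (n + 1), (p.2 : ℝ) * (al p.1 * al p.2) := by
      rw [Finset.mul_sum, ← Finset.sum_add_distrib]
      refine Finset.sum_congr rfl fun p hp => ?_
      have : (p.1 : ℝ) + p.2 = n + 1 := by exact_mod_cast (Finset.HasAntidiagonal.mem_antidiagonal.1 hp)
      rw [← this]
      ring
    rw [this, hs]
    ring
  have h2 : ((n : ℝ) - 1) * ∑ p ∈ antidiagonal n, al p.1 * al p.2 =
      ∑ p ∈ antidiagonal n, (2 * (p.1 : ℝ) - 1) * (al p.1 * al p.2) := by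
    have hs : ∑ p ∈ antidiagonal n, (p.2 : ℝ) * (al p.1 * al p.2) =
        ∑ p ∈ antidiagonal n, (p.1 : ℝ) * (al p.1 * al p.2) := by
      rw [← Finset.Nat.sum_antidiagonal_swap]
      exact Finset.sum_congr rfl fun p _ => by simp only [Prod.snd_swap, Prod.fst_swap]; ring
    have h3 : ((n : ℝ) - 1) * ∑ p ∈ antidiagonal n, al p.1 * al p.2 =
        ∑ p ∈ antidiagonal n, (p.1 : ℝ) * (al p.1 * al p.2) +
          ∑ p ∈ antidiagonal n, (p.2 : ℝ) * (al p.1 * al p.2) -
          ∑ p ∈ antidiagonal n, (al p.1 * al p.2) := by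
      rw [Finset.mul_sum, ← Finset.sum_add_distrib, ← Finset.sum_sub_distrib]
      refine Finset.sum_congr rfl fun p hp => ?_
      have : (p.1 : ℝ) + p.2 = n := by exact_mod_cast (Finset.HasAntidiagonal.mem_antidiagonal.1 hp)
      rw [← this]
      ring
    rw [h3, hs, ← Finset.sum_add_distrib, ← Finset.sum_sub_distrib]
    exact Finset.sum_congr rfl fun p _ => by ring
  rw [h1, h2, Finset.Nat.sum_antidiagonal_succ]
  simp only [Nat.cast_zero, zero_mul, zero_add, Finset.mul_sum]
  refine Finset.sum_congr rfl fun p _ => ?_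
  have := al_succ p.1
  push_cast
  have e1 : 2 * (((p.1 : ℝ) + 1) * (al (p.1 + 1) * al p.2)) =
      (al (p.1 + 1) * (2 * p.1 + 2)) * al p.2 := by ring
  rw [e1, this]
  ring

theorem al_conv (n : ℕ) : ∑ p ∈ antidiagonal n, al p.1 * al p.2 =
    if n = 0 then 1 else if n = 1 then -1 else 0 := by
  have h0 : ∑ p ∈ antidiagonal 0, al p.1 * al p.2 = 1 := by simp [al_zero]
  have h1 : ∑ p ∈ antidiagonal 1, al p.1 * al p.2 = -1 := by
    have := al_conv_succ 0
    rw [h0] at this
    norm_num at this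
    exact this
  have h2 : ∀ m : ℕ, ∑ p ∈ antidiagonal (m + 2), al p.1 * al p.2 = 0 := by
    intro m
    induction m with
    | zero =>
      have := al_conv_succ 1
      rw [h1] at this
      norm_num at this
      exact this
    | succ m ih =>
      have := al_conv_succ (m + 2)
      rw [ih, mul_zero] at this
      rcases mul_eq_zero.1 this with h | h
      · exact absurd h (by positivity)
      · exact h
  rcases n with _ | _ | n
  · simpa using h0
  · simpa using h1
  · simpa using h2 n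

/-- `C(2n,n)/4^n`. -/
theorem sum_al (n : ℕ) : ∑ e ∈ range (n + 1), al e = (Nat.centralBinom n : ℝ) / 4 ^ n := by
  induction n with
  | zero => simp [al_zero]
  | succ n ih =>
    rw [Finset.sum_range_succ, ih]
    have h := Nat.succ_mul_centralBinom_succ n
    have h' : ((n : ℝ) + 1) * (Nat.centralBinom (n + 1) : ℝ) =
        2 * (2 * (n : ℝ) + 1) * (Nat.centralBinom n : ℝ) := by
      exact_mod_cast h
    have h5 : (n : ℝ) + 1 ≠ 0 := by positivity
    have hcb : (Nat.centralBinom (n + 1) : ℝ) =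
        2 * (2 * (n : ℝ) + 1) * (Nat.centralBinom n : ℝ) / ((n : ℝ) + 1) := by
      field_simp
      linarith
    have h2 : (1 : ℝ) - 2 * ((n : ℝ) + 1) ≠ 0 := by
      have : (0 : ℝ) ≤ n := Nat.cast_nonneg n
      intro h0
      linarith
    unfold al
    push_cast
    rw [hcb, pow_succ]
    field_simp
    ring

theorem centralBinom_div_sq (n : ℕ) :
    ((Nat.centralBinom n : ℝ) / 4 ^ n) ^ 2 * (2 * n + 1) ≤ 1 := by
  induction n with
  | zero => simp
  | succ n ih =>
    have h := Nat.succ_mul_centralBinom_succ n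
    have h' : ((n : ℝ) + 1) * (Nat.centralBinom (n + 1) : ℝ) =
        2 * (2 * (n : ℝ) + 1) * (Nat.centralBinom n : ℝ) := by
      exact_mod_cast h
    have h5 : (n : ℝ) + 1 ≠ 0 := by positivity
    have hcb : (Nat.centralBinom (n + 1) : ℝ) =
        2 * (2 * (n : ℝ) + 1) * (Nat.centralBinom n : ℝ) / ((n : ℝ) + 1) := by
      field_simp
      linarith
    have e1 : ((Nat.centralBinom (n + 1) : ℝ) / 4 ^ (n + 1)) ^ 2 * (2 * ((n + 1 : ℕ) : ℝ) + 1) =
        (((Nat.centralBinom n : ℝ) / 4 ^ n) ^ 2 * (2 * n + 1)) *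
          ((2 * n + 1) * (2 * n + 3) / (2 * n + 2) ^ 2) := by
      rw [hcb, pow_succ]
      push_cast
      field_simp
      ring
    rw [e1]
    have h6 : ((2 * (n : ℝ) + 1) * (2 * n + 3) / (2 * n + 2) ^ 2) ≤ 1 := by
      rw [div_le_one (by positivity)]
      nlinarith
    have h7 : (0 : ℝ) ≤ ((Nat.centralBinom n : ℝ) / 4 ^ n) ^ 2 * (2 * n + 1) := by positivity
    calc _ ≤ (1 : ℝ) * 1 := mul_le_mul ih h6 (by positivity) (by norm_num)
      _ = 1 := by norm_num

theorem centralBinom_div_tendsto :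
    Filter.Tendsto (fun n : ℕ => (Nat.centralBinom n : ℝ) / 4 ^ n) Filter.atTop (nhds 0) := by
  have h1 : ∀ n : ℕ, (Nat.centralBinom n : ℝ) / 4 ^ n ≤ 1 / Real.sqrt ((n : ℝ) + 1) := by
    intro n
    have h := centralBinom_div_sq n
    have h0 : (0 : ℝ) ≤ (Nat.centralBinom n : ℝ) / 4 ^ n := by positivity
    have hn : (0 : ℝ) < (n : ℝ) + 1 := by positivity
    have hs : 0 < Real.sqrt ((n : ℝ) + 1) := Real.sqrt_pos.2 hn
    rw [le_div_iff₀ hs]
    have h2 : ((Nat.centralBinom n : ℝ) / 4 ^ n * Real.sqrt ((n : ℝ) + 1)) ^ 2 ≤ 1 := by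
      rw [mul_pow, Real.sq_sqrt hn.le]
      refine le_trans ?_ h
      refine mul_le_mul_of_nonneg_left ?_ (sq_nonneg _)
      have : (0 : ℝ) ≤ n := Nat.cast_nonneg n
      linarith
    have h3 : 0 ≤ (Nat.centralBinom n : ℝ) / 4 ^ n * Real.sqrt ((n : ℝ) + 1) := by positivity
    nlinarith
  have h2 : Filter.Tendsto (fun n : ℕ => 1 / Real.sqrt ((n : ℝ) + 1)) Filter.atTop (nhds 0) := by
    have h3 : Filter.Tendsto (fun n : ℕ => Real.sqrt ((n : ℝ) + 1)) Filter.atTop Filter.atTop := by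
      refine Real.tendsto_sqrt_atTop.comp ?_
      exact Filter.tendsto_atTop_add_const_right _ _ tendsto_natCast_atTop_atTop
    have h4 := h3.inv_tendsto_atTop
    refine h4.congr fun n => ?_
    simp
  exact squeeze_zero (fun n => by positivity) h1 h2

theorem sum_abs_al_range (n : ℕ) :
    ∑ e ∈ range (n + 1), |al e| = 2 - (Nat.centralBinom n : ℝ) / 4 ^ n := by
  rw [← sum_al n, Finset.sum_range_succ' (fun e => |al e|), Finset.sum_range_succ' (fun e => al e)]
  have : ∑ e ∈ range n, |al (e + 1)| = - ∑ e ∈ range n, al (e + 1) := by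
    rw [← Finset.sum_neg_distrib]
    exact Finset.sum_congr rfl fun e _ => abs_of_neg (al_neg (e + 1) (by omega))
  rw [this, al_zero]
  norm_num
  ring

theorem al_hasSum : HasSum (fun e => |al e|) 2 := by
  rw [hasSum_iff_tendsto_nat_of_nonneg (fun e => abs_nonneg _)]
  rw [← Filter.tendsto_add_atTop_iff_nat 1]
  have : (fun n : ℕ => ∑ i ∈ range (n + 1), |al i|) =
      fun n : ℕ => 2 - (Nat.centralBinom n : ℝ) / 4 ^ n := by
    funext n
    exact sum_abs_al_range n
  rw [this]
  simpa using (tendsto_const_nhds (x := (2 : ℝ))).sub centralBinom_div_tendsto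

theorem al_summable : Summable (fun e => |al e|) ∧ ∑' e, |al e| = 2 :=
  ⟨al_hasSum.summable, al_hasSum.tsum_eq⟩

/-- `∑_{a ≤ v} |al a al (v - a)|`. -/
noncomputable def cc (v : ℕ) : ℝ := ∑ a ∈ range (v + 1), |al a * al (v - a)|

theorem cc_zero : cc 0 = 1 := by
  simp [cc, al_zero]

theorem cc_one : cc 1 = 1 := by
  rw [cc, Finset.sum_range_succ, Finset.sum_range_one]
  simp only [al_zero, al_one, Nat.sub_zero, Nat.sub_self]
  norm_num

theorem cc_nonneg (v : ℕ) : 0 ≤ cc v := Finset.sum_nonneg fun _ _ => abs_nonneg _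

/-- For `v ≥ 2` one has `cc v = 4 |al v|`. -/
theorem cc_eq (v : ℕ) (hv : 2 ≤ v) : cc v = 4 * |al v| := by
  obtain ⟨m, rfl⟩ : ∃ m, v = m + 2 := ⟨v - 2, by omega⟩
  have hconv : ∑ a ∈ range (m + 2 + 1), al a * al (m + 2 - a) = 0 := by
    have := al_conv (m + 2)
    rw [Finset.Nat.sum_antidiagonal_eq_sum_range_succ (fun a b => al a * al b)] at this
    simpa using this
  have hneg : al (m + 2) < 0 := al_neg _ (by omega)
  rw [Finset.sum_range_succ, Finset.sum_range_succ'] at hconv
  rw [cc, Finset.sum_range_succ, Finset.sum_range_succ']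
  have hmid : ∑ k ∈ range (m + 1), |al (k + 1) * al (m + 2 - (k + 1))| =
      ∑ k ∈ range (m + 1), al (k + 1) * al (m + 2 - (k + 1)) := by
    refine Finset.sum_congr rfl fun k hk => ?_
    have hk' := Finset.mem_range.1 hk
    exact abs_of_pos (mul_pos_of_neg_of_neg (al_neg _ (by omega)) (al_neg _ (by omega)))
  rw [hmid]
  simp only [Nat.sub_zero, Nat.sub_self, al_zero, one_mul, mul_one] at hconv ⊢
  rw [abs_of_neg hneg]
  linarith

theorem abs_al_le_eighth (v : ℕ) (hv : 2 ≤ v) : |al v| ≤ 1 / 8 := by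
  refine (abs_al_anti hv).trans ?_
  rw [al_two]
  rw [abs_of_neg (by norm_num)]
  norm_num

theorem cc_le_one (v : ℕ) : cc v ≤ 1 := by
  rcases v with _ | _ | v
  · exact cc_zero.le
  · exact cc_one.le
  · rw [cc_eq _ (by omega)]
    have := abs_al_le_eighth (v + 1 + 1) (by omega)
    linarith

theorem cc_summable : Summable cc ∧ ∑' v, cc v = 4 := by
  have hs : Summable (fun e => ‖|al e|‖) := by
    simpa using al_summable.1
  have h1 := summable_norm_sum_mul_range_of_summable_norm hs hs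
  have h2 := tsum_mul_tsum_eq_tsum_sum_range_of_summable_norm hs hs
  have e1 : cc = fun n => ∑ k ∈ range (n + 1), |al k| * |al (n - k)| := by
    funext n
    rw [cc]
    exact Finset.sum_congr rfl fun k _ => abs_mul _ _
  constructor
  · rw [e1]
    refine h1.congr fun n => ?_
    rw [Real.norm_of_nonneg (Finset.sum_nonneg fun _ _ => mul_nonneg (abs_nonneg _) (abs_nonneg _))]
  · rw [e1, ← h2, al_summable.2]
    norm_num

theorem prod_cc {k : ℕ} (v : Fin k → ℕ) :
    ∏ i, cc (v i) = ∑ a ∈ Fintype.piFinset (fun i => Finset.range (v i + 1)),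
      |∏ i, al (a i) * al (v i - a i)| := by
  unfold cc
  rw [Finset.prod_univ_sum]
  exact Finset.sum_congr rfl fun a _ => (Finset.abs_prod _ _).symm

theorem locS_abs_le {k : ℕ} (v : Fin k → ℕ) (e s : ℕ) : |locS v e s| ≤ ∏ i, cc (v i) := by
  rw [prod_cc, locS]
  refine (Finset.abs_sum_le_sum_abs _ _).trans (Finset.sum_le_sum fun a _ => ?_)
  split_ifs
  · exact le_refl _
  · rw [abs_zero]; exact abs_nonneg _

theorem locS_sum_abs_le {k : ℕ} (v : Fin k → ℕ) (s : ℕ) :
    ∑ e ∈ range (sz v + 1), |locS v e s| ≤ ∏ i, cc (v i) := by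
  rw [prod_cc]
  have h1 : ∀ e ∈ range (sz v + 1), |locS v e s| ≤
      ∑ a ∈ Fintype.piFinset (fun i => Finset.range (v i + 1)),
        if max (sz a - s) (sz (fun i => v i - a i)) = e then |∏ i, al (a i) * al (v i - a i)|
          else 0 := by
    intro e _
    rw [locS]
    refine (Finset.abs_sum_le_sum_abs _ _).trans (Finset.sum_le_sum fun a _ => ?_)
    split_ifs
    · exact le_refl _
    · rw [abs_zero]
  refine (Finset.sum_le_sum h1).trans ?_
  rw [Finset.sum_comm]
  refine Finset.sum_le_sum fun a _ => ?_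
  rw [Finset.sum_ite_eq]
  split_ifs
  · exact le_refl _
  · exact abs_nonneg _

theorem four_al_two_mul (w : ℕ) (hw : 1 ≤ w) : |al w| ≤ 4 * |al (2 * w)| := by
  induction w, hw using Nat.le_induction with
  | base =>
    rw [al_one, show 2 * 1 = 2 from rfl, al_two]
    rw [abs_of_neg (by norm_num), abs_of_neg (by norm_num)]
    norm_num
  | succ w hw ih =>
    have hw' : (1 : ℝ) ≤ w := by exact_mod_cast hw
    have h1 : |al (w + 1)| * (2 * w + 2) = |al w| * (2 * w - 1) := by
      have := congrArg abs (al_succ w)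
      rwa [abs_mul, abs_mul, abs_of_pos (show (0 : ℝ) < 2 * w + 2 by positivity),
        abs_of_pos (show (0 : ℝ) < 2 * w - 1 by linarith)] at this
    have h2 : |al (2 * w + 1)| * (4 * w + 2) = |al (2 * w)| * (4 * w - 1) := by
      have := congrArg abs (al_succ (2 * w))
      push_cast at this
      rw [abs_mul, abs_mul, abs_of_pos (show (0 : ℝ) < 2 * (2 * w) + 2 by positivity),
        abs_of_pos (show (0 : ℝ) < 2 * (2 * w) - 1 by linarith)] at this
      linarith
    have h3 : |al (2 * w + 2)| * (4 * w + 4) = |al (2 * w + 1)| * (4 * w + 1) := by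
      have := congrArg abs (al_succ (2 * w + 1))
      push_cast at this
      rw [abs_mul, abs_mul, abs_of_pos (show (0 : ℝ) < 2 * (2 * w + 1) + 2 by positivity),
        abs_of_pos (show (0 : ℝ) < 2 * (2 * w + 1) - 1 by linarith)] at this
      have e1 : 2 * w + 1 + 1 = 2 * w + 2 := by ring
      rw [e1] at this
      linarith
    have h4 : |al (2 * w + 2)| * ((4 * w + 4) * (4 * w + 2)) =
        |al (2 * w)| * ((4 * w - 1) * (4 * w + 1)) := by
      calc |al (2 * w + 2)| * ((4 * w + 4) * (4 * w + 2))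
          = (|al (2 * w + 2)| * (4 * w + 4)) * (4 * w + 2) := by ring
        _ = (|al (2 * w + 1)| * (4 * w + 2)) * (4 * w + 1) := by rw [h3]; ring
        _ = _ := by rw [h2]; ring
    rw [show 2 * (w + 1) = 2 * w + 2 by ring]
    have ha : 0 ≤ |al (2 * w)| := abs_nonneg _
    have hb : 0 ≤ |al w| := abs_nonneg _
    -- multiply by positive numbers
    have hP : (0 : ℝ) < (2 * w + 2) * ((4 * w + 4) * (4 * w + 2)) := by positivity
    have key : |al (w + 1)| * ((2 * w + 2) * ((4 * w + 4) * (4 * w + 2))) ≤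
        (4 * |al (2 * w + 2)|) * ((2 * w + 2) * ((4 * w + 4) * (4 * w + 2))) := by
      have e1 : |al (w + 1)| * ((2 * w + 2) * ((4 * w + 4) * (4 * w + 2))) =
          |al w| * ((2 * w - 1) * ((4 * w + 4) * (4 * w + 2))) := by
        calc _ = (|al (w + 1)| * (2 * w + 2)) * ((4 * w + 4) * (4 * w + 2)) := by ring
          _ = _ := by rw [h1]; ring
      have e2 : (4 * |al (2 * w + 2)|) * ((2 * w + 2) * ((4 * w + 4) * (4 * w + 2))) =
          (4 * |al (2 * w)|) * ((2 * w + 2) * ((4 * w - 1) * (4 * w + 1))) := by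
        calc _ = 4 * (2 * w + 2) * (|al (2 * w + 2)| * ((4 * w + 4) * (4 * w + 2))) := by ring
          _ = _ := by rw [h4]; ring
      rw [e1, e2]
      have hle : (2 * (w : ℝ) - 1) * ((4 * w + 4) * (4 * w + 2)) ≤
          (2 * w + 2) * ((4 * w - 1) * (4 * w + 1)) := by nlinarith
      have h0 : (0 : ℝ) ≤ (2 * (w : ℝ) - 1) * ((4 * w + 4) * (4 * w + 2)) := by
        have : (0 : ℝ) ≤ 2 * (w : ℝ) - 1 := by linarith
        positivity
      exact mul_le_mul ih hle h0 (by positivity)
    exact le_of_mul_le_mul_right key hP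

theorem abs_al_half_le_cc (v : ℕ) (hv : Even v) : |al (v / 2)| ≤ cc v := by
  obtain ⟨w, rfl⟩ := hv
  have e1 : (w + w) / 2 = w := by omega
  rw [e1]
  rcases Nat.eq_zero_or_pos w with rfl | hw
  · simp [cc_zero, al_zero]
  · rw [cc_eq _ (by omega), ← two_mul]
    exact four_al_two_mul w hw

theorem locI_abs_le {k : ℕ} (v : Fin k → ℕ) (e : ℕ) : |locI v e| ≤ ∏ i, cc (v i) := by
  rw [locI]
  split_ifs with h
  · rw [Finset.abs_prod]
    exact Finset.prod_le_prod (fun i _ => abs_nonneg _) fun i _ => abs_al_half_le_cc _ (h.1 i)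
  · rw [abs_zero]
    exact Finset.prod_nonneg fun i _ => cc_nonneg _

/-- `|v| = |a| + |v - a|` for `a ≤ v`. -/
theorem sz_split {k : ℕ} {v a : Fin k → ℕ}
    (ha : a ∈ Fintype.piFinset (fun i => Finset.range (v i + 1))) :
    sz v = sz a + sz (fun i => v i - a i) := by
  unfold sz
  rw [← Finset.sum_add_distrib]
  refine Finset.sum_congr rfl fun i _ => ?_
  have := Fintype.mem_piFinset.1 ha i
  rw [Finset.mem_range] at this
  omega

/-- `locS v e s` vanishes unless `e ≤ |v| ≤ 2e + s`. -/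
theorem locS_zero {k : ℕ} (v : Fin k → ℕ) (e s : ℕ) (h : sz v < e ∨ 2 * e + s < sz v) :
    locS v e s = 0 := by
  rw [locS]
  refine Finset.sum_eq_zero fun a ha => ?_
  have h1 := sz_split ha
  rw [if_neg]
  intro h2
  rcases h with h | h
  · have := le_max_iff (a := e) (b := sz a - s) (c := sz (fun i => v i - a i))
    have h3 := this.1 h2.ge
    omega
  · have h3 : sz a - s ≤ e := h2 ▸ le_max_left _ _
    have h4 : sz (fun i => v i - a i) ≤ e := h2 ▸ le_max_right _ _
    omega

theorem locS_stable {k : ℕ} (v : Fin k → ℕ) (e s : ℕ) (h : sz v ≤ s) :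
    locS v e s = locS v e (sz v) := by
  rw [locS, locS]
  refine Finset.sum_congr rfl fun a ha => ?_
  have h1 := sz_split ha
  have h2 : sz a - s = sz a - sz v := by omega
  rw [h2]

theorem prod_cc_le_one {k : ℕ} (v : Fin k → ℕ) : ∏ i, cc (v i) ≤ 1 :=
  Finset.prod_le_one (fun _ _ => cc_nonneg _) fun _ _ => cc_le_one _

theorem acoef_abs_le {k : ℕ} (m : Fin k → ℕ) (j h D : ℕ) : |acoef m j h D| ≤ 1 := by
  rw [acoef]
  split_ifs with h1
  · rw [Finset.abs_prod]
    refine Finset.prod_le_one (fun p _ => abs_nonneg _) fun p _ => ?_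
    split_ifs
    · exact (locS_abs_le _ _ _).trans (prod_cc_le_one _)
    · exact (locI_abs_le _ _).trans (prod_cc_le_one _)
  · rw [abs_zero]; norm_num

end Pool.Hhelper76.SC
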