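import Pool.Agent.Hhelper76.SC.Defs

/-!
# SC module G3 (EulerMulti): Euler products in several variables

PAPER PROOF. `G(n) = ∏_{p ∣ ∏ n_i} g p (v_p(n_i))_i` for `n : Fin k → ℕ` with all `n_i ≥ 1`, where `g p 0 = 1`
for every prime `p`. Suppose `∑_p ∑_{v ≠ 0} ‖g p v‖ < ∞` (stated as: a function `b p ≥ ∑_{v≠0} ‖g p v‖` with
`∑ b p < ∞`). For a finite set `S` of primes let `N_S` be the set of tuples all of whose coordinates are
products of primes of `S`; then `∑_{n ∈ N_S} G(n) = ∏_{p∈S} ∑_v g p v`, absolutely convergent (induction on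
`S`: `n = p^{v} n'` coordinatewise; or the equivalence `N_S ≃ (S → (Fin k → ℕ))` and
`tsum`-of-products / `summable_prod`). The same with norms gives
`∑_{n ∈ N_S} ‖G(n)‖ ≤ ∏_{p ∈ S} (1 + b p) ≤ exp(∑ b p)`, hence `∑_n ‖G(n)‖ < ∞` (every finite set of tuples
lies in some `N_S`), and `∑_n G(n) = lim_Y ∏_{p<Y} ∑_v g p v` (`tendsto` of the sums over `N_{primes < Y}`,
dominated convergence for series, `tendsto_tsum_of_dominated_convergence` with indicators).
The `tsum` is over all `n : Fin k → ℕ`, with value `0` if some coordinate is `0`.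
`euler_finsupp` is the same statement for an abstract index set: sums over finitely supported
functions (it may be used to prove `euler_multi`, `(Fin k → ℕ_{≥1}) ≃ (Primes →₀ (Fin k → ℕ))`); it is also
used for ideals. `HasProd` may be replaced by: for every `ε` a finite set... ; keep the statement.
-/

open Complex MeasureTheory Filter Topology

namespace Pool.Hhelper76.SC

section Finsupp

variable {ι M R : Type} [DecidableEq ι] [Zero M]

/-- the product over the support -/
noncomputable def Gsup [CommRing R] (g : ι → M → R) (f : ι →₀ M) : R :=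
  ∏ i ∈ f.support, g i (f i)

/-- the product over the support, for functions supported in `S` -/
noncomputable def Gind [CommRing R] (g : ι → M → R) (S : Finset ι) (f : ι →₀ M) : R :=
  open Classical in if f.support ⊆ S then Gsup g f else 0

theorem Gsup_eq [CommRing R] (g : ι → M → R) (h0 : ∀ i, g i 0 = 1) (f : ι →₀ M) (a : ι) :
    Gsup g f = g a (f a) * Gsup g (f.erase a) := by
  unfold Gsup
  rw [Finsupp.support_erase]
  have h1 : ∏ i ∈ f.support.erase a, g i ((f.erase a) i) = ∏ i ∈ f.support.erase a, g i (f i) := by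
    refine Finset.prod_congr rfl fun i hi => ?_
    rw [Finsupp.erase_ne (Finset.ne_of_mem_erase hi)]
  rw [h1]
  by_cases ha : a ∈ f.support
  · rw [Finset.mul_prod_erase _ (fun i => g i (f i)) ha]
  · rw [Finset.erase_eq_of_notMem ha, Finsupp.notMem_support_iff.1 ha, h0, one_mul]

theorem hasSum_step [CommRing R] [TopologicalSpace R] (g : ι → M → R)
    (h0 : ∀ i, g i 0 = 1) {a : ι} {S : Finset ι} (ha : a ∉ S) {r : R}
    (h : HasSum (fun p : M × (ι →₀ M) => g a p.1 * Gind g S p.2) r) :
    HasSum (Gind g (insert a S)) r := by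
  classical
  refine (hasSum_iff_hasSum_of_ne_zero_bij
    (g := fun p : M × (ι →₀ M) => g a p.1 * Gind g S p.2)
    (fun p => p.1.2.update a p.1.1) ?_ ?_ ?_).2 h
  · rintro ⟨⟨m, f⟩, hp⟩ ⟨⟨m', f'⟩, hp'⟩ hpp
    have hs : f.support ⊆ S := by
      by_contra hcon
      exact hp (by simp only [Gind, if_neg hcon, mul_zero])
    have hs' : f'.support ⊆ S := by
      by_contra hcon
      exact hp' (by simp only [Gind, if_neg hcon, mul_zero])
    have hfa : f a = 0 := Finsupp.notMem_support_iff.1 fun h => ha (hs h)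
    have hfa' : f' a = 0 := Finsupp.notMem_support_iff.1 fun h => ha (hs' h)
    have hpp' : f.update a m = f'.update a m' := hpp
    have e1 : m = m' := by
      have := DFunLike.congr_fun hpp' a
      simpa using this
    have e2 : f = f' := by
      ext i
      by_cases hi : i = a
      · subst hi; rw [hfa, hfa']
      · have := DFunLike.congr_fun hpp' i
        simpa [hi] using this
    subst e1; subst e2; rfl
  · intro f hf
    have hs : f.support ⊆ insert a S := by
      by_contra hcon
      exact hf (by simp only [Gind, if_neg hcon])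
    have he : (f.erase a).support ⊆ S := by
      rw [Finsupp.support_erase]
      exact Finset.subset_insert_iff.1 hs
    refine ⟨⟨(f a, f.erase a), ?_⟩, ?_⟩
    · intro h1
      apply hf
      have h2 : g a (f a) * Gind g S (f.erase a) = 0 := h1
      rw [Gind, if_pos he, ← Gsup_eq g h0] at h2
      rw [Gind, if_pos hs, h2]
    · show (f.erase a).update a (f a) = f
      ext i
      by_cases hi : i = a
      · subst hi; simp
      · simp [hi]
  · rintro ⟨⟨m, f⟩, hp⟩
    have hs : f.support ⊆ S := by
      by_contra hcon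
      exact hp (by simp only [Gind, if_neg hcon, mul_zero])
    have hfa : f a = 0 := Finsupp.notMem_support_iff.1 fun h => ha (hs h)
    have hs2 : (f.update a m).support ⊆ insert a S := by
      intro i hi
      rw [Finset.mem_insert]
      by_cases hia : i = a
      · exact Or.inl hia
      · refine Or.inr (hs ?_)
        rw [Finsupp.mem_support_iff] at hi ⊢
        simpa [hia] using hi
    have he : (f.update a m).erase a = f := by
      ext i
      by_cases hi : i = a
      · subst hi; simp [hfa]
      · simp [hi]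
    show Gind g (insert a S) (f.update a m) = g a m * Gind g S f
    rw [Gind, if_pos hs2, Gind, if_pos hs, Gsup_eq g h0 _ a, he]
    simp

theorem norm_Gsup (g : ι → M → ℂ) (f : ι →₀ M) : ‖Gsup g f‖ = Gsup (fun i m => ‖g i m‖) f := by
  unfold Gsup
  rw [norm_prod]

theorem norm_Gind (g : ι → M → ℂ) (S : Finset ι) (f : ι →₀ M) :
    ‖Gind g S f‖ = Gind (fun i m => ‖g i m‖) S f := by
  unfold Gind
  split_ifs
  · exact norm_Gsup g f
  · exact norm_zero

theorem hasSum_real (g : ι → M → ℝ) (hg : ∀ i m, 0 ≤ g i m) (h0 : ∀ i, g i 0 = 1)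
    (hs : ∀ i, Summable (g i)) (S : Finset ι) :
    HasSum (Gind g S) (∏ i ∈ S, ∑' m, g i m) := by
  classical
  induction S using Finset.induction_on with
  | empty =>
    have h1 : Gind g (∅ : Finset ι) = fun f => if f = 0 then 1 else 0 := by
      funext f
      unfold Gind
      by_cases hf : f = 0
      · subst hf
        simp [Gsup]
      · rw [if_neg, if_neg hf]
        rw [Finset.subset_empty, Finsupp.support_eq_empty]
        exact hf
    rw [Finset.prod_empty, h1]
    exact hasSum_ite_eq 0 1
  | insert a S ha ih =>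
    rw [Finset.prod_insert ha]
    refine hasSum_step g h0 ha ?_
    have hnn : ∀ f, 0 ≤ Gind g S f := by
      intro f
      unfold Gind Gsup
      split_ifs
      · exact Finset.prod_nonneg fun i _ => hg i _
      · exact le_rfl
    exact (hs a).hasSum.mul ih ((hs a).mul_of_nonneg ih.summable (fun m => hg a m) hnn)

theorem hasSum_cplx (g : ι → M → ℂ) (h0 : ∀ i, g i 0 = 1)
    (hs : ∀ i, Summable fun m => ‖g i m‖) (S : Finset ι) :
    HasSum (Gind g S) (∏ i ∈ S, ∑' m, g i m) := by
  classical
  induction S using Finset.induction_on with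
  | empty =>
    have h1 : Gind g (∅ : Finset ι) = fun f => if f = 0 then 1 else 0 := by
      funext f
      unfold Gind
      by_cases hf : f = 0
      · subst hf
        simp [Gsup]
      · rw [if_neg, if_neg hf]
        rw [Finset.subset_empty, Finsupp.support_eq_empty]
        exact hf
    rw [Finset.prod_empty, h1]
    exact hasSum_ite_eq 0 1
  | insert a S ha ih =>
    rw [Finset.prod_insert ha]
    refine hasSum_step g h0 ha ?_
    have hn : Summable fun f => ‖Gind g S f‖ := by
      have := (hasSum_real (fun i m => ‖g i m‖) (fun i m => norm_nonneg _)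
        (fun i => by rw [h0, norm_one]) hs S).summable
      refine this.congr fun f => (norm_Gind g S f).symm
    exact (hs a).of_norm.hasSum.mul ih (summable_mul_of_summable_norm (hs a) hn)

end Finsupp

theorem euler_finsupp {ι M : Type} [DecidableEq ι] [Zero M] (g : ι → M → ℂ) (b : ι → ℝ)
    (h0 : ∀ i, g i 0 = 1) (hs : ∀ i, Summable fun m => ‖g i m‖)
    (hb : ∀ i, ∑' m, ‖g i m‖ ≤ 1 + b i) (hbs : Summable b) :
    Summable (fun f : ι →₀ M => ‖∏ i ∈ f.support, g i (f i)‖) ∧
    HasProd (fun i => ∑' m, g i m) (∑' f : ι →₀ M, ∏ i ∈ f.support, g i (f i)) := by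
  classical
  have hb0 : ∀ i, 0 ≤ b i := by
    intro i
    have h1 : ‖g i 0‖ ≤ ∑' m, ‖g i m‖ := (hs i).le_tsum 0 fun _ _ => norm_nonneg _
    rw [h0, norm_one] at h1
    linarith [hb i]
  have hR : ∀ S : Finset ι, HasSum (Gind (fun i m => ‖g i m‖) S) (∏ i ∈ S, ∑' m, ‖g i m‖) :=
    hasSum_real (fun i m => ‖g i m‖) (fun i m => norm_nonneg _) (fun i => by rw [h0, norm_one]) hs
  have hbd : ∀ S : Finset ι, ∏ i ∈ S, ∑' m, ‖g i m‖ ≤ Real.exp (∑' i, b i) := by
    intro S
    calc ∏ i ∈ S, ∑' m, ‖g i m‖ ≤ ∏ i ∈ S, Real.exp (b i) := by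
          refine Finset.prod_le_prod (fun i _ => tsum_nonneg fun m => norm_nonneg _) fun i _ => ?_
          refine (hb i).trans ?_
          have := Real.add_one_le_exp (b i)
          linarith
      _ = Real.exp (∑ i ∈ S, b i) := (Real.exp_sum _ _).symm
      _ ≤ Real.exp (∑' i, b i) := Real.exp_le_exp.2 (hbs.sum_le_tsum S fun i _ => hb0 i)
  have hsum : Summable (fun f : ι →₀ M => ‖Gsup g f‖) := by
    refine summable_of_sum_le (c := Real.exp (∑' i, b i)) (fun f => norm_nonneg _) fun F => ?_
    set S : Finset ι := F.biUnion Finsupp.support with hS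
    have h1 : ∑ f ∈ F, ‖Gsup g f‖ = ∑ f ∈ F, Gind (fun i m => ‖g i m‖) S f := by
      refine Finset.sum_congr rfl fun f hf => ?_
      rw [Gind, if_pos (Finset.subset_biUnion_of_mem Finsupp.support hf), norm_Gsup]
    rw [h1]
    refine le_trans ?_ (hbd S)
    rw [← (hR S).tsum_eq]
    refine (hR S).summable.sum_le_tsum F fun f _ => ?_
    rw [← norm_Gind]
    exact norm_nonneg _
  refine ⟨hsum, ?_⟩
  show Tendsto (fun S : Finset ι => ∏ i ∈ S, ∑' m, g i m) atTop (𝓝 (∑' f : ι →₀ M, Gsup g f))
  have h2 : (fun S : Finset ι => ∏ i ∈ S, ∑' m, g i m) = fun S => ∑' f, Gind g S f := by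
    funext S
    exact (hasSum_cplx g h0 hs S).tsum_eq.symm
  rw [h2]
  refine tendsto_tsum_of_dominated_convergence (bound := fun f => ‖Gsup g f‖) hsum ?_ ?_
  · intro f
    refine tendsto_const_nhds.congr' ?_
    filter_upwards [eventually_ge_atTop f.support] with S hS
    rw [Gind, if_pos hS]
  · refine Eventually.of_forall fun S f => ?_
    unfold Gind
    split_ifs
    · exact le_rfl
    · rw [norm_zero]; exact norm_nonneg _

/-- the type of primes (transparent) -/
abbrev PrT := {p : ℕ // Nat.Prime p}

/-- the tuple with prescribed factorizations -/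
noncomputable def tup {k : ℕ} (f : PrT →₀ (Fin k → ℕ)) (i : Fin k) : ℕ :=
  ∏ p ∈ f.support, (p : ℕ) ^ (f p i)

theorem tup_ne_zero {k : ℕ} (f : PrT →₀ (Fin k → ℕ)) (i : Fin k) : tup f i ≠ 0 := by
  unfold tup
  exact Finset.prod_ne_zero_iff.2 fun p _ => pow_ne_zero _ p.2.ne_zero

theorem tup_factorization {k : ℕ} (f : PrT →₀ (Fin k → ℕ)) (i : Fin k) (q : PrT) :
    (tup f i).factorization q = f q i := by
  unfold tup
  rw [Nat.factorization_prod fun p _ => pow_ne_zero _ p.2.ne_zero, Finsupp.finsetSum_apply]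
  have h1 : ∀ p ∈ f.support, ((p : ℕ) ^ (f p i)).factorization q = if p = q then f p i else 0 := by
    intro p _
    rw [p.2.factorization_pow, Finsupp.single_apply]
    simp only [Subtype.ext_iff]
  rw [Finset.sum_congr rfl h1, Finset.sum_ite_eq']
  by_cases hq : q ∈ f.support
  · rw [if_pos hq]
  · rw [if_neg hq, Finsupp.notMem_support_iff.1 hq]
    rfl

theorem tup_injective {k : ℕ} : Function.Injective (tup (k := k)) := by
  intro f f' h
  ext q i
  rw [← tup_factorization, ← tup_factorization, h]

theorem tup_surj {k : ℕ} (n : Fin k → ℕ) (hn : ∀ i, n i ≠ 0) : ∃ f, tup f = n := by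
  classical
  let f : PrT →₀ (Fin k → ℕ) := Finsupp.onFinset
    ((∏ i, n i).primeFactors.subtype Nat.Prime) (fun p i => (n i).factorization p) (by
      intro p hp
      rw [Finset.mem_subtype, Nat.mem_primeFactors]
      refine ⟨p.2, ?_, Finset.prod_ne_zero_iff.2 fun i _ => hn i⟩
      obtain ⟨i, hi⟩ := Function.ne_iff.1 hp
      have : (p : ℕ) ∣ n i := Nat.dvd_of_factorization_pos hi
      exact this.trans (Finset.dvd_prod_of_mem n (Finset.mem_univ i)))
  refine ⟨f, ?_⟩
  funext i
  refine Nat.eq_of_factorization_eq (tup_ne_zero f i) (hn i) fun q => ?_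
  by_cases hq : q.Prime
  · exact tup_factorization f i ⟨q, hq⟩
  · rw [Nat.factorization_eq_zero_of_not_prime _ hq, Nat.factorization_eq_zero_of_not_prime _ hq]

theorem euler_multi (k : ℕ) (g : ℕ → (Fin k → ℕ) → ℂ) (b : ℕ → ℝ)
    (h0 : ∀ p, p.Prime → g p 0 = 1) (hs : ∀ p, p.Prime → Summable fun v => ‖g p v‖)
    (hb : ∀ p, p.Prime → ∑' v, ‖g p v‖ ≤ 1 + b p) (hb0 : ∀ p, 0 ≤ b p) (hbs : Summable b) :
    Summable (fun n : Fin k → ℕ => if ∃ i, n i = 0 then (0 : ℝ) else
      ‖∏ p ∈ (∏ i, n i).primeFactors, g p (fun i => (n i).factorization p)‖) ∧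
    Tendsto (fun Y : ℕ => ∏ p ∈ (Finset.range Y).filter Nat.Prime, ∑' v, g p v) atTop
      (𝓝 (∑' n : Fin k → ℕ, if ∃ i, n i = 0 then (0 : ℂ) else
        ∏ p ∈ (∏ i, n i).primeFactors, g p (fun i => (n i).factorization p))) := by
  classical
  obtain ⟨hA, hB⟩ := euler_finsupp (ι := PrT) (M := Fin k → ℕ) (fun p v => g p v)
    (fun p => b p) (fun p => h0 p p.2) (fun p => hs p p.2) (fun p => hb p p.2)
    (hbs.comp_injective Subtype.val_injective)
  let F : (Fin k → ℕ) → ℂ := fun n => if ∃ i, n i = 0 then (0 : ℂ) else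
        ∏ p ∈ (∏ i, n i).primeFactors, g p (fun i => (n i).factorization p)
  have hF : ∀ f : PrT →₀ (Fin k → ℕ), F (tup f) = ∏ p ∈ f.support, g p (f p) := by
    intro f
    have h1 : ¬ ∃ i, tup f i = 0 := fun ⟨i, hi⟩ => tup_ne_zero f i hi
    have h2 : (∏ i, tup f i).primeFactors = f.support.map ⟨Subtype.val, Subtype.val_injective⟩ := by
      ext q
      rw [Nat.mem_primeFactors_of_ne_zero (Finset.prod_ne_zero_iff.2 fun i _ => tup_ne_zero f i),
        Finset.mem_map]
      constructor
      · rintro ⟨hq, hd⟩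
        rw [hq.prime.dvd_finsetProd_iff] at hd
        obtain ⟨i, _, hd⟩ := hd
        refine ⟨⟨q, hq⟩, ?_, rfl⟩
        rw [Finsupp.mem_support_iff]
        intro h3
        have h4 : (tup f i).factorization q = 0 := by
          have := tup_factorization f i ⟨q, hq⟩
          rw [h3] at this
          exact this
        have h5 := (hq.dvd_iff_one_le_factorization (tup_ne_zero f i)).1 hd
        omega
      · rintro ⟨p, hp, rfl⟩
        refine ⟨p.2, ?_⟩
        rw [Finsupp.mem_support_iff] at hp
        obtain ⟨i, hi⟩ := Function.ne_iff.1 hp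
        rw [← tup_factorization f i p] at hi
        have : (p : ℕ) ∣ tup f i := Nat.dvd_of_factorization_pos hi
        exact this.trans (Finset.dvd_prod_of_mem (tup f) (Finset.mem_univ i))
    show (if ∃ i, tup f i = 0 then (0 : ℂ) else
        ∏ p ∈ (∏ i, tup f i).primeFactors, g p (fun i => (tup f i).factorization p)) = _
    rw [if_neg h1, h2, Finset.prod_map]
    refine Finset.prod_congr rfl fun p _ => ?_
    congr 1
    funext i
    exact tup_factorization f i p
  have hF0 : ∀ n, n ∉ Set.range (tup (k := k)) → F n = 0 := by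
    intro n hn
    refine if_pos ?_
    by_contra hcon
    push Not at hcon
    exact hn (tup_surj n hcon)
  have hFn : (fun n : Fin k → ℕ => if ∃ i, n i = 0 then (0 : ℝ) else
      ‖∏ p ∈ (∏ i, n i).primeFactors, g p (fun i => (n i).factorization p)‖) = fun n => ‖F n‖ := by
    funext n
    show _ = ‖if ∃ i, n i = 0 then (0 : ℂ) else _‖
    split_ifs
    · exact norm_zero.symm
    · rfl
  refine ⟨?_, ?_⟩
  · rw [hFn]
    refine (Function.Injective.summable_iff tup_injective ?_).1 ?_
    · intro n hn
      rw [hF0 n hn, norm_zero]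
    · refine hA.congr fun f => ?_
      show _ = ‖F (tup f)‖
      rw [hF]
  · have h1 : ∑' n : Fin k → ℕ, F n = ∑' f : PrT →₀ (Fin k → ℕ),
        ∏ p ∈ f.support, g p (f p) := by
      rw [← tup_injective.tsum_eq (f := F)]
      · exact tsum_congr hF
      · intro n hn
        by_contra hcon
        exact hn (hF0 n hcon)
    show Tendsto _ atTop (𝓝 (∑' n : Fin k → ℕ, F n))
    rw [h1]
    change HasProd ((fun p : ℕ => ∑' v, g p v) ∘
      Subtype.val (p := (· ∈ {x | Nat.Prime x}))) _ at hB
    rw [hasProd_subtype_iff_mulIndicator] at hB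
    have h2 := hB.tendsto_prod_nat
    refine h2.congr fun Y => ?_
    exact Finset.prod_mulIndicator_eq_prod_filter (Finset.range Y)
      (fun _ => fun p : ℕ => ∑' v, g p v) (fun _ => {p | Nat.Prime p}) id

end Pool.Hhelper76.SC
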