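import Mathlib

/-!
# SC module G1 (ZetaBd): elementary bounds for `ζ(1 + z)`, `Re z > 0`

PAPER PROOF. `zeta_le`: `|ζ(1+z)| ≤ ζ(1+σ) ≤ 1 + ∫_1^∞ x^{-1-σ} dx = 1 + 1/σ`, `σ = Re z`.
`zeta_inv_le`: `1/ζ(s) = ∑ μ(n) n^{-s}` for `Re s > 1`, same bound (or `|1/ζ(s)| ≤ ζ(σ)` by the Euler
product).
`zeta_upper`: for `Re s > 0`, `s ≠ 1`: `ζ(s) = s/(s-1) - s ∫_1^∞ {x} x^{-s-1} dx`
(for `Re s > 1` by Abel summation, `riemannZeta` is analytic on `s ≠ 1`, identity theorem; or search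
Mathlib/team files for an existing version), so `|ζ(1+z)| ≤ |1+z|/|z| + |1+z| ≤ C(1/|z| + 1 + |z|)` for
`Re z ≥ 0`, `z ≠ 0`; the same formula in `Re s ≥ 1/2` gives `|ζ(s)| ≤ |s|/|s-1| + 2|s|`.
`zeta_lower`: put `z = σ + it`, `0 < σ ≤ 3`.
(a) `|z| ≤ r₀` for a small fixed `r₀`: `z ζ(1+z) → 1` as `z → 0` (`riemannZeta_residue_one`), so
`|ζ(1+z)| ≥ 1/(2|z|)`.
(b) `r₀ ≤ |z|`, `|t| ≤ T₀` (any fixed `T₀`): compactness of `{Re z ∈ [0,3], |t| ≤ T₀, |z| ≥ r₀}` and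
`riemannZeta_ne_zero_of_one_le_re`.
(c) `|t| ≥ 1`: `ζ(1+x)³ |ζ(1+x+it)|⁴ |ζ(1+x+2it)| ≥ 1` for `x > 0`
(`DirichletCharacter.norm_LSeries_product_ge_one` or the `riemannZeta` version), hence by (zeta_upper)
`|ζ(1+x+it)| ≥ c x^{3/4} |t|^{-1/4}` for `0 < x ≤ 3`. Cauchy's estimate on the circle of radius `1/2`
gives `|ζ'(1+x+it)| ≤ C|t|` (`0 ≤ x ≤ 3`, `|t| ≥ 1`). For `σ ≤ x₀ := c₁ |t|^{-5}`:
`|ζ(1+σ+it)| ≥ |ζ(1+x₀+it)| - x₀ C |t| ≥ c c₁^{3/4} |t|^{-15/4-1/4} - C c₁ |t|^{-4} ≥ c₂ |t|^{-4}` if `c₁` is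
small; for `σ ≥ x₀` directly `≥ c x₀^{3/4} |t|^{-1/4} ≥ c₃ |t|^{-4}`. So `K = 4` (any `K` is fine).
-/

open Complex MeasureTheory

namespace Pool.Hhelper76.SC

noncomputable section ZetaBdAux

/-- the integral `∫_1^∞ {t} t^(-s-1) dt` -/
def zbJ (s : ℂ) : ℂ := ∫ t : ℝ in Set.Ioi 1, ((Int.fract t : ℝ) : ℂ) * (t : ℂ) ^ (-(s + 1))

theorem zb_int_rpow {σ : ℝ} (hσ : 0 < σ) :
    IntegrableOn (fun t : ℝ => t ^ (-(σ + 1))) (Set.Ioi 1) :=
  integrableOn_Ioi_rpow_of_lt (by linarith) one_pos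

theorem zb_int_rpow_val {σ : ℝ} (hσ : 0 < σ) :
    ∫ t : ℝ in Set.Ioi 1, t ^ (-(σ + 1)) = 1 / σ := by
  rw [integral_Ioi_rpow_of_lt (by linarith) one_pos, Real.one_rpow,
    show -(σ + 1) + 1 = -σ by ring, neg_div_neg_eq]

theorem zb_norm_cpow {t : ℝ} (ht : t ∈ Set.Ioi (1 : ℝ)) (s : ℂ) :
    ‖(t : ℂ) ^ (-(s + 1))‖ = t ^ (-(s.re + 1)) := by
  rw [Complex.norm_cpow_eq_rpow_re_of_pos (lt_trans one_pos ht)]
  simp

theorem zbJ_norm_le {s : ℂ} (hs : 0 < s.re) : ‖zbJ s‖ ≤ 1 / s.re := by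
  rw [← zb_int_rpow_val hs]
  unfold zbJ
  refine norm_integral_le_of_norm_le (zb_int_rpow hs) ?_
  refine (ae_restrict_iff' measurableSet_Ioi).2 (Filter.Eventually.of_forall fun t ht => ?_)
  rw [norm_mul, zb_norm_cpow ht, Complex.norm_real, Real.norm_of_nonneg (Int.fract_nonneg t)]
  have h1 : 0 < t ^ (-(s.re + 1)) := Real.rpow_pos_of_pos (lt_trans one_pos ht) _
  nlinarith [(Int.fract_lt_one t).le, Int.fract_nonneg t]

theorem zbJ_integrable {s : ℂ} (hs : 0 < s.re) :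
    IntegrableOn (fun t : ℝ => ((Int.fract t : ℝ) : ℂ) * (t : ℂ) ^ (-(s + 1))) (Set.Ioi 1) := by
  refine Integrable.mono' (zb_int_rpow hs) ?_ ?_
  · refine AEStronglyMeasurable.mul ?_ ?_
    · exact (Complex.measurable_ofReal.comp measurable_fract).aestronglyMeasurable
    · refine ContinuousOn.aestronglyMeasurable ?_ measurableSet_Ioi
      intro t ht
      refine ContinuousAt.continuousWithinAt ?_
      refine ContinuousAt.comp (g := fun z : ℂ => z ^ (-(s + 1))) ?_ Complex.continuous_ofReal.continuousAt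
      exact continuousAt_cpow_const (Or.inl (by simpa using lt_trans one_pos ht))
  · refine (ae_restrict_iff' measurableSet_Ioi).2 (Filter.Eventually.of_forall fun t ht => ?_)
    rw [norm_mul, zb_norm_cpow ht, Complex.norm_real, Real.norm_of_nonneg (Int.fract_nonneg t)]
    have h1 : 0 < t ^ (-(s.re + 1)) := Real.rpow_pos_of_pos (lt_trans one_pos ht) _
    nlinarith [(Int.fract_lt_one t).le, Int.fract_nonneg t]

theorem zbJ_diff {s : ℂ} (hs : 0 < s.re) : DifferentiableAt ℂ zbJ s := by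
  set f : ℝ → ℂ := (Set.Ioi (1 : ℝ)).indicator fun t => ((Int.fract t : ℝ) : ℂ) with hf
  have hfn : ∀ t, ‖f t‖ ≤ 1 := by
    intro t
    rw [hf]
    by_cases h : t ∈ Set.Ioi (1 : ℝ)
    · rw [Set.indicator_of_mem h, Complex.norm_real, Real.norm_of_nonneg (Int.fract_nonneg t)]
      exact (Int.fract_lt_one t).le
    · rw [Set.indicator_of_notMem h, norm_zero]; exact zero_le_one
  have h1 : ∀ w : ℂ, zbJ w = mellin f (-w) := by
    intro w
    unfold zbJ mellin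
    rw [← integral_indicator measurableSet_Ioi, ← integral_indicator measurableSet_Ioi]
    refine integral_congr_ae (Filter.Eventually.of_forall fun t => ?_)
    simp only [Set.indicator, Set.mem_Ioi, smul_eq_mul, hf]
    by_cases h : 1 < t
    · have h0 : 0 < t := by linarith
      simp only [h, h0, if_true]
      rw [mul_comm]
      congr 2
      ring
    · simp only [h, if_false, mul_zero, ite_self]
  have h2 : DifferentiableAt ℂ (mellin f) (-s) := by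
    refine mellin_differentiableAt_of_isBigO_rpow (a := 0) (b := (-s).re - 1) ?_ ?_ ?_ ?_ ?_
    · refine LocallyIntegrable.locallyIntegrableOn ?_ _
      refine (locallyIntegrable_const (1 : ℝ)).mono ?_ ?_
      · refine AEStronglyMeasurable.indicator ?_ measurableSet_Ioi
        exact (Complex.measurable_ofReal.comp measurable_fract).aestronglyMeasurable
      · exact Filter.Eventually.of_forall fun t => by simpa using hfn t
    · refine Asymptotics.IsBigO.of_bound 1 (Filter.Eventually.of_forall fun t => ?_)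
      simpa using hfn t
    · simpa using hs
    · refine Asymptotics.IsBigO.of_bound 1 ?_
      filter_upwards [Ioo_mem_nhdsGT (show (0 : ℝ) < 1 from one_pos)] with t ht
      have : f t = 0 := by
        rw [hf, Set.indicator_of_notMem]
        simpa using ht.2.le
      rw [this, norm_zero]
      positivity
    · linarith
  have h3 : zbJ = fun w => mellin f (-w) := funext h1
  rw [h3]
  exact h2.comp s differentiableAt_id.neg

theorem zeta₁_eq_of_one_lt {s : ℂ} (hs : 1 < s.re) :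
    riemannZeta₁ s = s - (s - 1) * s * zbJ s := by
  have hs1 : s ≠ 1 := by
    rintro rfl
    simp at hs
  have hs0 : s - 1 ≠ 0 := sub_ne_zero.2 hs1
  have h1 := LSeries_eq_mul_integral' (fun _ => (1 : ℂ)) (r := 1) zero_le_one (s := s) hs (by
    simp only [norm_one, Finset.sum_const, Nat.card_Icc, add_tsub_cancel_right, nsmul_eq_mul,
      mul_one, Real.rpow_one]
    exact Asymptotics.isBigO_refl _ _)
  have h2 : LSeries (fun _ => (1 : ℂ)) s = riemannZeta s := by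
    have := LSeries_one_eq_riemannZeta hs
    rw [← this]
    rfl
  have h3 : ∫ t in Set.Ioi (1 : ℝ), (∑ k ∈ Finset.Icc 1 ⌊t⌋₊, (1 : ℂ)) * (t : ℂ) ^ (-(s + 1)) =
      1 / (s - 1) - zbJ s := by
    have h4 : ∫ t in Set.Ioi (1 : ℝ), (t : ℂ) ^ (-s) = 1 / (s - 1) := by
      rw [integral_Ioi_cpow_of_lt (by simpa using hs) one_pos]
      simp only [Complex.ofReal_one, Complex.one_cpow]
      rw [show -s + 1 = -(s - 1) by ring, neg_div_neg_eq]
    have h5 : IntegrableOn (fun t : ℝ => (t : ℂ) ^ (-s)) (Set.Ioi 1) :=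
      integrableOn_Ioi_cpow_of_lt (by simpa using hs) one_pos
    rw [← h4]
    unfold zbJ
    rw [← integral_sub h5 (zbJ_integrable (by linarith))]
    refine setIntegral_congr_fun measurableSet_Ioi fun t ht => ?_
    have ht1 : (1 : ℝ) < t := ht
    have ht0 : (0 : ℝ) < t := by linarith
    have htc : (t : ℂ) ≠ 0 := by exact_mod_cast ht0.ne'
    simp only [Finset.sum_const, Nat.card_Icc, add_tsub_cancel_right, nsmul_eq_mul, mul_one]
    have h6 : ((⌊t⌋₊ : ℕ) : ℂ) = (t : ℂ) - ((Int.fract t : ℝ) : ℂ) := by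
      have h7 : ((⌊t⌋₊ : ℕ) : ℝ) = t - Int.fract t := by
        rw [Int.self_sub_fract, natCast_floor_eq_intCast_floor ht0.le]
      rw [← Complex.ofReal_sub, ← h7, Complex.ofReal_natCast]
    rw [h6, sub_mul]
    congr 1
    rw [show -s = -(s + 1) + 1 by ring, Complex.cpow_add _ _ htc, Complex.cpow_one, mul_comm]
  rw [h2, h3, riemannZeta_eq_inv_sub_mul hs1] at h1
  field_simp at h1
  rw [h1]
  ring

theorem zeta₁_eq {s : ℂ} (hs : 0 < s.re) :
    riemannZeta₁ s = s - (s - 1) * s * zbJ s := by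
  have hU : IsOpen {z : ℂ | 0 < z.re} := isOpen_lt continuous_const Complex.continuous_re
  have hconv : Convex ℝ {z : ℂ | 0 < z.re} := convex_halfSpace_re_gt 0
  have hf : AnalyticOnNhd ℂ riemannZeta₁ {z : ℂ | 0 < z.re} :=
    (differentiable_riemannZeta₁.differentiableOn).analyticOnNhd hU
  have hg : AnalyticOnNhd ℂ (fun s => s - (s - 1) * s * zbJ s) {z : ℂ | 0 < z.re} := by
    refine DifferentiableOn.analyticOnNhd ?_ hU
    intro z hz
    have := zbJ_diff (s := z) hz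
    refine DifferentiableAt.differentiableWithinAt ?_
    fun_prop
  have h2 : (2 : ℂ) ∈ {z : ℂ | 0 < z.re} := by simp
  have hev : riemannZeta₁ =ᶠ[nhds (2 : ℂ)] fun s => s - (s - 1) * s * zbJ s := by
    have : {z : ℂ | 1 < z.re} ∈ nhds (2 : ℂ) :=
      (isOpen_lt continuous_const Complex.continuous_re).mem_nhds (by simp)
    filter_upwards [this] with z hz
    exact zeta₁_eq_of_one_lt hz
  exact hf.eqOn_of_preconnected_of_eventuallyEq hg hconv.isPreconnected h2 hev hs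

/-- the entire function `z ζ(1+z)` -/
def zbZ (z : ℂ) : ℂ := riemannZeta₁ (1 + z)

theorem zbZ_diff : Differentiable ℂ zbZ := by
  unfold zbZ
  fun_prop

theorem zeta_eq_zbZ {z : ℂ} (hz : z ≠ 0) : riemannZeta (1 + z) = z⁻¹ * zbZ z := by
  unfold zbZ
  rw [riemannZeta_eq_inv_sub_mul (by simpa using hz), add_sub_cancel_left]

theorem zbZ_eq {z : ℂ} (hz : -1 < z.re) : zbZ z = (1 + z) - z * (1 + z) * zbJ (1 + z) := by
  unfold zbZ
  rw [zeta₁_eq (by simpa using by linarith), add_sub_cancel_left]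

theorem zbZ_norm_le {z : ℂ} (hz : -(1 / 2) ≤ z.re) : ‖zbZ z‖ ≤ 2 * (1 + ‖z‖) ^ 2 := by
  have hre : (1 / 2 : ℝ) ≤ (1 + z).re := by simp; linarith
  have hJ : ‖zbJ (1 + z)‖ ≤ 2 := by
    refine (zbJ_norm_le (by linarith)).trans ?_
    rw [div_le_iff₀ (by linarith)]
    linarith
  have h1 : ‖1 + z‖ ≤ 1 + ‖z‖ := by
    calc ‖1 + z‖ ≤ ‖(1 : ℂ)‖ + ‖z‖ := norm_add_le _ _
      _ = _ := by rw [norm_one]
  rw [zbZ_eq (by linarith)]
  have h0 := norm_nonneg z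
  calc ‖(1 + z) - z * (1 + z) * zbJ (1 + z)‖ ≤ ‖1 + z‖ + ‖z * (1 + z) * zbJ (1 + z)‖ :=
        norm_sub_le _ _
    _ = ‖1 + z‖ + ‖z‖ * ‖1 + z‖ * ‖zbJ (1 + z)‖ := by rw [norm_mul, norm_mul]
    _ ≤ (1 + ‖z‖) + ‖z‖ * (1 + ‖z‖) * 2 := by gcongr
    _ ≤ 2 * (1 + ‖z‖) ^ 2 := by nlinarith

theorem zbZ_norm_le' {z : ℂ} (hz : 0 ≤ z.re) : ‖zbZ z‖ ≤ (1 + ‖z‖) ^ 2 := by
  have hre : (1 : ℝ) ≤ (1 + z).re := by simpa using hz
  have hJ : ‖zbJ (1 + z)‖ ≤ 1 := by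
    refine (zbJ_norm_le (by linarith)).trans ?_
    rw [div_le_iff₀ (by linarith)]
    linarith
  have h1 : ‖1 + z‖ ≤ 1 + ‖z‖ := by
    calc ‖1 + z‖ ≤ ‖(1 : ℂ)‖ + ‖z‖ := norm_add_le _ _
      _ = _ := by rw [norm_one]
  rw [zbZ_eq (by linarith)]
  have h0 := norm_nonneg z
  calc ‖(1 + z) - z * (1 + z) * zbJ (1 + z)‖ ≤ ‖1 + z‖ + ‖z * (1 + z) * zbJ (1 + z)‖ :=
        norm_sub_le _ _
    _ = ‖1 + z‖ + ‖z‖ * ‖1 + z‖ * ‖zbJ (1 + z)‖ := by rw [norm_mul, norm_mul]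
    _ ≤ (1 + ‖z‖) + ‖z‖ * (1 + ‖z‖) * 1 := by gcongr
    _ = (1 + ‖z‖) ^ 2 := by ring

theorem zbZ_real_le {x : ℝ} (hx : 0 < x) : ‖zbZ x‖ ≤ 1 + x := by
  -- `zbJ` is real and nonnegative
  have hJ : ∃ j : ℝ, 0 ≤ j ∧ zbJ (1 + x) = j ∧ j ≤ 1 := by
    refine ⟨∫ t : ℝ in Set.Ioi 1, Int.fract t * t ^ (-((1 + x) + 1)), ?_, ?_, ?_⟩
    · refine setIntegral_nonneg measurableSet_Ioi fun t ht => ?_
      exact mul_nonneg (Int.fract_nonneg t) (Real.rpow_nonneg (lt_trans one_pos ht).le _)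
    · unfold zbJ
      rw [← integral_complex_ofReal]
      refine setIntegral_congr_fun measurableSet_Ioi fun t ht => ?_
      rw [Complex.ofReal_mul, Complex.ofReal_cpow (lt_trans one_pos ht).le]
      push_cast
      rfl
    · have h2 := zbJ_norm_le (s := 1 + x) (by simpa using by linarith)
      have h3 : zbJ (1 + x) = ((∫ t : ℝ in Set.Ioi 1, Int.fract t * t ^ (-((1 + x) + 1)) : ℝ) : ℂ) := by
        unfold zbJ
        rw [← integral_complex_ofReal]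
        refine setIntegral_congr_fun measurableSet_Ioi fun t ht => ?_
        rw [Complex.ofReal_mul, Complex.ofReal_cpow (lt_trans one_pos ht).le]
        push_cast
        rfl
      rw [h3, Complex.norm_real] at h2
      refine (Real.le_norm_self _).trans (h2.trans ?_)
      simp only [Complex.add_re, Complex.one_re, Complex.ofReal_re]
      rw [div_le_iff₀ (by linarith)]
      linarith
  obtain ⟨j, hj0, hj, hj1⟩ := hJ
  rw [zbZ_eq (by simpa using by linarith), hj]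
  have : (1 + (x : ℂ)) - x * (1 + x) * j = (((1 + x) - x * (1 + x) * j : ℝ) : ℂ) := by push_cast; ring
  rw [this, Complex.norm_real, Real.norm_of_nonneg]
  · have : 0 ≤ x * (1 + x) * j := by positivity
    linarith
  · -- positivity: `1 + x - x (1+x) j ≥ 0`
    have h2 := zbJ_norm_le (s := 1 + x) (by simpa using by linarith)
    rw [hj, Complex.norm_real, Real.norm_of_nonneg hj0] at h2
    simp only [Complex.add_re, Complex.one_re, Complex.ofReal_re] at h2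
    rw [le_div_iff₀ (by linarith)] at h2
    nlinarith

theorem zb_LSeries_le {f : ℕ → ℂ} (hf : ∀ n, ‖f n‖ ≤ 1) {s : ℂ} (hs : 1 < s.re) :
    ‖LSeries f s‖ ≤ ‖riemannZeta (s.re : ℂ)‖ := by
  have hs' : 1 < ((s.re : ℝ) : ℂ).re := by simpa using hs
  have h1 : riemannZeta (s.re : ℂ) = ((∑' n : ℕ, ‖LSeries.term 1 s n‖ : ℝ) : ℂ) := by
    rw [← LSeries_one_eq_riemannZeta hs', LSeries, Complex.ofReal_tsum]
    refine tsum_congr fun n => ?_
    rw [LSeries.norm_term_eq, LSeries.term_def]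
    by_cases hn : n = 0
    · simp [hn]
    · simp only [hn, if_false, Pi.one_apply, norm_one]
      rw [Complex.ofReal_div, Complex.ofReal_cpow (Nat.cast_nonneg n)]
      simp
  have h2 : Summable fun n : ℕ => ‖LSeries.term 1 s n‖ :=
    ((LSeriesHasSum_one hs).LSeriesSummable).norm
  rw [h1, Complex.norm_real, Real.norm_of_nonneg (tsum_nonneg fun n => norm_nonneg _)]
  refine tsum_of_norm_bounded h2.hasSum fun n => ?_
  rw [LSeries.norm_term_eq, LSeries.norm_term_eq]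
  by_cases hn : n = 0
  · simp [hn]
  · simp only [hn, if_false, Pi.one_apply, norm_one]
    gcongr
    exact hf n

theorem zb_real_le {x : ℝ} (hx : 0 < x) : ‖riemannZeta ((1 + x : ℝ) : ℂ)‖ ≤ 1 + 1 / x := by
  rw [show (((1 + x : ℝ)) : ℂ) = 1 + (x : ℂ) by push_cast; ring,
    zeta_eq_zbZ (by exact_mod_cast hx.ne'), norm_mul, norm_inv, Complex.norm_real,
    Real.norm_of_nonneg hx.le]
  have h2 := zbZ_real_le hx
  calc x⁻¹ * ‖zbZ x‖ ≤ x⁻¹ * (1 + x) := by gcongr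
    _ = 1 + 1 / x := by field_simp; ring

/-! lower bound -/

theorem zbZ_ne_zero {z : ℂ} (hz : 0 ≤ z.re) : zbZ z ≠ 0 := by
  by_cases h : z = 0
  · subst h
    unfold zbZ
    simp
  · intro h0
    have h1 := zeta_eq_zbZ h
    rw [h0, mul_zero] at h1
    exact riemannZeta_ne_zero_of_one_le_re (s := 1 + z) (by simpa using hz) h1

theorem zb_341 {x : ℝ} (hx : 0 < x) (t : ℝ) :
    x ^ 3 * (‖(x : ℂ) + t * I‖ ^ 4 * ‖(x : ℂ) + 2 * t * I‖) ≤
      ‖zbZ x‖ ^ 3 * ‖zbZ (x + t * I)‖ ^ 4 * ‖zbZ (x + 2 * t * I)‖ := by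
  have h := DirichletCharacter.norm_LFunction_product_ge_one (1 : DirichletCharacter ℂ 1) hx t
  have hone : ∀ s : ℂ, DirichletCharacter.LFunction (1 : DirichletCharacter ℂ 1) s =
      riemannZeta s := fun s => by
    rw [DirichletCharacter.LFunction_modOne_eq]
  rw [DirichletCharacter.LFunctionTrivChar, one_pow, hone, hone, hone] at h
  have hx0 : (x : ℂ) ≠ 0 := by exact_mod_cast hx.ne'
  have h1 : (x : ℂ) + t * I ≠ 0 := by
    intro h
    have := congrArg Complex.re h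
    simp at this
    exact hx.ne' this
  have h2 : (x : ℂ) + 2 * t * I ≠ 0 := by
    intro h
    have := congrArg Complex.re h
    simp at this
    exact hx.ne' this
  rw [show (1 : ℂ) + x + I * t = 1 + (x + t * I) by ring,
    show (1 : ℂ) + x + 2 * I * t = 1 + (x + 2 * t * I) by ring,
    zeta_eq_zbZ hx0, zeta_eq_zbZ h1, zeta_eq_zbZ h2] at h
  simp only [norm_mul, norm_pow, norm_inv, Complex.norm_real, Real.norm_of_nonneg hx.le] at h
  have p1 : 0 < ‖(x : ℂ) + t * I‖ := norm_pos_iff.2 h1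
  have p2 : 0 < ‖(x : ℂ) + 2 * t * I‖ := norm_pos_iff.2 h2
  have e : (x⁻¹ * ‖zbZ x‖) ^ 3 * (‖(x : ℂ) + t * I‖⁻¹ * ‖zbZ (x + t * I)‖) ^ 4 *
      (‖(x : ℂ) + 2 * t * I‖⁻¹ * ‖zbZ (x + 2 * t * I)‖) =
      (‖zbZ x‖ ^ 3 * ‖zbZ (x + t * I)‖ ^ 4 * ‖zbZ (x + 2 * t * I)‖) /
        (x ^ 3 * (‖(x : ℂ) + t * I‖ ^ 4 * ‖(x : ℂ) + 2 * t * I‖)) := by
    field_simp
  rw [e, ge_iff_le, le_div_iff₀ (by positivity), one_mul] at h
  exact h

theorem zb_pow4 {x t : ℝ} (hx : 0 < x) (hx3 : x ≤ 3) (ht : 1 ≤ |t|) :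
    (1 / 5 : ℝ) ^ 4 * x ^ 3 ≤ ‖zbZ (x + t * I)‖ ^ 4 := by
  have h := zb_341 hx t
  set A : ℝ := ‖(x : ℂ) + t * I‖ with hA
  set u : ℝ := ‖(x : ℂ) + 2 * t * I‖ with hu
  set Y : ℝ := ‖zbZ (x + t * I)‖ with hY
  have hA1 : 1 ≤ A := by
    have := Complex.abs_im_le_norm ((x : ℂ) + t * I)
    simp at this
    linarith
  have hu1 : 2 ≤ u := by
    have := Complex.abs_im_le_norm ((x : ℂ) + 2 * t * I)
    simp [abs_mul] at this
    linarith
  have huA : u ≤ 2 * A := by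
    have h1 : (x : ℂ) + 2 * t * I = (x + t * I) + t * I := by ring
    have h2 : ‖(t : ℂ) * I‖ ≤ A := by
      have := Complex.abs_im_le_norm ((x : ℂ) + t * I)
      simp at this
      simpa using this
    rw [hu, h1]
    calc ‖((x : ℂ) + t * I) + t * I‖ ≤ A + ‖(t : ℂ) * I‖ := norm_add_le _ _
      _ ≤ 2 * A := by linarith
  have hZ1 : ‖zbZ x‖ ≤ 4 := (zbZ_real_le hx).trans (by linarith)
  have hZ2 : ‖zbZ (x + 2 * t * I)‖ ≤ 9 / 4 * u ^ 2 := by
    refine (zbZ_norm_le' (by simpa using hx.le)).trans ?_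
    rw [← hu]
    nlinarith
  have hY0 : 0 ≤ Y := norm_nonneg _
  have hx3' : 0 < x ^ 3 := by positivity
  have h2 : x ^ 3 * (A ^ 4 * u) ≤ 64 * Y ^ 4 * (9 / 4 * u ^ 2) := by
    refine h.trans ?_
    have : ‖zbZ x‖ ^ 3 ≤ 64 := by
      calc ‖zbZ x‖ ^ 3 ≤ 4 ^ 3 := by gcongr
        _ = 64 := by norm_num
    gcongr
  have hu0 : 0 < u := by linarith
  have h3 : x ^ 3 * A ^ 4 ≤ 144 * Y ^ 4 * u := by
    have h4 : (x ^ 3 * A ^ 4) * u ≤ (144 * Y ^ 4 * u) * u := by nlinarith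
    exact le_of_mul_le_mul_right h4 hu0
  have h5 : x ^ 3 * A ^ 4 ≤ 288 * Y ^ 4 * A := by
    have : 144 * Y ^ 4 * u ≤ 144 * Y ^ 4 * (2 * A) := by gcongr
    linarith
  have h6 : x ^ 3 * A ^ 3 ≤ 288 * Y ^ 4 := by
    have hA0 : 0 < A := by linarith
    have h7 : (x ^ 3 * A ^ 3) * A ≤ (288 * Y ^ 4) * A := by nlinarith
    exact le_of_mul_le_mul_right h7 hA0
  have h8 : x ^ 3 ≤ x ^ 3 * A ^ 3 := by
    have : (1 : ℝ) ≤ A ^ 3 := one_le_pow₀ hA1
    nlinarith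
  have hY4 : 0 ≤ Y ^ 4 := by positivity
  nlinarith

theorem zb_deriv_le {v : ℂ} (hv : 0 ≤ v.re) : ‖deriv zbZ v‖ ≤ 4 * (3 / 2 + ‖v‖) ^ 2 := by
  have h := Complex.norm_deriv_le_of_forall_mem_sphere_norm_le (c := v) (R := 1 / 2)
    (C := 2 * (3 / 2 + ‖v‖) ^ 2) (f := zbZ) (by norm_num) zbZ_diff.diffContOnCl (by
      intro w hw
      have hw' : ‖w - v‖ = 1 / 2 := by simpa using hw
      have h1 : -(1 / 2) ≤ w.re := by
        have := Complex.abs_re_le_norm (w - v)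
        rw [hw', Complex.sub_re, abs_le] at this
        linarith [this.1]
      have h2 : ‖w‖ ≤ ‖v‖ + 1 / 2 := by
        calc ‖w‖ = ‖v + (w - v)‖ := by congr 1; ring
          _ ≤ ‖v‖ + ‖w - v‖ := norm_add_le _ _
          _ = _ := by rw [hw']
      refine (zbZ_norm_le h1).trans ?_
      have h0 := norm_nonneg w
      have : 1 + ‖w‖ ≤ 3 / 2 + ‖v‖ := by linarith
      gcongr)
  refine h.trans (le_of_eq ?_)
  ring

theorem zb_lower_far {z : ℂ} (hz : 0 < z.re) (hz3 : z.re ≤ 3) (ht : 1 ≤ |z.im|) :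
    (1 / 5) * (1 / 810) ^ 3 / 2 ≤ ‖zbZ z‖ * (1 + ‖z‖) ^ 6 := by
  set T : ℝ := 1 + ‖z‖ with hT
  have hT1 : 1 ≤ T := by have := norm_nonneg z; linarith
  have hT0 : 0 < T := by linarith
  set a : ℝ := 1 / 810 with ha
  set x₀ : ℝ := a ^ 4 / T ^ 8 with hx₀
  have hx₀0 : 0 < x₀ := by positivity
  have hx₀1 : x₀ ≤ 1 := by
    rw [hx₀, div_le_one (by positivity)]
    have h1 : (1 : ℝ) ≤ T ^ 8 := one_le_pow₀ hT1
    have h2 : a ^ 4 ≤ 1 := by rw [ha]; norm_num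
    linarith
  have hz' : z = (z.re : ℂ) + z.im * I := (Complex.re_add_im z).symm
  -- the lower bound for `σ ≥ x₀`
  have key : ∀ x : ℝ, x₀ ≤ x → x ≤ 3 → (1 / 5) * a ^ 3 / T ^ 6 ≤ ‖zbZ (x + z.im * I)‖ := by
    intro x hx hx3
    have h1 := zb_pow4 (x := x) (t := z.im) (by linarith) hx3 ht
    have h2 : ((1 / 5) * a ^ 3 / T ^ 6) ^ 4 ≤ ‖zbZ (x + z.im * I)‖ ^ 4 := by
      refine le_trans ?_ h1
      have h3 : x₀ ^ 3 ≤ x ^ 3 := by gcongr
      calc ((1 / 5) * a ^ 3 / T ^ 6) ^ 4 = (1 / 5 : ℝ) ^ 4 * x₀ ^ 3 := by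
            rw [hx₀]; field_simp
        _ ≤ _ := by gcongr
    exact le_of_pow_le_pow_left₀ (by norm_num) (norm_nonneg _) h2
  have hfin : (1 / 5) * a ^ 3 / T ^ 6 / 2 ≤ ‖zbZ z‖ := by
    by_cases hσ : x₀ ≤ z.re
    · have h1 := key z.re hσ hz3
      rw [← hz'] at h1
      have : 0 ≤ (1 / 5) * a ^ 3 / T ^ 6 := by positivity
      linarith
    · have hσ' : z.re ≤ x₀ := (not_le.1 hσ).le
      have h1 := key x₀ le_rfl (by linarith)
      set w : ℂ := (x₀ : ℂ) + z.im * I with hw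
      have hwz : ‖w - z‖ ≤ x₀ := by
        have : w - z = ((x₀ - z.re : ℝ) : ℂ) := by
          rw [hw]
          apply Complex.ext <;> simp
        rw [this, Complex.norm_real, Real.norm_of_nonneg (by linarith)]
        linarith
      have h2 : ‖zbZ w - zbZ z‖ ≤ (81 * T ^ 2) * ‖w - z‖ := by
        refine Convex.norm_image_sub_le_of_norm_deriv_le (s := segment ℝ z w)
          (fun x _ => zbZ_diff x) ?_ (convex_segment z w) (left_mem_segment ℝ z w)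
          (right_mem_segment ℝ z w)
        intro v hv
        have hvre : 0 ≤ v.re := by
          have hc : Convex ℝ {y : ℂ | 0 < y.re} := convex_halfSpace_re_gt 0
          have : v ∈ {y : ℂ | 0 < y.re} := hc.segment_subset (x := z) (y := w) hz (by
            rw [hw]; simpa using hx₀0) hv
          exact le_of_lt this
        have hvn : ‖v‖ ≤ ‖z‖ + 1 := by
          have h3 : ‖v - z‖ ≤ ‖w - z‖ := by
            have := norm_sub_le_of_mem_segment (y := v) hv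
            simpa using this
          calc ‖v‖ = ‖z + (v - z)‖ := by congr 1; ring
            _ ≤ ‖z‖ + ‖v - z‖ := norm_add_le _ _
            _ ≤ ‖z‖ + 1 := by linarith
        refine (zb_deriv_le hvre).trans ?_
        have h0 := norm_nonneg v
        have h4 : 3 / 2 + ‖v‖ ≤ 9 / 2 * T := by
          have := norm_nonneg z
          linarith
        calc 4 * (3 / 2 + ‖v‖) ^ 2 ≤ 4 * (9 / 2 * T) ^ 2 := by gcongr
          _ = 81 * T ^ 2 := by ring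
      have h5 : ‖zbZ w‖ ≤ ‖zbZ z‖ + ‖zbZ w - zbZ z‖ := by
        calc ‖zbZ w‖ = ‖zbZ z + (zbZ w - zbZ z)‖ := by congr 1; ring
          _ ≤ _ := norm_add_le _ _
      have h6 : (81 * T ^ 2) * ‖w - z‖ ≤ (1 / 5) * a ^ 3 / T ^ 6 / 2 := by
        calc (81 * T ^ 2) * ‖w - z‖ ≤ (81 * T ^ 2) * x₀ := by gcongr
          _ = (1 / 5) * a ^ 3 / T ^ 6 / 2 := by
            rw [hx₀, ha]; field_simp; norm_num
      linarith
  have h9 := mul_le_mul_of_nonneg_right hfin (by positivity : 0 ≤ T ^ 6)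
  refine le_trans (le_of_eq ?_) h9
  field_simp

theorem zb_lower_near : ∃ c : ℝ, 0 < c ∧ ∀ z : ℂ, 0 ≤ z.re → z.re ≤ 3 → |z.im| ≤ 1 →
    c ≤ ‖zbZ z‖ := by
  have hK : IsCompact (Set.Icc (0 : ℝ) 3 ×ℂ Set.Icc (-1 : ℝ) 1) := isCompact_Icc.reProdIm isCompact_Icc
  have hne : (Set.Icc (0 : ℝ) 3 ×ℂ Set.Icc (-1 : ℝ) 1).Nonempty := ⟨0, by
    rw [Complex.mem_reProdIm]; simp⟩
  obtain ⟨z₀, hz₀, hmin⟩ := hK.exists_isMinOn hne (zbZ_diff.continuous.norm.continuousOn)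
  rw [Complex.mem_reProdIm] at hz₀
  refine ⟨‖zbZ z₀‖, norm_pos_iff.2 (zbZ_ne_zero hz₀.1.1), fun z h1 h2 h3 => ?_⟩
  exact hmin (show z ∈ _ by rw [Complex.mem_reProdIm]; exact ⟨⟨h1, h2⟩, abs_le.1 h3⟩)

end ZetaBdAux

theorem zeta_le (z : ℂ) (hz : 0 < z.re) : ‖riemannZeta (1 + z)‖ ≤ 1 + 1 / z.re := by
  have hs : 1 < (1 + z).re := by simpa using hz
  have h1 := zb_LSeries_le (f := 1) (fun n => by simp) hs
  rw [LSeries_one_eq_riemannZeta hs] at h1
  refine h1.trans ?_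
  have := zb_real_le hz
  simpa using this

theorem zeta_inv_le (z : ℂ) (hz : 0 < z.re) : ‖riemannZeta (1 + z)‖⁻¹ ≤ 1 + 1 / z.re := by
  have hs : 1 < (1 + z).re := by simpa using hz
  have h0 := LSeries_one_mul_Lseries_moebius hs
  rw [LSeries_one_eq_riemannZeta hs] at h0
  have h1 := zb_LSeries_le (f := fun n => ((ArithmeticFunction.moebius n : ℤ) : ℂ)) (fun n => by
    rw [Complex.norm_intCast]
    exact_mod_cast ArithmeticFunction.abs_moebius_le_one) hs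
  have h2 := zb_real_le hz
  rw [← norm_inv, inv_eq_of_mul_eq_one_right h0]
  refine h1.trans ?_
  simpa using h2

theorem zeta_upper : ∃ C : ℝ, 0 < C ∧ ∀ z : ℂ, 0 ≤ z.re → z ≠ 0 →
    ‖riemannZeta (1 + z)‖ ≤ C * (1 / ‖z‖ + 1 + ‖z‖) := by
  refine ⟨2, two_pos, fun z hz h0 => ?_⟩
  rw [zeta_eq_zbZ h0, norm_mul, norm_inv]
  have h1 := zbZ_norm_le' hz
  have h2 : 0 < ‖z‖ := norm_pos_iff.2 h0
  calc ‖z‖⁻¹ * ‖zbZ z‖ ≤ ‖z‖⁻¹ * (1 + ‖z‖) ^ 2 := by gcongr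
    _ = 1 / ‖z‖ + 2 + ‖z‖ := by field_simp; ring
    _ ≤ 2 * (1 / ‖z‖ + 1 + ‖z‖) := by
        have : 0 < 1 / ‖z‖ := by positivity
        linarith

theorem zeta_lower : ∃ (C : ℝ) (K : ℕ), 0 < C ∧ ∀ z : ℂ, 0 < z.re → z.re ≤ 3 →
    ‖riemannZeta (1 + z)‖⁻¹ ≤ C * ‖z‖ * (1 + ‖z‖) ^ K := by
  obtain ⟨c, hc, hnear⟩ := zb_lower_near
  set c' : ℝ := (1 / 5) * (1 / 810) ^ 3 / 2 with hc'
  have hc'0 : 0 < c' := by rw [hc']; norm_num
  refine ⟨1 / c + 1 / c', 6, by positivity, fun z hz hz3 => ?_⟩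
  have hz0 : z ≠ 0 := by
    rintro rfl
    simp at hz
  have hT : 1 ≤ (1 + ‖z‖) ^ 6 := one_le_pow₀ (by have := norm_nonneg z; linarith)
  have hT0 : 0 < (1 + ‖z‖) ^ 6 := by linarith
  have hZ : 0 < ‖zbZ z‖ := norm_pos_iff.2 (zbZ_ne_zero hz.le)
  have h1 : ‖zbZ z‖⁻¹ ≤ (1 / c + 1 / c') * (1 + ‖z‖) ^ 6 := by
    rw [add_mul]
    rcases le_total |z.im| 1 with h | h
    · have h2 := hnear z hz.le hz3 h
      have h3 : ‖zbZ z‖⁻¹ ≤ 1 / c := by rw [one_div]; exact inv_anti₀ hc h2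
      have h4 : 1 / c ≤ 1 / c * (1 + ‖z‖) ^ 6 := le_mul_of_one_le_right (by positivity) hT
      have h5 : 0 ≤ 1 / c' * (1 + ‖z‖) ^ 6 := by positivity
      linarith
    · have h2 := zb_lower_far hz hz3 h
      rw [← hc'] at h2
      have h3 : ‖zbZ z‖⁻¹ ≤ 1 / c' * (1 + ‖z‖) ^ 6 := by
        rw [inv_le_iff_one_le_mul₀ hZ, one_div, mul_assoc, mul_comm c'⁻¹, ← div_eq_mul_inv,
          one_le_div hc'0]
        linarith [mul_comm ‖zbZ z‖ ((1 + ‖z‖) ^ 6)]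
      have h5 : 0 ≤ 1 / c * (1 + ‖z‖) ^ 6 := by positivity
      linarith
  rw [zeta_eq_zbZ hz0, norm_mul, norm_inv, mul_inv, inv_inv]
  calc ‖z‖ * ‖zbZ z‖⁻¹ ≤ ‖z‖ * ((1 / c + 1 / c') * (1 + ‖z‖) ^ 6) := by gcongr
    _ = _ := by ring

end Pool.Hhelper76.SC
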