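import Pool.Agent.Hhelper76.CL.LowerErr
import Pool.Agent.Hhelper76.CL.Lambda

/-!
# Selberg's theorem for class group L-functions (SC): definitions

`c > 0` is a fixed small shift, `X` a large integer, the discriminants run over `X < D ≤ 2X`,
`ξ = X^del` is the length of the mollifier. A positive definite form `h m² + b m n + c' n²` of
discriminant `-D` enters through `θ = b/(2h)` and `y = √D/(2h)`.
-/

open Complex MeasureTheory Pool.Hhelper76.CL

namespace Pool.Hhelper76.SC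

/-- The small exponent. -/
noncomputable def del : ℝ := 1 / 1000000

/-- Coefficients of `(2 - z - z⁻¹)³ (2 cosh(c/2) - z - z⁻¹)`; index `i` is the power `i - 4`. -/
noncomputable def gam (c : ℝ) : Fin 9 → ℝ :=
  ![1, -(2 * Real.cosh (c / 2) + 6), 12 * Real.cosh (c / 2) + 16,
    -(30 * Real.cosh (c / 2) + 26), 40 * Real.cosh (c / 2) + 30,
    -(30 * Real.cosh (c / 2) + 26), 12 * Real.cosh (c / 2) + 16,
    -(2 * Real.cosh (c / 2) + 6), 1]

/-- The difference operator `∑ γ_j f(u + jc)`. -/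
noncomputable def opL (c : ℝ) (f : ℝ → ℝ) (u : ℝ) : ℝ :=
  ∑ i : Fin 9, gam c i * f (u + (((i : ℕ) : ℝ) - 4) * c)

/-- The symbol of `opL`: a non-negative weight with a zero of order 6 at `t = 0`. -/
noncomputable def wt (c t : ℝ) : ℝ :=
  (2 - 2 * Real.cos (c * t)) ^ 3 * (2 * Real.cosh (c / 2) - 2 * Real.cos (c * t))

/-- `ψ`: the difference operator applied to `v ↦ e^(v/2) exp(-π e^v)`. -/
noncomputable def psi0 (c w : ℝ) : ℝ :=
  opL c (fun v => Real.exp (v / 2) * Real.exp (-Real.pi * Real.exp v)) w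

/-- `Ψ(w) = ∑_{r ≥ 1} r⁻¹ ψ(w + 2 log r)`. -/
noncomputable def Psi (c w : ℝ) : ℝ :=
  opL c (fun v => Real.exp (v / 2) * Gs (Real.exp v)) w

/-- Fourier transform of `Ψ`. -/
noncomputable def Psih (c t : ℝ) : ℂ := ∫ w : ℝ, (Psi c w : ℂ) * cexp (I * t * w)

/-- Autocorrelation of `Ψ`. -/
noncomputable def Ups (c w : ℝ) : ℝ := ∫ v : ℝ, Psi c (w + v) * Psi c v

/-- The theta function `√y S(θ, y, e^u) / 2` (real). -/
noncomputable def Th (θ y u : ℝ) : ℝ := (1 / 2) * Real.sqrt y * (S θ y (cexp u)).re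

/-- The difference operator applied to `Th`. -/
noncomputable def GG (c θ y u : ℝ) : ℝ := opL c (Th θ y) u

/-- Constant term of `GG` in `θ`. -/
noncomputable def C0 (c y u : ℝ) : ℝ :=
  Real.sqrt y * (Psi c (-u - Real.log y) + Psi c (u - Real.log y))

/-- `N`-th Fourier coefficient of `Th` (coefficient of `cos(2πNθ)`), `N ≥ 1`. -/
noncomputable def cN (N : ℕ) (y v : ℝ) : ℝ :=
  2 * Real.sqrt y * ∑ d ∈ N.divisors, Real.exp (-Real.pi * y *
    (Real.exp v * (d : ℝ) ^ 2 + Real.exp (-v) * ((N : ℝ) / d) ^ 2))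

/-- `N`-th Fourier coefficient of `GG`, `N ≥ 1`. -/
noncomputable def CN (c : ℝ) (N : ℕ) (y u : ℝ) : ℝ := opL c (cN N y) u

/-- Coefficients of `(1 - x)^(1/2) = ∑ al(e) x^e`. -/
noncomputable def al (e : ℕ) : ℝ := (Nat.centralBinom e : ℝ) / (4 ^ e * (1 - 2 * (e : ℝ)))

/-- A smooth cutoff: `1` on `[-1/2, 1/2]`, `0` outside `(-1, 1)`. -/
noncomputable def Pbump : ContDiffBump (0 : ℝ) := ⟨1 / 2, 1, by norm_num, by norm_num⟩

/-- Length of the mollifier. -/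
noncomputable def xi (X : ℕ) : ℝ := (X : ℝ) ^ del

/-- The cutoff `P(log n / log ξ)`. -/
noncomputable def Pm (X n : ℕ) : ℝ := Pbump (Real.log n / Real.log (xi X))

/-- Sum of the exponents of a tuple. -/
def sz {k : ℕ} (v : Fin k → ℕ) : ℕ := ∑ i, v i

/-- Local coefficient at a split prime: the sum of `∏ al(a_i) al(v_i - a_i)` over all
`a ≤ v` (exponents at `𝔭`; `v - a` are the exponents at the conjugate prime) such that
`max(|a| - s, |v - a|, 0) = e`. Here `s` is the exponent of `p` in `h`. -/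
noncomputable def locS {k : ℕ} (v : Fin k → ℕ) (e s : ℕ) : ℝ :=
  ∑ a ∈ Fintype.piFinset (fun i => Finset.range (v i + 1)),
    if max (sz a - s) (sz (fun i => v i - a i)) = e then ∏ i, al (a i) * al (v i - a i) else 0

/-- Local coefficient at an inert prime. -/
noncomputable def locI {k : ℕ} (v : Fin k → ℕ) (e : ℕ) : ℝ :=
  open Classical in if (∀ i, Even (v i)) ∧ sz v = 2 * e then ∏ i, al (v i / 2) else 0

/-- `p` splits (for `p ∤ 2D`). -/
def Spl (D h p : ℕ) : Prop := p ∣ h ∨ jacobiSym (-(D : ℤ)) p = 1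

/-- `∑ ∏ α(𝔧_i)` over the tuples of ideals `𝔧_i` of norm `m_i` such that `j` is the least positive
integer for which `∏ 𝔧_i` divides `j 𝔥`, where `𝔥` is a primitive ideal of norm `h` of the
quadratic order of discriminant `-D` (zero if some `m_i` is not coprime to `2D`). -/
noncomputable def acoef {k : ℕ} (m : Fin k → ℕ) (j h D : ℕ) : ℝ :=
  open Classical in
  if Nat.Coprime (∏ i, m i) (2 * D) ∧ j ∣ ∏ i, m i then
    ∏ p ∈ (∏ i, m i).primeFactors,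
      if Spl D h p then
        locS (fun i => (m i).factorization p) (j.factorization p) (h.factorization p)
      else locI (fun i => (m i).factorization p) (j.factorization p)
  else 0

/-- The roots `b mod 2h` of `b² ≡ -D mod 4h`. -/
noncomputable def rts (h D : ℕ) : Finset ℤ :=
  (Finset.Ico (-(h : ℤ)) h).filter fun b => (4 * (h : ℤ)) ∣ (D : ℤ) + b ^ 2

/-- The box of tuples `1 ≤ m_i ≤ ξ`. -/
noncomputable def box (k X : ℕ) : Finset (Fin k → ℕ) :=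
  Fintype.piFinset fun _ => Finset.Icc 1 ⌊xi X⌋₊

/-- `y = √D / (2h)`. -/
noncomputable def yy (D h : ℕ) : ℝ := Real.sqrt D / (2 * h)

/-- The shift `A = u + log(m₁/m₂) + 2 log j - log(m₁m₂m₃m₄)`. -/
noncomputable def shA (u : ℝ) (m : Fin 4 → ℕ) (j : ℕ) : ℝ :=
  u + Real.log (m 0) - Real.log (m 1) + 2 * Real.log j -
    (Real.log (m 0) + Real.log (m 1) + Real.log (m 2) + Real.log (m 3))

/-- The shift `u₂ = u + log(m₃/m₄)`. -/
noncomputable def shB (u : ℝ) (m : Fin 4 → ℕ) : ℝ := u + Real.log (m 2) - Real.log (m 3)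

/-- The unfolded mean square over the class group of discriminant `-D`. -/
noncomputable def Tst (c : ℝ) (X D : ℕ) (u : ℝ) : ℝ :=
  ∑ m ∈ box 4 X, (∏ i, Pm X (m i)) * ∑ j ∈ (∏ i, m i).divisors,
    ∑' h : ℕ, ∑ b ∈ rts h D, acoef m j h D / j *
      (Real.sqrt (yy D h) * Psi c (shA u m j - Real.log (yy D h))) *
        GG c ((b : ℝ) / (2 * h)) (yy D h) (shB u m)

/-- The contribution of a primitive ideal of norm `h` to the class function. -/
noncomputable def FF (c : ℝ) (X h D : ℕ) (u : ℝ) : ℝ :=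
  Real.sqrt (yy D h) * ∑ m ∈ box 2 X, (∏ i, Pm X (m i)) * ∑ j ∈ (∏ i, m i).divisors,
    acoef m j h D / j *
      Psi c (u + 2 * Real.log j - 2 * Real.log (m 1) - Real.log (yy D h))

/-- `-D` is a fundamental discriminant: `D ≡ 3 mod 4` or `D ≡ 4, 8 mod 16`, and no odd prime
square divides `D`. -/
def IsFd (D : ℕ) : Prop :=
  (D % 16 = 3 ∨ D % 16 = 4 ∨ D % 16 = 7 ∨ D % 16 = 8 ∨ D % 16 = 11 ∨ D % 16 = 15) ∧
    ∀ p : ℕ, p.Prime → p ≠ 2 → ¬ p ^ 2 ∣ D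

/-- Range of the norms of the ideals which matter for large `u`. -/
noncomputable def H0 (X : ℕ) : ℕ := ⌊(X : ℝ) ^ (1 / 2 - 17 * del)⌋₊

/-! ### Counting -/

/-- Bounded by `V` and `V/X`-Lipschitz on `[X, 2X]`. -/
def Tame (X : ℕ) (V : ℝ) (f : ℝ → ℝ) : Prop :=
  (∀ x ∈ Set.Icc (X : ℝ) (2 * X), |f x| ≤ V) ∧
    ∀ x ∈ Set.Icc (X : ℝ) (2 * X), ∀ y ∈ Set.Icc (X : ℝ) (2 * X), |f x - f y| ≤ V / X * |x - y|

/-- Mean over `(b, r) mod q` of `ω(4hr - b²)` (written with a non-negative argument). -/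
noncomputable def mean2 (q h : ℕ) (ω : ℕ → ℝ) : ℝ :=
  (1 / (q : ℝ) ^ 2) * ∑ b ∈ Finset.range q, ∑ r ∈ Finset.range q, ω (4 * h * r + (q - 1) * b ^ 2)

/-- Mean over `(h, b, r) mod q` of `ω(h, 4hr - b²)`. -/
noncomputable def mean (q : ℕ) (ω : ℕ → ℕ → ℝ) : ℝ :=
  (1 / (q : ℝ)) * ∑ h ∈ Finset.Icc 1 q, mean2 q h (ω h)

/-- `min(h/√X, √X/h)`. -/
noncomputable def rho (X h : ℕ) : ℝ := min ((h : ℝ) / Real.sqrt X) (Real.sqrt X / h)

/-- `y = √x / (2h)` for real `x`. -/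
noncomputable def yr (x : ℝ) (h : ℕ) : ℝ := Real.sqrt x / (2 * h)

/-- Constant term in `θ` of the kernel. -/
noncomputable def ker0 (c A u₂ : ℝ) (h : ℕ) (x : ℝ) : ℝ :=
  (Real.sqrt (yr x h) * Psi c (A - Real.log (yr x h))) * C0 c (yr x h) u₂

/-- `N`-th coefficient in `θ` of the kernel. -/
noncomputable def kerN (c A u₂ : ℝ) (h N : ℕ) (x : ℝ) : ℝ :=
  (Real.sqrt (yr x h) * Psi c (A - Real.log (yr x h))) * CN c N (yr x h) u₂

/-- `(2^(3/2) - 1)/3`. -/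
noncomputable def cX : ℝ := ((2 : ℝ) ^ (3 / 2 : ℝ) - 1) / 3

/-! ### Local densities -/

/-- Density of `p² ∣ 4hr - b²`. -/
noncomputable def dlt (p : ℕ) : ℝ := 1 / (p : ℝ) ^ 2 + 1 / (p : ℝ) ^ 3 - 1 / (p : ℝ) ^ 4

/-- Mean over `h` and `D` of the local coefficient. -/
noncomputable def dloc {k : ℕ} (p : ℕ) (v : Fin k → ℕ) (e : ℕ) : ℝ :=
  (1 - 1 / (p : ℝ)) ^ 2 / 2 * (locS v e 0 + locI v e) +
    ∑ s ∈ Finset.Ico 1 (sz v), (1 - 1 / (p : ℝ)) ^ 2 / (p : ℝ) ^ s * locS v e s +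
    (1 - 1 / (p : ℝ)) / (p : ℝ) ^ (sz v) * locS v e (sz v)

/-- `D mod 16` is admissible. -/
noncomputable def eta2 (D : ℕ) : ℝ :=
  if D % 16 = 3 ∨ D % 16 = 4 ∨ D % 16 = 7 ∨ D % 16 = 8 ∨ D % 16 = 11 ∨ D % 16 = 15 then 1 else 0

/-- The periodic weight. -/
noncomputable def Om (l : ℕ) (m : Fin 4 → ℕ) (j h D : ℕ) : ℝ :=
  eta2 D * (if l ^ 2 ∣ D then 1 else 0) * acoef m j h D

/-- Product of the local means, with the square-free sieve completed. -/
noncomputable def Dm (m : Fin 4 → ℕ) (j : ℕ) : ℝ :=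
  open Classical in
  if Odd (∏ i, m i) ∧ j ∣ ∏ i, m i then
    ∏ p ∈ (∏ i, m i).primeFactors,
      dloc p (fun i => (m i).factorization p) (j.factorization p) / (1 - dlt p)
  else 0

/-- The bulk sum at frequency `t`. -/
noncomputable def Bs (X : ℕ) (a b : Fin 4) (t : ℝ) : ℂ :=
  ∑ m ∈ box 4 X, ((∏ i, Pm X (m i) : ℝ) : ℂ) * (((m a : ℂ) * (m b : ℂ)) ^ (2 * t * I : ℂ)) *
    ∑ j ∈ (∏ i, m i).divisors, (j : ℂ) ^ (-(1 + 2 * t * I : ℂ)) * (Dm m j : ℂ)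

/-- The Dirichlet polynomial attached to one primitive ideal of norm `h`. -/
noncomputable def Qs (X h D : ℕ) (t : ℝ) : ℂ :=
  ∑ m ∈ box 2 X, ((∏ i, Pm X (m i) : ℝ) : ℂ) * ((m 1 : ℂ) ^ (2 * t * I : ℂ)) *
    ∑ j ∈ (∏ i, m i).divisors, (j : ℂ) ^ (-(1 + 2 * t * I : ℂ)) * (acoef m j h D : ℂ)

/-- Local mean over `D` of a product of two local coefficients (`s` is the exponent of `p` in
`h`). -/
noncomputable def tloc (p s : ℕ) (v v' : Fin 2 → ℕ) (e e' : ℕ) : ℝ :=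
  if s = 0 then (1 - 1 / (p : ℝ)) / 2 * (locS v e 0 * locS v' e' 0 + locI v e * locI v' e')
  else (1 - 1 / (p : ℝ)) * (locS v e s * locS v' e' s)

/-- Product of the local means. -/
noncomputable def Tm (m m' : Fin 2 → ℕ) (j j' h : ℕ) : ℝ :=
  open Classical in
  if Odd ((∏ i, m i) * ∏ i, m' i) ∧ j ∣ ∏ i, m i ∧ j' ∣ ∏ i, m' i then
    ∏ p ∈ ((∏ i, m i) * ∏ i, m' i).primeFactors,
      tloc p (h.factorization p) (fun i => (m i).factorization p)
        (fun i => (m' i).factorization p) (j.factorization p) (j'.factorization p)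
  else 0

/-- Mean over `D` and `b` of `‖Qs X h D t‖²`, expanded. -/
noncomputable def Mh (X h : ℕ) (t : ℝ) : ℂ :=
  ∑ m ∈ box 2 X, ∑ m' ∈ box 2 X, (((∏ i, Pm X (m i)) * ∏ i, Pm X (m' i) : ℝ) : ℂ) *
    ((m 1 : ℂ) ^ (2 * t * I : ℂ)) * ((m' 1 : ℂ) ^ (-(2 * t * I : ℂ))) *
    ∑ j ∈ (∏ i, m i).divisors, ∑ j' ∈ (∏ i, m' i).divisors,
      (j : ℂ) ^ (-(1 + 2 * t * I : ℂ)) * (j' : ℂ) ^ (-(1 - 2 * t * I : ℂ)) * (Tm m m' j j' h : ℂ)

/-! ### Windows -/

/-- `(sin x / x)⁴`. -/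
noncomputable def kap (x : ℝ) : ℝ := (Real.sinc x) ^ 4

/-- `(1 + 2^(-1/2))² ∏_{p ∣ D} (1 + p^(-1/2))`. -/
noncomputable def CS (D : ℕ) : ℝ :=
  (1 + 1 / Real.sqrt 2) ^ 2 * ∏ p ∈ D.primeFactors, (1 + 1 / Real.sqrt p)

end Pool.Hhelper76.SC
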