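import Pool.Agent.Hhelper76.SC.QIdeal
import Pool.Agent.Hhelper76.CL.DiscCount

/-!
# SC module N10 (FdDisc): `IsFd D` iff `-D` is the discriminant of an imaginary quadratic field

Uses N1 (`exists_QD`), `CL.exists_field`.

PAPER PROOF. (`→` direction of `isFd_of_disc`) Let `ω² = tω - q`, `D = 4q - t²`, every integer of `K` is
`m + nω`. `t` odd: `D ≡ 3 mod 4`. `t` even, `D = 4d₀`, `(ω - t/2)² = -d₀`: `d₀ ≡ 0 mod 4` is impossible
(`(ω - t/2)/2` would be integral: its square is the integer `-d₀/4`), `d₀ ≡ 3 mod 4` is impossible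
(`(1 + ω - t/2)/2` has trace `1` and norm `(1 + d₀)/4`). So `D mod 16 ∈ {4, 8}` in that case, and
`{3, 7, 11, 15}` if `t` odd. `p` odd prime with `p² ∣ D`: `(2ω - t)² = -D`, `((2ω - t)/p)² = -D/p²` is an integer,
so `(2ω - t)/p ∈ 𝓞 K`, contradiction with `p ∤ 2`.
(`exists_field_of_isFd`) `CL.exists_field D : ∃ D' n, n² D' = 4D, -D'` the discriminant of a field `K`. By the
first part `IsFd D'`. `D ≡ 3 mod 4` square-free: `n² ∣ 4D`, so `n ∈ {1, 2}`; `n = 1`: `D' = 4D ≡ 12 mod 16`,
not admissible; so `D' = D`. `D = 4d₀`, `d₀ ≡ 1, 2 mod 4` square-free: `n² D' = 16 d₀`, `n ∈ {1, 2, 4}`; `n = 1`: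
`16 ∣ D'`; `n = 4`: `D' = d₀ ≡ 1, 2 mod 4`: not admissible. So `D' = D`. (`D ≥ 1`.)
-/

open scoped NumberField nonZeroDivisors
open Pool.Hhelper85.CZ

namespace Pool.Hhelper76.SC

/-- An element of `K` with an integral monic quadratic equation is an integer; if `a` times it is
`u + v ω` then `a ∣ v`. -/
theorem dvd_of_integral {K : Type} [Field K] [NumberField K] {ω : 𝓞 K}
    (hspan : ∀ x : 𝓞 K, ∃ m n : ℤ, x = m + n * ω)
    (hind : ∀ m n : ℤ, (m : 𝓞 K) + n * ω = 0 → m = 0 ∧ n = 0) {a u v b c : ℤ} (ha : a ≠ 0)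
    (h : ((u : 𝓞 K) + v * ω) ^ 2 + (a * b : ℤ) * ((u : 𝓞 K) + v * ω) + (a ^ 2 * c : ℤ) = 0) :
    a ∣ v := by
  have haK : (a : K) ≠ 0 := Int.cast_ne_zero.2 ha
  set x : K := algebraMap (𝓞 K) K ((u : 𝓞 K) + v * ω) with hx
  have h1 : x ^ 2 + (a * b : ℤ) * x + (a ^ 2 * c : ℤ) = 0 := by
    have := congrArg (algebraMap (𝓞 K) K) h
    simpa [hx] using this
  have hint : IsIntegral ℤ (x / a) := by
    refine ⟨Polynomial.X ^ 2 + Polynomial.C b * Polynomial.X + Polynomial.C c, ?_, ?_⟩
    · have : Polynomial.X ^ 2 + Polynomial.C b * Polynomial.X + Polynomial.C c =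
          Polynomial.X ^ (1 + 1) + (Polynomial.C b * Polynomial.X + Polynomial.C c) := by ring
      rw [this]
      exact Polynomial.monic_X_pow_add (by compute_degree!)
    · simp only [Polynomial.eval₂_add, Polynomial.eval₂_mul, Polynomial.eval₂_pow,
        Polynomial.eval₂_X, Polynomial.eval₂_C]
      simp only [eq_intCast]
      field_simp
      push_cast at h1
      linear_combination h1
  obtain ⟨z, hz⟩ : ∃ z : 𝓞 K, algebraMap (𝓞 K) K z = x / a := ⟨⟨x / a, hint⟩, rfl⟩
  obtain ⟨m, n, rfl⟩ := hspan z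
  have h3 : ((a * m - u : ℤ) : 𝓞 K) + ((a * n - v : ℤ) : 𝓞 K) * ω = 0 := by
    apply NumberField.RingOfIntegers.coe_injective
    have h4 : (a : K) * algebraMap (𝓞 K) K ((m : 𝓞 K) + n * ω) = x := by
      rw [hz]
      field_simp
    rw [hx] at h4
    simp only [map_add, map_mul, map_intCast] at h4
    simp only [map_add, map_mul, map_intCast, map_zero]
    push_cast
    linear_combination h4
  have h4 := (hind _ _ h3).2
  exact ⟨n, by linarith⟩

theorem isFd_gen (K : Type) [Field K] [NumberField K] (D : ℕ)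
    (h2 : Module.finrank ℚ K = 2) (hD : NumberField.discr K = -(D : ℤ)) :
    IsFd D := by
  obtain ⟨ω, t, q, hmul, hspan, hind, -, hdisc⟩ := exists_omega' K h2
  have hD' : (D : ℤ) = 4 * q - t ^ 2 := by rw [hD] at hdisc; linarith
  constructor
  · rcases Int.even_or_odd' t with ⟨s, hs | hs⟩
    · -- `t = 2s`
      have hD4 : (D : ℤ) = 4 * (q - s ^ 2) := by rw [hD', hs]; ring
      have hsq : ((-s : ℤ) : 𝓞 K) + ((1 : ℤ) : 𝓞 K) * ω = ω - s := by push_cast; ring
      have h0 : (q - s ^ 2) % 4 ≠ 0 := by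
        intro h
        obtain ⟨k, hk⟩ := Int.dvd_of_emod_eq_zero h
        have h3 := dvd_of_integral hspan hind (a := 2) (u := -s) (v := 1) (b := 0) (c := k)
          (by norm_num) (by
            have hk' := congrArg (Int.cast (R := 𝓞 K)) hk
            rw [hs] at hmul
            push_cast at hk' hmul ⊢
            linear_combination hmul - hk')
        omega
      have h1 : (q - s ^ 2) % 4 ≠ 3 := by
        intro h
        obtain ⟨k, hk⟩ : ∃ k, q - s ^ 2 = 4 * k - 1 := ⟨(q - s ^ 2 + 1) / 4, by omega⟩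
        have h3 := dvd_of_integral hspan hind (a := 2) (u := 1 - s) (v := 1) (b := -1) (c := k)
          (by norm_num) (by
            have hk' := congrArg (Int.cast (R := 𝓞 K)) hk
            rw [hs] at hmul
            push_cast at hk' hmul ⊢
            linear_combination hmul - hk')
        omega
      omega
    · have hD4 : (D : ℤ) = 4 * (q - s ^ 2 - s) - 1 := by rw [hD', hs]; ring
      omega
  · intro p hp hp2 hpD
    obtain ⟨k, hk⟩ := hpD
    have hkz : 4 * q - t ^ 2 = (p : ℤ) ^ 2 * k := by rw [← hD', hk]; push_cast; ring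
    have h3 := dvd_of_integral hspan hind (a := p) (u := -t) (v := 2) (b := 0) (c := k)
      (by exact_mod_cast hp.ne_zero) (by
        have hk' := congrArg (Int.cast (R := 𝓞 K)) hkz
        push_cast at hk' hmul ⊢
        linear_combination 4 * hmul - hk')
    have h4 : p ∣ 2 := by exact_mod_cast h3
    have h5 := (Nat.prime_dvd_prime_iff_eq hp Nat.prime_two).1 h4
    exact hp2 h5

theorem isFd_of_disc (K : Type) [Field K] [NumberField K] (D : ℕ)
    (h2 : Module.finrank ℚ K = 2) (hD4 : 4 < D) (hD : NumberField.discr K = -(D : ℤ)) :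
    IsFd D := by
  have := hD4
  exact isFd_gen K D h2 hD

theorem exists_field_of_isFd (D : ℕ) (hD4 : 4 < D) (hD : IsFd D) :
    ∃ (K : Type) (_ : Field K) (_ : NumberField K), Module.finrank ℚ K = 2 ∧
      NumberField.discr K = -(D : ℤ) := by
  obtain ⟨D', n, hn, hnD, K, iF, iN, h2, hdisc⟩ := CL.exists_field D (by omega)
  have hD' := isFd_gen K D' h2 hdisc
  have hpow : ∃ k, n = 2 ^ k := by
    rcases Nat.eq_two_pow_or_exists_odd_prime_and_dvd n with h | ⟨p, hp, hpn, hodd⟩
    · exact h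
    · exfalso
      have hp2 : p ≠ 2 := by
        rintro rfl
        exact absurd hodd (by decide)
      have h3 : p ^ 2 ∣ 4 * D := by
        rw [← hnD]
        exact Dvd.dvd.mul_right (pow_dvd_pow_of_dvd hpn 2) _
      have h4 : Nat.Coprime (p ^ 2) 4 := by
        have h5 : Nat.Coprime p 2 := (Nat.coprime_primes hp Nat.prime_two).2 hp2
        exact Nat.Coprime.pow 2 2 h5
      exact hD.2 p hp hp2 (h4.dvd_of_dvd_mul_left h3)
  obtain ⟨k, rfl⟩ := hpow
  have hm := hD.1
  have hm' := hD'.1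
  have hDD : D' = D := by
    rcases k with _ | _ | _ | k
    · omega
    · omega
    · omega
    · exfalso
      have h3 : (2 ^ (k + 3)) ^ 2 = 64 * (2 ^ k) ^ 2 := by ring
      rw [h3] at hnD
      have h4 : D = 16 * ((2 ^ k) ^ 2 * D') := by
        have : 4 * D = 4 * (16 * ((2 ^ k) ^ 2 * D')) := by rw [← hnD]; ring
        omega
      omega
  subst hDD
  exact ⟨K, iF, iN, h2, hdisc⟩

end Pool.Hhelper76.SC
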