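import Pool.Agent.Hhelper76.SC.Psi

/-!
# SC module P4 (ThetaG): Fourier expansion in `θ` of `GG`

Uses P1 (`Psi.lean`).

PAPER PROOF. `Th θ y u = (1/2)√y Re S(θ, y, e^u)`, `S = ∑_{n,k} exp(-πy(e^u n² + e^{-u} k²)) e(nkθ)`
(`S`, `term`, see `CL/Defs`, `CL/LowerErr: S_real_eq, term_real, summable_term_real`). Terms with
`nk = 0`: `1 + 2Gs(y e^u) + 2Gs(y e^{-u})`. Terms with `nk ≠ 0`, grouped by `N = |nk| ≥ 1` (4 sign
choices, `n = ±d`, `k = ±N/d`, `d ∣ N`; the imaginary parts cancel): they contribute `cN N y u cos(2πNθ)` to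
`Th`. So `Th θ y u = (√y/2)(1 + 2Gs(y e^u) + 2Gs(y e^{-u})) + ∑_{N≥1} cN N y u cos(2πNθ)`.
`opL` of the first part: constants die, `opL (v ↦ Gs(y e^v)) u = opL (v ↦ Gs(e^v)) (u + log y)
= Psi(-u - log y)` (`Psi_neg`), `opL (v ↦ Gs(y e^{-v})) u = Psi(u - log y)` (`Psi_eq_neg`, shift), which
gives `C0`. Bounds: `e^v d² + e^{-v}(N/d)² ≥ 2N`, so `0 ≤ cN N y v ≤ 2√y d(N) exp(-2πyN)`, and
`|CN| ≤ (∑|γ|) ·` that. Summability in `N`: `CL.summable_div_exp` (DivSum).
`GG_neg`: `S_inv` (CL/Rows). `GG_continuous`: `CL.continuous_S`. `GG_decay`: `C0` decays superexponentially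
by `Psi_bound`; `∑_N |CN|`: for `u ≥ 0`, `e^v d² + e^{-v}(N/d)² ≥ e^{v}/2 + N/1`... (AM-GM on half of it:
`≥ N + e^v/2`), similarly for `u ≤ 0`; or use `CL.W_decay`. Only a qualitative bound
`|GG c θ y u| ≤ C_y exp(-|u|)`, for each `y > 0`, uniformly in `θ`, is needed.
-/

open Complex MeasureTheory Pool.Hhelper76.CL

namespace Pool.Hhelper76.SC

namespace TG

/-- halves of a sum over `ℤ × β` -/
theorem half {β : Type*} (F : ℤ × β → ℝ) (a : ℝ) (h0 : ∀ b, F (0, b) = 0)
    (hev : ∀ n b, F (-n, b) = F (n, b)) (h : HasSum F a) :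
    HasSum (fun p : ℕ × β => F ((p.1 : ℤ) + 1, p.2)) (a / 2) := by
  have hi1 : Function.Injective (fun p : ℕ × β => (((p.1 : ℤ) + 1, p.2) : ℤ × β)) := by
    rintro ⟨m, b⟩ ⟨n, c⟩ h
    simp only [Prod.mk.injEq] at h ⊢
    exact ⟨by omega, h.2⟩
  have hi2 : Function.Injective (fun p : ℕ × β => ((-((p.1 : ℤ) + 1), p.2) : ℤ × β)) := by
    rintro ⟨m, b⟩ ⟨n, c⟩ h
    simp only [Prod.mk.injEq] at h ⊢
    exact ⟨by omega, h.2⟩
  have hs : Summable (fun p : ℕ × β => F ((p.1 : ℤ) + 1, p.2)) := h.summable.comp_injective hi1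
  obtain ⟨g, hg⟩ := hs
  have hg2 : HasSum (fun p : ℕ × β => F (-((p.1 : ℤ) + 1), p.2)) g := by
    simp only [hev]
    exact hg
  have H1 : HasSum (fun p : ℤ × β => if 0 < p.1 then F p else 0) g := by
    rw [← hi1.hasSum_iff]
    · have he : (fun p : ℤ × β => if 0 < p.1 then F p else 0) ∘
          (fun p : ℕ × β => (((p.1 : ℤ) + 1, p.2) : ℤ × β)) =
          fun p : ℕ × β => F ((p.1 : ℤ) + 1, p.2) := by
        funext p
        simp only [Function.comp_apply]
        rw [if_pos (by omega)]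
      rw [he]
      exact hg
    · rintro ⟨n, b⟩ hn
      rw [if_neg]
      intro hn0
      simp only at hn0
      exact hn ⟨((n - 1).toNat, b), by simp only [Prod.mk.injEq, and_true]; omega⟩
  have H2 : HasSum (fun p : ℤ × β => if p.1 < 0 then F p else 0) g := by
    rw [← hi2.hasSum_iff]
    · have he : (fun p : ℤ × β => if p.1 < 0 then F p else 0) ∘
          (fun p : ℕ × β => ((-((p.1 : ℤ) + 1), p.2) : ℤ × β)) =
          fun p : ℕ × β => F (-((p.1 : ℤ) + 1), p.2) := by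
        funext p
        simp only [Function.comp_apply]
        rw [if_pos (by omega)]
      rw [he]
      exact hg2
    · rintro ⟨n, b⟩ hn
      rw [if_neg]
      intro hn0
      simp only at hn0
      exact hn ⟨((-n - 1).toNat, b), by simp only [Prod.mk.injEq, and_true]; omega⟩
  have H3 := H1.add H2
  have he : (fun p : ℤ × β => (if 0 < p.1 then F p else 0) + (if p.1 < 0 then F p else 0)) = F := by
    funext ⟨n, b⟩
    simp only
    rcases lt_trichotomy n 0 with hn | hn | hn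
    · rw [if_neg (by omega), if_pos hn, zero_add]
    · subst hn
      rw [if_neg (lt_irrefl _), h0, add_zero]
    · rw [if_pos hn, if_neg (by omega), add_zero]
  rw [he] at H3
  have : a = g + g := h.unique H3
  rw [show a / 2 = g by linarith]
  exact hg

/-- a sum over `ℤ × ℤ` as a sum over `N` and the divisors of `N` -/
theorem quad (F : ℤ × ℤ → ℝ) (a : ℝ) (h0 : ∀ b, F (0, b) = 0) (h0' : ∀ b, F (b, 0) = 0)
    (hev : ∀ n b, F (-n, b) = F (n, b)) (hev' : ∀ n b, F (n, -b) = F (n, b)) (h : HasSum F a) :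
    HasSum (fun N : ℕ => ∑ d ∈ (N + 1).divisors, F ((d : ℤ), (((N + 1) / d : ℕ) : ℤ)))
      (a / 4) := by
  have h1 := half F a h0 hev h
  have h2 : HasSum (fun p : ℤ × ℕ => F ((p.2 : ℤ) + 1, p.1)) (a / 2) :=
    (Equiv.prodComm ℤ ℕ).hasSum_iff.mpr h1
  have h3 := half (fun p : ℤ × ℕ => F ((p.2 : ℤ) + 1, p.1)) (a / 2) (fun b => h0' _)
    (fun n b => hev' _ _) h2
  simp only at h3
  have h4 : HasSum (fun q : ℕ+ × ℕ+ => F (((q.1 : ℕ) : ℤ), ((q.2 : ℕ) : ℤ))) (a / 4) := by
    have h5 := (((Equiv.prodComm ℕ+ ℕ+).trans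
      (Equiv.pnatEquivNat.prodCongr Equiv.pnatEquivNat)).hasSum_iff).mpr h3
    rw [show a / 2 / 2 = a / 4 by ring] at h5
    refine h5.congr_fun fun q => ?_
    have e1 : (((q.1 : ℕ) : ℤ)) = ((Equiv.pnatEquivNat q.1 : ℕ) : ℤ) + 1 := by
      have := PNat.natPred_add_one q.1
      exact_mod_cast this.symm
    have e2 : (((q.2 : ℕ) : ℤ)) = ((Equiv.pnatEquivNat q.2 : ℕ) : ℤ) + 1 := by
      have := PNat.natPred_add_one q.2
      exact_mod_cast this.symm
    rw [e1, e2]
    rfl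
  have h5 := (sigmaAntidiagonalEquivProd.hasSum_iff).mpr h4
  have h6 := h5.sigma (fun n => hasSum_fintype _)
  have h7 := (Equiv.pnatEquivNat.symm.hasSum_iff).mpr h6
  refine h7.congr_fun fun N => ?_
  rw [← Nat.sum_divisorsAntidiagonal (fun d e => F ((d : ℤ), (e : ℤ)))]
  rw [← Finset.sum_coe_sort]
  rfl

/-- the summand of the double series -/
noncomputable def E (y X n k : ℝ) : ℝ :=
  Real.exp (-Real.pi * (y * X) * n ^ 2) * Real.exp (-Real.pi * (y / X) * k ^ 2)

theorem term_re (θ y X : ℝ) (p : ℤ × ℤ) : (term θ y (X : ℂ) p).re =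
    E y X p.1 p.2 * Real.cos (2 * Real.pi * (p.1 * p.2 * θ)) := by
  rw [term_real, Complex.re_ofReal_mul]
  have h : (2 * (Real.pi : ℂ) * I * ((p.1 : ℂ) * (p.2 : ℂ) * (θ : ℂ))) =
      ((2 * Real.pi * (p.1 * p.2 * θ) : ℝ) : ℂ) * I := by
    push_cast
    ring
  rw [h, Complex.exp_ofReal_mul_I_re]
  rfl

theorem main_hasSum (θ y X : ℝ) (hy : 0 < y) (hX : 0 < X) :
    HasSum (fun N : ℕ => ∑ d ∈ (N + 1).divisors, E y X d (((N : ℝ) + 1) / d) *
      Real.cos (2 * Real.pi * ((N : ℝ) + 1) * θ))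
      ((∑' p : {p : ℤ × ℤ // p.1 ≠ 0 ∧ p.2 ≠ 0}, term θ y (X : ℂ) p.1).re / 4) := by
  classical
  set f : ℤ × ℤ → ℂ := fun p => term θ y (X : ℂ) p with hf
  have hs : Summable f := summable_term_real θ y X hy hX
  set A : Set (ℤ × ℤ) := {p | p.1 ≠ 0 ∧ p.2 ≠ 0} with hA
  have h4 : HasSum (A.indicator f)
      (∑' p : {p : ℤ × ℤ // p.1 ≠ 0 ∧ p.2 ≠ 0}, term θ y (X : ℂ) p.1) := by
    rw [← hasSum_subtype_iff_indicator]
    exact (hs.subtype A).hasSum
  have h5 := ((Complex.hasSum_iff _ _).mp h4).1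
  set F : ℤ × ℤ → ℝ := fun p => if p.1 = 0 ∨ p.2 = 0 then 0 else
    E y X p.1 p.2 * Real.cos (2 * Real.pi * (p.1 * p.2 * θ)) with hF
  have h6 : HasSum F
      (∑' p : {p : ℤ × ℤ // p.1 ≠ 0 ∧ p.2 ≠ 0}, term θ y (X : ℂ) p.1).re := by
    refine h5.congr_fun fun p => ?_
    rw [hF]
    simp only
    split_ifs with h
    · rw [Set.indicator_of_notMem, Complex.zero_re]
      rw [hA]
      rintro ⟨h1, h2⟩
      rcases h with h | h
      · exact h1 h
      · exact h2 h
    · rw [Set.indicator_of_mem, hf]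
      · exact (term_re θ y X p).symm
      · rw [hA]
        exact ⟨fun h1 => h (Or.inl h1), fun h1 => h (Or.inr h1)⟩
  have h7 := quad F _ (fun b => by simp [hF]) (fun b => by simp [hF])
    (fun n b => by
      simp only [hF, neg_eq_zero, Int.cast_neg]
      congr 2
      · simp [E]
      · rw [show 2 * Real.pi * (-(n : ℝ) * b * θ) = -(2 * Real.pi * (n * b * θ)) by ring,
          Real.cos_neg])
    (fun n b => by
      simp only [hF, neg_eq_zero, Int.cast_neg]
      congr 2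
      · simp [E]
      · rw [show 2 * Real.pi * ((n : ℝ) * -b * θ) = -(2 * Real.pi * (n * b * θ)) by ring,
          Real.cos_neg]) h6
  refine h7.congr_fun fun N => Finset.sum_congr rfl fun d hd => ?_
  have hd1 : d ∣ N + 1 := Nat.dvd_of_mem_divisors hd
  have hd0 : 0 < d := Nat.pos_of_mem_divisors hd
  have hq0 : 0 < (N + 1) / d := Nat.div_pos (Nat.le_of_dvd (Nat.succ_pos _) hd1) hd0
  have hdR : (d : ℝ) ≠ 0 := Nat.cast_ne_zero.mpr hd0.ne'
  have hq : (((N + 1) / d : ℕ) : ℝ) = ((N : ℝ) + 1) / d := by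
    rw [Nat.cast_div hd1 hdR]
    push_cast
    rfl
  rw [hF]
  simp only
  rw [if_neg (by omega)]
  simp only [Int.cast_natCast]
  rw [hq]
  congr 2
  field_simp

theorem cN_eq (N : ℕ) (y v : ℝ) : cN (N + 1) y v =
    2 * Real.sqrt y * ∑ d ∈ (N + 1).divisors, E y (Real.exp v) d (((N : ℝ) + 1) / d) := by
  unfold cN E
  congr 1
  refine Finset.sum_congr rfl fun d _ => ?_
  rw [← Real.exp_add]
  congr 1
  rw [Real.exp_neg]
  push_cast
  ring

theorem Th_hasSum (θ y v : ℝ) (hy : 0 < y) :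
    HasSum (fun N : ℕ => cN (N + 1) y v * Real.cos (2 * Real.pi * ((N : ℝ) + 1) * θ))
      (Th θ y v - (1 / 2) * Real.sqrt y *
        (1 + 2 * Gs (y * Real.exp v) + 2 * Gs (y / Real.exp v))) := by
  have h := (main_hasSum θ y (Real.exp v) hy (Real.exp_pos v)).mul_left (2 * Real.sqrt y)
  have h2 := S_real_eq θ y (Real.exp v) hy (Real.exp_pos v)
  set T := ∑' p : {p : ℤ × ℤ // p.1 ≠ 0 ∧ p.2 ≠ 0}, term θ y ((Real.exp v : ℝ) : ℂ) p.1 with hT
  have h3 : Th θ y v - (1 / 2) * Real.sqrt y *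
        (1 + 2 * Gs (y * Real.exp v) + 2 * Gs (y / Real.exp v)) =
      2 * Real.sqrt y * (T.re / 4) := by
    unfold Th
    rw [← Complex.ofReal_exp, h2, Complex.add_re, Complex.ofReal_re]
    ring
  rw [h3]
  refine h.congr_fun fun N => ?_
  rw [cN_eq, ← Finset.sum_mul]
  ring

theorem part0 (c y u : ℝ) (hy : 0 < y) :
    opL c (fun v => (1 / 2) * Real.sqrt y *
      (1 + 2 * Gs (y * Real.exp v) + 2 * Gs (y / Real.exp v))) u = C0 c y u := by
  have hy1 : ∀ v, y * Real.exp v = Real.exp (v + Real.log y) := by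
    intro v
    rw [Real.exp_add, Real.exp_log hy, mul_comm]
  have hy2 : ∀ v, y / Real.exp v = Real.exp (-(v + -Real.log y)) := by
    intro v
    rw [show -(v + -Real.log y) = Real.log y - v by ring, Real.exp_sub, Real.exp_log hy]
  have h1 : (fun v => (1 / 2) * Real.sqrt y *
      (1 + 2 * Gs (y * Real.exp v) + 2 * Gs (y / Real.exp v))) =
      fun v => (1 / 2) * Real.sqrt y * ((1 + 2 * (fun v => Gs (Real.exp v)) (v + Real.log y)) +
        2 * (fun v => Gs (Real.exp (-v))) (v + -Real.log y)) := by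
    funext v
    rw [hy1, hy2]
  rw [h1, opL_mul, opL_add, opL_add, opL_const, opL_mul, opL_mul,
    opL_shift c (Real.log y) (fun v => Gs (Real.exp v)),
    opL_shift c (-Real.log y) (fun v => Gs (Real.exp (-v))), ← Psi_neg, ← Psi_eq_neg]
  unfold C0
  rw [show -(u + Real.log y) = -u - Real.log y by ring, ← sub_eq_add_neg]
  ring

theorem opL_le' (c : ℝ) (f : ℝ → ℝ) (u B : ℝ) (h : ∀ v, |f v| ≤ B) :
    |opL c f u| ≤ (∑ i : Fin 9, |gam c i|) * B := by
  unfold opL
  refine (Finset.abs_sum_le_sum_abs _ _).trans ?_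
  rw [Finset.sum_mul]
  refine Finset.sum_le_sum fun i _ => ?_
  rw [abs_mul]
  exact mul_le_mul_of_nonneg_left (h _) (abs_nonneg _)

theorem cN_nonneg (N : ℕ) (y v : ℝ) : 0 ≤ cN N y v := by
  unfold cN
  exact mul_nonneg (mul_nonneg zero_le_two (Real.sqrt_nonneg _))
    (Finset.sum_nonneg fun _ _ => (Real.exp_pos _).le)

/-- the two lower bounds for the exponent -/
theorem expo (N d : ℕ) (hd : d ∈ N.divisors) (v : ℝ) :
    2 * (N : ℝ) ≤ Real.exp v * (d : ℝ) ^ 2 + Real.exp (-v) * ((N : ℝ) / d) ^ 2 ∧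
    Real.exp |v| ≤ Real.exp v * (d : ℝ) ^ 2 + Real.exp (-v) * ((N : ℝ) / d) ^ 2 := by
  have hd1 : d ∣ N := Nat.dvd_of_mem_divisors hd
  have hd0 : 0 < d := Nat.pos_of_mem_divisors hd
  have hN : 0 < N := Nat.pos_of_ne_zero (Nat.mem_divisors.mp hd).2
  have hdR : (1 : ℝ) ≤ d := by exact_mod_cast hd0
  have hdle : (d : ℝ) ≤ N := by exact_mod_cast Nat.le_of_dvd hN hd1
  have hq : 1 ≤ (N : ℝ) / d := by
    rw [le_div_iff₀ (by linarith)]
    linarith
  have hd2 : (1 : ℝ) ≤ (d : ℝ) ^ 2 := by nlinarith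
  have hq2 : 1 ≤ ((N : ℝ) / d) ^ 2 := by nlinarith
  have e1 := Real.exp_pos v
  have e2 := Real.exp_pos (-v)
  constructor
  · have h1 : Real.exp v = Real.exp (v / 2) ^ 2 := by
      rw [← Real.exp_nat_mul]
      congr 1
      push_cast
      ring
    have h2 : Real.exp (-v) = Real.exp (-(v / 2)) ^ 2 := by
      rw [← Real.exp_nat_mul]
      congr 1
      push_cast
      ring
    have h3 : Real.exp (v / 2) * Real.exp (-(v / 2)) = 1 := by
      rw [← Real.exp_add, add_neg_cancel, Real.exp_zero]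
    have h4 : (d : ℝ) * ((N : ℝ) / d) = N := by
      field_simp
    have h5 := sq_nonneg (Real.exp (v / 2) * d - Real.exp (-(v / 2)) * ((N : ℝ) / d))
    have h6 : Real.exp (v / 2) * d * (Real.exp (-(v / 2)) * ((N : ℝ) / d)) = N := by
      calc Real.exp (v / 2) * d * (Real.exp (-(v / 2)) * ((N : ℝ) / d))
          = (Real.exp (v / 2) * Real.exp (-(v / 2))) * ((d : ℝ) * ((N : ℝ) / d)) := by ring
        _ = N := by rw [h3, h4, one_mul]
    rw [h1, h2]
    nlinarith
  · rcases abs_choice v with h | h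
    · rw [h]
      nlinarith
    · rw [h]
      nlinarith

theorem cN_le (N : ℕ) (y v : ℝ) (hy : 0 < y) :
    cN N y v ≤ 2 * Real.sqrt y * (N.divisors.card * Real.exp (-(2 * Real.pi * y * N))) := by
  unfold cN
  refine mul_le_mul_of_nonneg_left ?_ (mul_nonneg zero_le_two (Real.sqrt_nonneg _))
  rw [← nsmul_eq_mul]
  refine Finset.sum_le_card_nsmul _ _ _ fun d hd => ?_
  rw [Real.exp_le_exp]
  have h1 := (expo N d hd v).1
  have h2 : 0 < Real.pi * y := mul_pos Real.pi_pos hy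
  nlinarith

theorem cN_le2 (N : ℕ) (y v : ℝ) (hy : 0 < y) :
    cN N y v ≤ 2 * Real.sqrt y * (N.divisors.card * (Real.exp (-(Real.pi * y * N)) *
      Real.exp (-(Real.pi * y / 2 * Real.exp |v|)))) := by
  unfold cN
  refine mul_le_mul_of_nonneg_left ?_ (mul_nonneg zero_le_two (Real.sqrt_nonneg _))
  rw [← nsmul_eq_mul]
  refine Finset.sum_le_card_nsmul _ _ _ fun d hd => ?_
  rw [← Real.exp_add, Real.exp_le_exp]
  have h1 := expo N d hd v
  have h2 : 0 < Real.pi * y := mul_pos Real.pi_pos hy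
  nlinarith [h1.1, h1.2]

/-- the sum over `N` -/
theorem sumN (s : ℝ) (hs : 0 < s) :
    Summable (fun N : ℕ => ((N + 1).divisors.card : ℝ) * Real.exp (-(s * ((N : ℝ) + 1)))) ∧
    ∑' N : ℕ, ((N + 1).divisors.card : ℝ) * Real.exp (-(s * ((N : ℝ) + 1))) ≤ 1 / s ^ 2 := by
  set r := Real.exp (-s) with hr
  have hr0 : 0 < r := Real.exp_pos _
  have hr1 : r < 1 := by
    rw [hr, Real.exp_lt_one_iff]
    linarith
  have hn : ‖r‖ < 1 := by rwa [Real.norm_of_nonneg hr0.le]
  have h1 := hasSum_coe_mul_geometric_of_norm_lt_one hn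
  have h2 : HasSum (fun N : ℕ => ((N : ℝ) + 1) * r ^ (N + 1)) (r / (1 - r) ^ 2) := by
    have h3 := (hasSum_nat_add_iff' (f := fun n : ℕ => (n : ℝ) * r ^ n) 1).mpr h1
    simpa using h3
  have h3 : ∀ N : ℕ, ((N + 1).divisors.card : ℝ) * Real.exp (-(s * ((N : ℝ) + 1))) ≤
      ((N : ℝ) + 1) * r ^ (N + 1) := by
    intro N
    have h4 : Real.exp (-(s * ((N : ℝ) + 1))) = r ^ (N + 1) := by
      rw [hr, ← Real.exp_nat_mul]
      congr 1
      push_cast
      ring
    rw [h4]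
    refine mul_le_mul_of_nonneg_right ?_ (pow_pos hr0 _).le
    have h5 := Nat.card_divisors_le_self (N + 1)
    exact_mod_cast h5
  have h4 : Summable (fun N : ℕ => ((N + 1).divisors.card : ℝ) *
      Real.exp (-(s * ((N : ℝ) + 1)))) :=
    Summable.of_nonneg_of_le (fun N => by positivity) h3 h2.summable
  refine ⟨h4, ?_⟩
  have h5 := h4.tsum_le_tsum h3 h2.summable
  rw [h2.tsum_eq] at h5
  refine h5.trans ?_
  have h6 : 0 < (1 - r) ^ 2 := by
    have : 0 < 1 - r := by linarith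
    positivity
  rw [div_le_div_iff₀ h6 (by positivity), one_mul]
  have h7 := Real.self_le_sinh_iff.mpr (show 0 ≤ s / 2 by linarith)
  rw [Real.sinh_eq] at h7
  have h8 : s * Real.exp (-(s / 2)) ≤ 1 - r := by
    have h9 : s ≤ Real.exp (s / 2) - Real.exp (-(s / 2)) := by linarith
    have h10 := mul_le_mul_of_nonneg_right h9 (Real.exp_pos (-(s / 2))).le
    refine h10.trans (le_of_eq ?_)
    rw [sub_mul, ← Real.exp_add, ← Real.exp_add, add_neg_cancel, Real.exp_zero, hr]
    congr 2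
    ring
  have h9 : r = Real.exp (-(s / 2)) ^ 2 := by
    rw [hr, ← Real.exp_nat_mul]
    congr 1
    push_cast
    ring
  have h10 : 0 ≤ s * Real.exp (-(s / 2)) := by positivity
  have h11 := pow_le_pow_left₀ h10 h8 2
  calc r * s ^ 2 = (s * Real.exp (-(s / 2))) ^ 2 := by rw [h9]; ring
    _ ≤ (1 - r) ^ 2 := h11

end TG

open TG

theorem CN_bound (c : ℝ) : ∃ C : ℝ, 0 < C ∧ ∀ (N : ℕ) (y u : ℝ), 1 ≤ N → 0 < y →
    |CN c N y u| ≤ C * Real.sqrt y * N.divisors.card * Real.exp (-(2 * Real.pi * y * N)) := by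
  have hS := gamS_nonneg c
  refine ⟨(∑ i : Fin 9, |gam c i|) * 2 + 1, by positivity, fun N y u _ hy => ?_⟩
  unfold CN
  refine (opL_le' c (cN N y) u (2 * Real.sqrt y * (N.divisors.card *
    Real.exp (-(2 * Real.pi * y * N)))) fun v => ?_).trans ?_
  · rw [abs_of_nonneg (cN_nonneg N y v)]
    exact cN_le N y v hy
  · have h : 0 ≤ Real.sqrt y * (N.divisors.card * Real.exp (-(2 * Real.pi * y * N))) := by
      positivity
    nlinarith

theorem GG_expansion (c θ y u : ℝ) (hy : 0 < y) :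
    Summable (fun N : ℕ => |CN c (N + 1) y u|) ∧
    GG c θ y u = C0 c y u +
      ∑' N : ℕ, CN c (N + 1) y u * Real.cos (2 * Real.pi * ((N : ℝ) + 1) * θ) := by
  constructor
  · obtain ⟨C, hC, h⟩ := CN_bound c
    have h1 := (sumN (2 * Real.pi * y) (by positivity)).1.mul_left (C * Real.sqrt y)
    refine Summable.of_nonneg_of_le (fun _ => abs_nonneg _) (fun N => ?_) h1
    refine (h (N + 1) y u (by omega) hy).trans (le_of_eq ?_)
    push_cast
    ring
  · have h1 : HasSum (fun N : ℕ => CN c (N + 1) y u *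
        Real.cos (2 * Real.pi * ((N : ℝ) + 1) * θ)) (GG c θ y u - C0 c y u) := by
      rw [← part0 c y u hy]
      unfold GG CN opL
      rw [← Finset.sum_sub_distrib]
      have h2 : ∀ i : Fin 9, HasSum (fun N : ℕ => gam c i *
          (cN (N + 1) y (u + (((i : ℕ) : ℝ) - 4) * c) *
            Real.cos (2 * Real.pi * ((N : ℝ) + 1) * θ)))
          (gam c i * (Th θ y (u + (((i : ℕ) : ℝ) - 4) * c) - (1 / 2) * Real.sqrt y *
            (1 + 2 * Gs (y * Real.exp (u + (((i : ℕ) : ℝ) - 4) * c)) +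
              2 * Gs (y / Real.exp (u + (((i : ℕ) : ℝ) - 4) * c))))) :=
        fun i => (Th_hasSum θ y _ hy).mul_left _
      have h3 := hasSum_sum (s := Finset.univ) fun i _ => h2 i
      simp only [mul_sub] at h3
      refine h3.congr_fun fun N => ?_
      rw [Finset.sum_mul]
      exact Finset.sum_congr rfl fun i _ => mul_assoc _ _ _
    rw [h1.tsum_eq]
    ring

theorem TG.Th_neg (θ y v : ℝ) : Th θ y (-v) = Th θ y v := by
  have hS : S θ y (cexp ((-v : ℝ) : ℂ)) = S θ y (cexp (v : ℂ)) := by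
    rw [Complex.ofReal_neg, Complex.exp_neg]
    rw [S, S, ← (Equiv.prodComm ℤ ℤ).tsum_eq (fun p => term θ y (cexp (v : ℂ))⁻¹ p)]
    refine tsum_congr fun p => ?_
    have hx := Complex.exp_ne_zero (v : ℂ)
    simp only [Equiv.prodComm_apply, term, Prod.fst_swap, Prod.snd_swap]
    congr 2
    · field_simp
      ring
    · ring
  unfold Th
  rw [hS]

theorem GG_neg (c θ y u : ℝ) : GG c θ y (-u) = GG c θ y u := by
  unfold GG
  rw [opL_neg]
  congr 1
  funext v
  exact Th_neg θ y v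

theorem TG.Th_continuous (θ y : ℝ) (hy : 0 < y) : Continuous (Th θ y) := by
  unfold Th
  have h := continuous_S θ y 0 hy (by rw [abs_zero]; positivity)
  simp only [Complex.ofReal_zero, zero_mul, add_zero] at h
  exact continuous_const.mul (Complex.continuous_re.comp h)

theorem GG_continuous (c θ y : ℝ) (hy : 0 < y) : Continuous (GG c θ y) := by
  unfold GG opL
  have h := Th_continuous θ y hy
  fun_prop

/-- triangle inequality for the expansion -/
theorem TG.GG_abs_le (c θ y u : ℝ) (hy : 0 < y) :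
    |GG c θ y u| ≤ |C0 c y u| + ∑' N : ℕ, |CN c (N + 1) y u| := by
  obtain ⟨h1, h2⟩ := GG_expansion c θ y u hy
  rw [h2]
  refine (abs_add_le _ _).trans ?_
  have h3 : ∀ N : ℕ, ‖CN c (N + 1) y u * Real.cos (2 * Real.pi * ((N : ℝ) + 1) * θ)‖ ≤
      |CN c (N + 1) y u| := by
    intro N
    rw [Real.norm_eq_abs, abs_mul]
    have := Real.abs_cos_le_one (2 * Real.pi * ((N : ℝ) + 1) * θ)
    have := abs_nonneg (CN c (N + 1) y u)
    nlinarith
  have h4 : Summable fun N : ℕ => ‖CN c (N + 1) y u *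
      Real.cos (2 * Real.pi * ((N : ℝ) + 1) * θ)‖ :=
    Summable.of_nonneg_of_le (fun _ => norm_nonneg _) h3 h1
  have h5 := (norm_tsum_le_tsum_norm h4).trans (h4.tsum_le_tsum h3 h1)
  rw [Real.norm_eq_abs] at h5
  linarith

theorem GG_decay (c y : ℝ) (hc : 0 < c) (hy : 0 < y) : ∃ C : ℝ, 0 < C ∧ ∀ θ u : ℝ,
    |GG c θ y u| ≤ C * Real.exp (-|u|) := by
  obtain ⟨C₁, hC₁, hP⟩ := Psi_exp_bound c hc 1
  have hS := gamS_nonneg c
  set S := ∑ i : Fin 9, |gam c i| with hSdef
  obtain ⟨hs1, -⟩ := sumN (Real.pi * y) (by positivity)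
  set M := ∑' N : ℕ, ((N + 1).divisors.card : ℝ) * Real.exp (-(Real.pi * y * ((N : ℝ) + 1)))
    with hM
  have hM0 : 0 ≤ M := tsum_nonneg fun N => by positivity
  have hκ : 0 < Real.pi * y / 2 * Real.exp (-(4 * c)) := by positivity
  set κ := Real.pi * y / 2 * Real.exp (-(4 * c)) with hκdef
  set K := Real.exp ((1 : ℝ) ^ 2 / (2 * κ)) with hK
  have hK0 : 0 < K := Real.exp_pos _
  have hsy := Real.sqrt_pos.mpr hy
  have hL := Real.exp_pos |Real.log y|
  refine ⟨Real.sqrt y * (2 * C₁ * Real.exp |Real.log y|) + S * (2 * Real.sqrt y * K) * M,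
    by positivity, fun θ u => ?_⟩
  refine (GG_abs_le c θ y u hy).trans ?_
  rw [add_mul]
  refine add_le_add ?_ ?_
  · have h1 : ∀ w : ℝ, |u| ≤ |w| + |Real.log y| →
        |Psi c w| ≤ C₁ * Real.exp |Real.log y| * Real.exp (-|u|) := by
      intro w hw
      refine (hP w).1.trans ?_
      rw [mul_assoc, ← Real.exp_add]
      refine mul_le_mul_of_nonneg_left ?_ hC₁.le
      rw [Real.exp_le_exp]
      push_cast
      linarith
    have a1 := h1 (-u - Real.log y) (by
      have := abs_add_le (-u - Real.log y) (Real.log y)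
      rw [sub_add_cancel, abs_neg] at this
      exact this)
    have a2 := h1 (u - Real.log y) (by
      have := abs_add_le (u - Real.log y) (Real.log y)
      rw [sub_add_cancel] at this
      exact this)
    unfold C0
    rw [abs_mul, abs_of_pos hsy, mul_assoc]
    refine mul_le_mul_of_nonneg_left ?_ hsy.le
    refine (abs_add_le _ _).trans ?_
    linarith
  · have h1 : ∀ N : ℕ, |CN c (N + 1) y u| ≤ (S * (2 * Real.sqrt y * K) * Real.exp (-|u|)) *
        (((N + 1).divisors.card : ℝ) * Real.exp (-(Real.pi * y * ((N : ℝ) + 1)))) := by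
      intro N
      unfold CN
      refine (opL_le c hc (cN (N + 1) y) u (2 * Real.sqrt y * (((N + 1).divisors.card : ℝ) *
        (Real.exp (-(Real.pi * y * ((N : ℝ) + 1))) * (K * Real.exp (-|u|))))) ?_).trans
        (le_of_eq ?_)
      · intro v hv
        rw [abs_of_nonneg (cN_nonneg _ y v)]
        refine (cN_le2 (N + 1) y v hy).trans ?_
        refine mul_le_mul_of_nonneg_left ?_ (by positivity)
        refine mul_le_mul_of_nonneg_left ?_ (Nat.cast_nonneg _)
        push_cast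
        refine mul_le_mul_of_nonneg_left ?_ (Real.exp_pos _).le
        have h2 := superexp_le κ hκ 1 |u| (abs_nonneg u)
        rw [one_mul] at h2
        refine le_trans ?_ h2
        rw [Real.exp_le_exp]
        have h3 : |u| ≤ |v| + 4 * c := by
          have h4 := abs_sub_abs_le_abs_sub u v
          rw [abs_sub_comm] at h4
          linarith
        have h4 : Real.exp (-(4 * c)) * Real.exp |u| ≤ Real.exp |v| := by
          rw [← Real.exp_add, Real.exp_le_exp]
          linarith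
        have h5 : 0 < Real.pi * y / 2 := by positivity
        have h6 := mul_le_mul_of_nonneg_left h4 h5.le
        rw [hκdef]
        linarith
      · rw [← hSdef]
        ring
    have h2 := hs1.mul_left (S * (2 * Real.sqrt y * K) * Real.exp (-|u|))
    have h3 := (GG_expansion c θ y u hy).1.tsum_le_tsum h1 h2
    rw [tsum_mul_left] at h3
    refine h3.trans (le_of_eq ?_)
    ring

/-- Bound by the kernel estimate: `∑_N d(N) exp(-2πyN) ≤ C (1 + 1/y²)`. -/
theorem GG_bound (c : ℝ) (hc : 0 < c) : ∃ C : ℝ, 0 < C ∧ ∀ θ y u : ℝ, 0 < y →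
    |GG c θ y u| ≤ C * Real.sqrt y * (1 + 1 / y ^ 2) := by
  obtain ⟨C₁, hC₁, hP⟩ := Psi_exp_bound c hc 0
  obtain ⟨C, hC, h⟩ := CN_bound c
  refine ⟨2 * C₁ + C, by positivity, fun θ y u hy => ?_⟩
  have hsy := Real.sqrt_pos.mpr hy
  refine (GG_abs_le c θ y u hy).trans ?_
  have hP' : ∀ w, |Psi c w| ≤ C₁ := by
    intro w
    have := (hP w).1
    simpa using this
  have h1 : |C0 c y u| ≤ 2 * C₁ * Real.sqrt y := by
    unfold C0
    rw [abs_mul, abs_of_pos hsy, mul_comm (2 * C₁)]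
    refine mul_le_mul_of_nonneg_left ?_ hsy.le
    refine (abs_add_le _ _).trans ?_
    linarith [hP' (-u - Real.log y), hP' (u - Real.log y)]
  obtain ⟨hs1, hs2⟩ := sumN (2 * Real.pi * y) (by positivity)
  have h2 : ∑' N : ℕ, |CN c (N + 1) y u| ≤ C * Real.sqrt y * (1 / y ^ 2) := by
    have h3 : ∀ N : ℕ, |CN c (N + 1) y u| ≤ (C * Real.sqrt y) *
        (((N + 1).divisors.card : ℝ) * Real.exp (-(2 * Real.pi * y * ((N : ℝ) + 1)))) := by
      intro N
      refine (h (N + 1) y u (by omega) hy).trans (le_of_eq ?_)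
      push_cast
      ring
    have h4 := (GG_expansion c θ y u hy).1.tsum_le_tsum h3 (hs1.mul_left _)
    rw [tsum_mul_left] at h4
    refine h4.trans ?_
    refine mul_le_mul_of_nonneg_left ?_ (by positivity)
    refine hs2.trans ?_
    refine one_div_le_one_div_of_le (by positivity) ?_
    refine pow_le_pow_left₀ hy.le ?_ 2
    have := Real.pi_gt_three
    nlinarith
  have h3 : 0 ≤ 1 / y ^ 2 := by positivity
  have h4 : 0 ≤ C₁ * Real.sqrt y * (1 / y ^ 2) := by positivity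
  have h5 : 0 ≤ C * Real.sqrt y := by positivity
  nlinarith

end Pool.Hhelper76.SC
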