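import Pool.Agent.Hhelper76.SC.QIdeal
import Pool.Agent.Hhelper76.SC.ThetaG

/-!
# SC module N2 (Gcl): theta function of a class = `GG`; unfolding

Uses N1 (`QIdeal`), P1 (`Psi_hasSum`, `psi0_bound`, `Psi_bound`), P4, `CL.rows`, `CL.exists_inv_equiv`,
`CL.tsum_half`.

PAPER PROOF. `lattice_param`: `J = J h b`, `A = [J]`. Ideals `I` in the class `A⁻¹` correspond to
`α ∈ J \ 0` up to sign (`I J = (α)`; units are `±1` as `D > 4`, `unit_pm`), `α = mh - nβ + nω`, `(m, n)` in the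
half lattice, `N(I) = N(α)/h = h((m + nθ)² + n² D/(4h²))`, `θ = b/(2h)`: see the proof of `class_param'` in
`CL/Forms.lean` (same argument, there only for the minimal ideal of a class).
`gcl_eq` (with `half_GG`, which is the same computation for arbitrary `θ, y`): with `y = √D/(2h)`: `qq D I = 2N(I)/√D = q θ y (m, n)` (`CL.q`), so
`∑_{I ∈ A⁻¹} qq^{-1/2} psi0(u + log qq) = opL (v ↦ ∑_{Half} e^{v/2} exp(-π q e^v)) u`, and by `CL.rows`
(`√y S(θ,y,x) = x^{1/2} ∑_{p ∈ ℤ²} exp(-π q(p) x)`, so `Th θ y v = e^{v/2}/2 + e^{v/2} ∑_{Half} exp(-π q e^v)`)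
this is `opL (Th θ y - e^{v/2}/2) = GG c θ y u`. `gcl_inv` by `CL.exists_inv_equiv`.
`unfold_gcl`: `I` with `[I] = C[T]⁻¹`: `I T = r J(h, b)` uniquely (`decomp`), `[J h b] = C`; conversely for
`(r, h, b)` with `[J h b] = C` and `T ∣ r J(h,b)` there is exactly one such `I`. `T ∣ r J(h,b)` iff
`jm T (J h b) ∣ r` (`jm_dvd`: the set of such `r ∈ ℤ` is an ideal of `ℤ` containing `N(T)`, nonzero).
`N(I) = r² h/N(T)`, `qq I = r²/(N(T) y)`. With `r = j r'`:
`∑_{r'} (j² r'²/(N(T) y))^{-1/2} psi0(u + 2 log j + 2 log r' - log N(T) - log y)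
 = √(N(T)) √y/j · Psi(u + 2 log j - log N(T) - log y)`.
Absolute convergence: `|psi0(w)| ≤ C e^{w/2} exp(-κ e^w)` and the number of ideals of norm `n` in all classes
is `≤ C n²` (or directly in the half lattice parametrisation, `CL.summable_dirichlet`).
Convergence over `h`: `|Psi(w)| ≤ C exp(-κ e^{|w|})`, at most `2h` values of `b`, `jm ≤ N(T)`, `jm ≥ 1`.
-/

open scoped NumberField nonZeroDivisors
open Pool.Hhelper85.CZ Pool.Hhelper76.CL MeasureTheory

namespace Pool.Hhelper76.SC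

variable {K : Type} [Field K] [NumberField K]

/-- The term of `psi0` at `u + log q`. -/
theorem psi0_log (c u q : ℝ) (hq : 0 < q) :
    (Real.sqrt q)⁻¹ * psi0 c (u + Real.log q) =
      ∑ i : Fin 9, gam c i * (Real.exp ((u + (((i : ℕ) : ℝ) - 4) * c) / 2) *
        Real.exp (-(Real.pi * q) * Real.exp (u + (((i : ℕ) : ℝ) - 4) * c))) := by
  unfold psi0 opL
  rw [Finset.mul_sum]
  refine Finset.sum_congr rfl fun i _ => ?_
  have h1 : Real.exp ((u + Real.log q + (((i : ℕ) : ℝ) - 4) * c) / 2) =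
      Real.sqrt q * Real.exp ((u + (((i : ℕ) : ℝ) - 4) * c) / 2) := by
    rw [Real.sqrt_eq_rpow, Real.rpow_def_of_pos hq, ← Real.exp_add]
    congr 1
    ring
  have h2 : Real.exp (u + Real.log q + (((i : ℕ) : ℝ) - 4) * c) =
      q * Real.exp (u + (((i : ℕ) : ℝ) - 4) * c) := by
    rw [show u + Real.log q + (((i : ℕ) : ℝ) - 4) * c =
      Real.log q + (u + (((i : ℕ) : ℝ) - 4) * c) by ring, Real.exp_add, Real.exp_log hq]
  simp only []
  rw [h1, h2]
  have hs : Real.sqrt q ≠ 0 := (Real.sqrt_pos.2 hq).ne'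
  have h3 : -Real.pi * (q * Real.exp (u + (((i : ℕ) : ℝ) - 4) * c)) =
      -(Real.pi * q) * Real.exp (u + (((i : ℕ) : ℝ) - 4) * c) := by ring
  rw [h3]
  field_simp

theorem norm_cexp_real (a x : ℝ) : ‖Complex.exp (-((a : ℝ) : ℂ) * Complex.exp (x : ℂ))‖ =
    Real.exp (-a * Real.exp x) := by
  rw [Complex.norm_exp]
  congr 1
  rw [← Complex.ofReal_exp, ← Complex.ofReal_neg, ← Complex.ofReal_mul, Complex.ofReal_re]

theorem cexp_re_pos (v : ℝ) : 0 < (Complex.exp (v : ℂ)).re := by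
  rw [← Complex.ofReal_exp, Complex.ofReal_re]
  exact Real.exp_pos _

theorem half_summable (θ y v : ℝ) (hy : 0 < y) :
    Summable (fun p : {p : ℤ × ℤ // Half p} =>
      Real.exp (-(Real.pi * CL.q θ y p.1) * Real.exp v)) := by
  refine (summable_rows θ y hy (Complex.exp (v : ℂ)) (cexp_re_pos v)).congr fun p => ?_
  exact norm_cexp_real _ _

theorem Th_eq (θ y v : ℝ) (hy : 0 < y) : Th θ y v = (1 / 2) * Real.exp (v / 2) +
    Real.exp (v / 2) * ∑' p : {p : ℤ × ℤ // Half p},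
      Real.exp (-(Real.pi * CL.q θ y p.1) * Real.exp v) := by
  have h := rows θ y hy (Complex.exp (v : ℂ)) (cexp_re_pos v)
  have h1 : Complex.exp (v : ℂ) ^ (1 / 2 : ℂ) = ((Real.exp (v / 2) : ℝ) : ℂ) := by
    rw [← Complex.ofReal_exp]
    have : (1 / 2 : ℂ) = ((1 / 2 : ℝ) : ℂ) := by push_cast; rfl
    rw [this, ← Complex.ofReal_cpow (Real.exp_pos v).le, ← Real.exp_mul]
    congr 2
    ring
  have h2 : ∑' p : {p : ℤ × ℤ // Half p},
      Complex.exp (-(Real.pi * CL.q θ y p.1 : ℝ) * Complex.exp (v : ℂ)) =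
      ((∑' p : {p : ℤ × ℤ // Half p},
        Real.exp (-(Real.pi * CL.q θ y p.1) * Real.exp v) : ℝ) : ℂ) := by
    rw [Complex.ofReal_tsum]
    refine tsum_congr fun p => ?_
    push_cast
    rfl
  rw [h1, h2] at h
  have h3 := congrArg Complex.re h
  unfold Th
  have h4 : ((1 / 2 : ℂ) * ((Real.sqrt y : ℂ) * S θ y (Complex.exp (v : ℂ)))).re =
      (1 / 2) * Real.sqrt y * (S θ y (Complex.exp (v : ℂ))).re := by
    have : (1 / 2 : ℂ) * ((Real.sqrt y : ℂ) * S θ y (Complex.exp (v : ℂ))) =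
        (((1 / 2) * Real.sqrt y : ℝ) : ℂ) * S θ y (Complex.exp (v : ℂ)) := by
      push_cast
      ring
    rw [this, Complex.re_ofReal_mul]
  rw [h4] at h3
  rw [← h3]
  have h5 : (((Real.exp (v / 2) : ℝ) : ℂ) * (1 / 2 + ((∑' p : {p : ℤ × ℤ // Half p},
        Real.exp (-(Real.pi * CL.q θ y p.1) * Real.exp v) : ℝ) : ℂ))).re =
      Real.exp (v / 2) * (1 / 2 + ∑' p : {p : ℤ × ℤ // Half p},
        Real.exp (-(Real.pi * CL.q θ y p.1) * Real.exp v)) := by
    rw [Complex.re_ofReal_mul, Complex.add_re, Complex.ofReal_re]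
    norm_num
  rw [h5]
  ring

set_option linter.unusedVariables false in
theorem half_GG (c : ℝ) (hc : 0 < c) (θ y u : ℝ) (hy : 0 < y) :
    Summable (fun p : {p : ℤ × ℤ // Half p} =>
      |(Real.sqrt (CL.q θ y p.1))⁻¹ * psi0 c (u + Real.log (CL.q θ y p.1))|) ∧
    ∑' p : {p : ℤ × ℤ // Half p},
      (Real.sqrt (CL.q θ y p.1))⁻¹ * psi0 c (u + Real.log (CL.q θ y p.1)) = GG c θ y u := by
  have hterm : ∀ p : {p : ℤ × ℤ // Half p},
      (Real.sqrt (CL.q θ y p.1))⁻¹ * psi0 c (u + Real.log (CL.q θ y p.1)) =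
      ∑ i : Fin 9, gam c i * (Real.exp ((u + (((i : ℕ) : ℝ) - 4) * c) / 2) *
        Real.exp (-(Real.pi * CL.q θ y p.1) * Real.exp (u + (((i : ℕ) : ℝ) - 4) * c))) :=
    fun p => psi0_log c u _ (q_pos θ y hy p.1 p.2)
  have hs : ∀ i : Fin 9, Summable (fun p : {p : ℤ × ℤ // Half p} =>
      gam c i * (Real.exp ((u + (((i : ℕ) : ℝ) - 4) * c) / 2) *
        Real.exp (-(Real.pi * CL.q θ y p.1) * Real.exp (u + (((i : ℕ) : ℝ) - 4) * c)))) :=
    fun i => ((half_summable θ y _ hy).mul_left _).mul_left _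
  refine ⟨?_, ?_⟩
  · refine Summable.abs ?_
    refine (summable_sum (s := Finset.univ) fun i _ => hs i).congr fun p => ?_
    exact (hterm p).symm
  · rw [tsum_congr hterm, Summable.tsum_finsetSum (fun i _ => hs i)]
    unfold GG opL
    have h0 := opL_exp_half c u
    unfold opL at h0
    have h1 : ∀ i : Fin 9, gam c i * Th θ y (u + (((i : ℕ) : ℝ) - 4) * c) =
        (1 / 2) * (gam c i * Real.exp ((u + (((i : ℕ) : ℝ) - 4) * c) / 2)) +
        ∑' p : {p : ℤ × ℤ // Half p}, gam c i * (Real.exp ((u + (((i : ℕ) : ℝ) - 4) * c) / 2) *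
        Real.exp (-(Real.pi * CL.q θ y p.1) * Real.exp (u + (((i : ℕ) : ℝ) - 4) * c))) := by
      intro i
      rw [Th_eq θ y _ hy, tsum_mul_left, tsum_mul_left]
      ring
    rw [Finset.sum_congr rfl fun i _ => h1 i, Finset.sum_add_distrib, ← Finset.mul_sum, h0]
    ring

omit [NumberField K] in
theorem dvd_iff_coe (T S : (Ideal (𝓞 K))⁰) : T ∣ S ↔ (T : Ideal (𝓞 K)) ∣ (S : Ideal (𝓞 K)) := by
  constructor
  · rintro ⟨C, rfl⟩
    exact ⟨C, rfl⟩
  · rintro ⟨C, hC⟩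
    have hC0 : C ≠ 0 := by
      rintro rfl
      rw [mul_zero] at hC
      exact nonZeroDivisors.ne_zero S.2 hC
    exact ⟨⟨C, mem_nonZeroDivisors_iff_ne_zero.2 hC0⟩, Subtype.ext hC⟩

theorem dvd_iff_mem (T H : (Ideal (𝓞 K))⁰) (n : ℤ) :
    (T : Ideal (𝓞 K)) ∣ Ideal.span {(n : 𝓞 K)} * (H : Ideal (𝓞 K)) ↔
      ∀ x ∈ (H : Ideal (𝓞 K)), (n : 𝓞 K) * x ∈ (T : Ideal (𝓞 K)) := by
  rw [Ideal.dvd_iff_le, Ideal.span_singleton_mul_le_iff]

theorem jm_spec (T H : (Ideal (𝓞 K))⁰) : 1 ≤ jm T H ∧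
    (T : Ideal (𝓞 K)) ∣ Ideal.span {((jm T H : ℕ) : 𝓞 K)} * (H : Ideal (𝓞 K)) := by
  have hne : {j : ℕ | 1 ≤ j ∧ (T : Ideal (𝓞 K)) ∣ Ideal.span {(j : 𝓞 K)} *
      (H : Ideal (𝓞 K))}.Nonempty := by
    refine ⟨nm K T, nm_pos T, ?_⟩
    rw [Ideal.dvd_iff_le, Ideal.span_singleton_mul_le_iff]
    intro z _
    exact Ideal.mul_mem_right _ _ (Ideal.absNorm_mem _)
  exact Nat.sInf_mem hne

set_option linter.unusedVariables false in
theorem jm_dvd {D : ℕ} (d : QD K D) (T H : (Ideal (𝓞 K))⁰) (r : ℕ) (hr : 1 ≤ r) :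
    T ∣ spn K r * H ↔ jm T H ∣ r := by
  obtain ⟨h1, h2⟩ := jm_spec T H
  have h2' := (dvd_iff_mem T H ((jm T H : ℕ) : ℤ)).1 (by rw [Int.cast_natCast]; exact h2)
  rw [dvd_iff_coe, Submonoid.coe_mul, spn_coe r hr]
  constructor
  · intro h3
    have h3' := (dvd_iff_mem T H (r : ℤ)).1 (by rw [Int.cast_natCast]; exact h3)
    by_contra hnd
    have hm : r % jm T H ≠ 0 := fun h => hnd (Nat.dvd_of_mod_eq_zero h)
    have hlt : r % jm T H < jm T H := Nat.mod_lt _ h1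
    have hmem : (r % jm T H) ∈ {j : ℕ | 1 ≤ j ∧ (T : Ideal (𝓞 K)) ∣ Ideal.span {(j : 𝓞 K)} *
      (H : Ideal (𝓞 K))} := by
      refine ⟨by omega, ?_⟩
      have := (dvd_iff_mem T H ((r % jm T H : ℕ) : ℤ)).2 (fun x hx => by
        have e : (((r % jm T H : ℕ) : ℤ) : 𝓞 K) * x = ((r : ℤ) : 𝓞 K) * x -
            ((r / jm T H : ℕ) : 𝓞 K) * ((((jm T H : ℕ) : ℤ) : 𝓞 K) * x) := by
          have e2 : ((r : ℕ) : 𝓞 K) = ((jm T H : ℕ) : 𝓞 K) * ((r / jm T H : ℕ) : 𝓞 K) +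
              ((r % jm T H : ℕ) : 𝓞 K) := by
            exact_mod_cast congrArg (Nat.cast (R := 𝓞 K)) (Nat.div_add_mod r (jm T H)).symm
          simp only [Int.cast_natCast]
          rw [e2]
          ring
        rw [e]
        exact Ideal.sub_mem _ (h3' x hx) (Ideal.mul_mem_left _ _ (h2' x hx)))
      rw [Int.cast_natCast] at this
      exact this
    exact absurd (Nat.sInf_le hmem) (not_le.2 hlt)
  · rintro ⟨k, hk⟩
    have := (dvd_iff_mem T H (r : ℤ)).2 (fun x hx => by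
      have e : (((r : ℕ) : ℤ) : 𝓞 K) * x = (k : 𝓞 K) * ((((jm T H : ℕ) : ℤ) : 𝓞 K) * x) := by
        rw [hk]
        push_cast
        ring
      rw [e]
      exact Ideal.mul_mem_left _ _ (h2' x hx))
    rw [Int.cast_natCast] at this
    exact this

theorem jm_pos {D : ℕ} (d : QD K D) (T H : (Ideal (𝓞 K))⁰) : 1 ≤ jm T H ∧ jm T H ∣ nm K T := by
  refine ⟨(jm_spec T H).1, ?_⟩
  rw [← jm_dvd d T H (nm K T) (nm_pos T), dvd_iff_coe, Submonoid.coe_mul, spn_coe _ (nm_pos T),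
    Ideal.dvd_iff_le, Ideal.span_singleton_mul_le_iff]
  intro z _
  exact Ideal.mul_mem_right _ _ (Ideal.absNorm_mem _)


namespace QD

variable {D : ℕ} (d : QD K D)

include d in
theorem sqrtD_pos : 0 < Real.sqrt D := by
  apply Real.sqrt_pos.2
  have := d.four_lt
  have h : 0 < D := by omega
  exact_mod_cast h

include d in
theorem qq_pos (I : (Ideal (𝓞 K))⁰) : 0 < qq D I := by
  unfold qq
  have h1 : (0 : ℝ) < nm K I := by exact_mod_cast nm_pos I
  have h2 := sqrtD_pos d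
  positivity

include d in
theorem gcl_summable (c : ℝ) (hc : 0 < c) (A : ClassGroup (𝓞 K)) (u : ℝ) :
    Summable (fun I : {I : (Ideal (𝓞 K))⁰ // ClassGroup.mk0 I = A} =>
      |(Real.sqrt (qq D I.1))⁻¹ * psi0 c (u + Real.log (qq D I.1))|) := by
  obtain ⟨C, κ, hC, hκ, hb⟩ := psi0_bound c hc
  have hsum := (summable_nm K d.h2 2 (by norm_num)).comp_injective
    (Subtype.val_injective : Function.Injective (fun I : {I : (Ideal (𝓞 K))⁰ //
      ClassGroup.mk0 I = A} => I.1))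
  have hD0 := sqrtD_pos d
  have hE := Real.exp_pos u
  refine Summable.of_nonneg_of_le (fun _ => abs_nonneg _) (fun I => ?_)
    (hsum.mul_left (C * Real.exp (u / 2) * (2 / (κ * Real.exp u * (2 / Real.sqrt D)) ^ 2)))
  have hq := qq_pos d I.1
  have hn : (0 : ℝ) < nm K I.1 := by exact_mod_cast nm_pos I.1
  rw [abs_mul, abs_of_pos (inv_pos.2 (Real.sqrt_pos.2 hq))]
  have h1 := hb (u + Real.log (qq D I.1))
  have h2 : Real.exp ((u + Real.log (qq D I.1)) / 2) =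
      Real.sqrt (qq D I.1) * Real.exp (u / 2) := by
    rw [Real.sqrt_eq_rpow, Real.rpow_def_of_pos hq, ← Real.exp_add]
    congr 1
    ring
  have h3 : Real.exp (u + Real.log (qq D I.1)) = qq D I.1 * Real.exp u := by
    rw [add_comm, Real.exp_add, Real.exp_log hq]
  rw [h2, h3] at h1
  have hs := Real.sqrt_pos.2 hq
  calc (Real.sqrt (qq D I.1))⁻¹ * |psi0 c (u + Real.log (qq D I.1))|
      ≤ (Real.sqrt (qq D I.1))⁻¹ * (C * (Real.sqrt (qq D I.1) * Real.exp (u / 2) *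
          Real.exp (-(κ * (qq D I.1 * Real.exp u))))) :=
        mul_le_mul_of_nonneg_left h1 (inv_nonneg.2 hs.le)
    _ = C * Real.exp (u / 2) * Real.exp (-(κ * (qq D I.1 * Real.exp u))) := by
        field_simp
    _ ≤ C * Real.exp (u / 2) * (2 / (κ * (qq D I.1 * Real.exp u)) ^ 2) := by
        refine mul_le_mul_of_nonneg_left ?_ (by positivity)
        have hx : 0 < κ * (qq D I.1 * Real.exp u) := by positivity
        rw [Real.exp_neg, ← one_div, div_le_div_iff₀ (Real.exp_pos _) (by positivity)]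
        have := Real.quadratic_le_exp_of_nonneg hx.le
        nlinarith
    _ = C * Real.exp (u / 2) * (2 / (κ * Real.exp u * (2 / Real.sqrt D)) ^ 2) *
          (nm K I.1 : ℝ) ^ (-2 : ℝ) := by
        have h5 : (nm K I.1 : ℝ) ^ (-2 : ℝ) = 1 / (nm K I.1 : ℝ) ^ 2 := by
          rw [Real.rpow_neg hn.le, one_div]
          norm_cast
        rw [h5]
        unfold qq
        field_simp

include d in
theorem gcl_inv (c : ℝ) (A : ClassGroup (𝓞 K)) (u : ℝ) : gcl c D A⁻¹ u = gcl c D A u := by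
  obtain ⟨f, hf⟩ := exists_inv_equiv K d.h2 A
  unfold gcl
  rw [← f.tsum_eq]
  refine tsum_congr fun I => ?_
  have : qq D (f I).1 = qq D I.1 := by
    unfold qq nm
    rw [hf I]
  rw [this]

theorem lattice_param (h : ℕ) (b₀ : ℤ) (hh : 1 ≤ h) (hb : (4 * (h : ℤ)) ∣ (D : ℤ) + b₀ ^ 2) :
    ∃ e : {p : ℤ × ℤ // Half p} ≃
        {I : (Ideal (𝓞 K))⁰ // ClassGroup.mk0 I = (ClassGroup.mk0 (d.J h b₀))⁻¹},
      ∀ p : {p : ℤ × ℤ // Half p}, (nm K (e p).1 : ℝ) =
        h * (((p.1.1 : ℝ) + p.1.2 * ((b₀ : ℝ) / (2 * h))) ^ 2 +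
          (p.1.2 : ℝ) ^ 2 * ((D : ℝ) / (4 * (h : ℝ) ^ 2))) := by
  classical
  set A : ClassGroup (𝓞 K) := (ClassGroup.mk0 (d.J h b₀))⁻¹ with hA
  set J : Ideal (𝓞 K) := (d.J h b₀ : Ideal (𝓞 K)) with hJdef
  have hJ : J ∈ (Ideal (𝓞 K))⁰ := (d.J h b₀).2
  have hJA : ClassGroup.mk0 ⟨J, hJ⟩ = A⁻¹ := by
    rw [hA, inv_inv]
  have hJa : Ideal.absNorm J = h := d.nm_J h b₀ hh hb
  obtain ⟨e0, he1, he2⟩ := d.half_spec hb
  set b : ℤ := (d.t - b₀) / 2 with hbdef
  have hb0 : b₀ = d.t - 2 * b := by linarith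
  have hhZ : (h : ℤ) ≠ 0 := by omega
  have hdisc := d.disc
  have hD4 : 4 < 4 * d.q - d.t ^ 2 := by
    rw [hdisc]
    exact_mod_cast d.four_lt
  let α : ℤ × ℤ → 𝓞 K := fun p => ((p.1 * h - p.2 * b : ℤ) : 𝓞 K) + (p.2 : 𝓞 K) * d.ω
  have hα_mem : ∀ p, α p ∈ J := by
    intro p
    rw [hJdef, d.J_mem h b₀ hh hb]
    exact ⟨p.1, p.2, rfl⟩
  have hα_zero : ∀ p, α p = 0 → p = 0 := by
    intro p hp
    obtain ⟨h1, h3⟩ := d.ind _ _ hp
    rw [h3, zero_mul, sub_zero] at h1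
    exact Prod.ext ((mul_eq_zero.mp h1).resolve_right hhZ) h3
  have hα_neg : ∀ p, α (-p) = -α p := by
    intro p
    simp only [α, Prod.fst_neg, Prod.snd_neg]
    push_cast
    ring
  have hα_inj : Function.Injective α := by
    intro p p' h'
    have h1 : α (p - p') = 0 := by
      have h3 : α (p - p') = α p - α p' := by
        simp only [α, Prod.fst_sub, Prod.snd_sub]
        push_cast
        ring
      rw [h3, h', sub_self]
    exact sub_eq_zero.mp (hα_zero _ h1)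
  have hα_surj : ∀ x ∈ J, ∃ p, α p = x := by
    intro x hx
    rw [hJdef, d.J_mem h b₀ hh hb] at hx
    obtain ⟨m, n, rfl⟩ := hx
    exact ⟨(m, n), rfl⟩
  have hα_norm : ∀ p, ((Ideal.absNorm (Ideal.span {α p}) : ℕ) : ℝ) =
      (h : ℝ) * (h * (((p.1 : ℝ) + p.2 * ((b₀ : ℝ) / (2 * h))) ^ 2 +
          (p.2 : ℝ) ^ 2 * ((D : ℝ) / (4 * (h : ℝ) ^ 2)))) := by
    intro p
    have haR : (h : ℝ) ≠ 0 := by exact_mod_cast hhZ
    rw [Ideal.absNorm_span_singleton, d.norm]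
    have h1 := form_nonneg (by linarith : 0 < 4 * d.q - d.t ^ 2) (p.1 * h - p.2 * b) p.2
    have h3 : ((((p.1 * h - p.2 * b) ^ 2 + d.t * (p.1 * h - p.2 * b) * p.2 +
        d.q * p.2 ^ 2).natAbs : ℕ) : ℝ) = (((p.1 * h - p.2 * b) ^ 2 +
          d.t * (p.1 * h - p.2 * b) * p.2 + d.q * p.2 ^ 2 : ℤ) : ℝ) := by
      rw [← Int.cast_natCast, Int.natAbs_of_nonneg h1]
    rw [h3]
    have hDr : (D : ℝ) = 4 * d.q - d.t ^ 2 := by exact_mod_cast hdisc.symm
    have hb0r : (b₀ : ℝ) = d.t - 2 * b := by exact_mod_cast hb0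
    rw [hDr, hb0r]
    push_cast
    field_simp
    ring
  have hI : ∀ p : {p : ℤ × ℤ // Half p}, ∃ I : (Ideal (𝓞 K))⁰, ClassGroup.mk0 I = A ∧
      J * (I : Ideal (𝓞 K)) = Ideal.span {α p.1} := by
    intro p
    exact exists_cofactor K A hJ hJA (hα_mem p.1) (fun h => half_ne_zero p.2 (hα_zero _ h))
  choose I hIA hIJ using hI
  have hJ0 : J ≠ 0 := nonZeroDivisors.ne_zero hJ
  let f : {p : ℤ × ℤ // Half p} → {I : (Ideal (𝓞 K))⁰ // ClassGroup.mk0 I = A} :=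
    fun p => ⟨I p, hIA p⟩
  have hinj : Function.Injective f := by
    intro p p' h
    have h1 : I p = I p' := congrArg Subtype.val h
    have h3 : Ideal.span {α p.1} = Ideal.span {α p'.1} := by rw [← hIJ, ← hIJ, h1]
    rw [Ideal.span_singleton_eq_span_singleton] at h3
    obtain ⟨u, hu⟩ := h3
    rcases unit_pm K d.span d.norm hD4 u with h4 | h4
    · rw [h4, mul_one] at hu
      exact Subtype.ext (hα_inj hu)
    · exfalso
      rw [h4, mul_neg, mul_one, ← hα_neg] at hu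
      have h5 := hα_inj hu
      have h6 := p'.2
      rw [← h5] at h6
      exact half_not_neg p.2 h6
  have hsurj : Function.Surjective f := by
    rintro ⟨I', hI'⟩
    have h1 : ClassGroup.mk0 I' = (ClassGroup.mk0 (⟨J, hJ⟩ : (Ideal (𝓞 K))⁰))⁻¹ := by
      rw [hJA, inv_inv, hI']
    obtain ⟨x, hx0, hx⟩ := ClassGroup.mk0_eq_mk0_inv_iff.mp h1
    have hx' : J * (I' : Ideal (𝓞 K)) = Ideal.span {x} := by
      rw [← hx, mul_comm]
    have hxJ : x ∈ J := by
      have : x ∈ J * (I' : Ideal (𝓞 K)) := by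
        rw [hx']
        exact Ideal.mem_span_singleton_self x
      exact Ideal.mul_le_left this
    obtain ⟨p, hp⟩ := hα_surj x hxJ
    have hp0 : p ≠ 0 := by
      rintro rfl
      have h4 : α 0 = 0 := by simp [α]
      exact hx0 (hp.symm.trans h4)
    rcases half_or p hp0 with h4 | h4
    · refine ⟨⟨p, h4⟩, Subtype.ext (Subtype.ext ?_)⟩
      refine mul_left_cancel₀ hJ0 ?_
      rw [hx', ← hp]
      exact hIJ ⟨p, h4⟩
    · refine ⟨⟨-p, h4⟩, Subtype.ext (Subtype.ext ?_)⟩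
      refine mul_left_cancel₀ hJ0 ?_
      rw [hx', ← hp]
      refine (hIJ ⟨-p, h4⟩).trans ?_
      change Ideal.span {α (-p)} = _
      rw [hα_neg, Ideal.span_singleton_neg]
  refine ⟨Equiv.ofBijective f ⟨hinj, hsurj⟩, ?_⟩
  intro p
  have h1 := hα_norm p.1
  rw [← hIJ p, map_mul, hJa, Nat.cast_mul] at h1
  have haR : (h : ℝ) ≠ 0 := by exact_mod_cast hhZ
  exact mul_left_cancel₀ haR h1

include d in
theorem yy_pos (h : ℕ) (hh : 1 ≤ h) : 0 < yy D h := by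
  unfold yy
  have h1 : (0 : ℝ) < h := by exact_mod_cast hh
  have h2 := sqrtD_pos d
  positivity

theorem gcl_eq (c : ℝ) (hc : 0 < c) (h : ℕ) (b : ℤ) (hh : 1 ≤ h)
    (hb : (4 * (h : ℤ)) ∣ (D : ℤ) + b ^ 2) (u : ℝ) :
    gcl c D (ClassGroup.mk0 (d.J h b)) u = GG c ((b : ℝ) / (2 * h)) (yy D h) u := by
  obtain ⟨e, he⟩ := d.lattice_param h b hh hb
  rw [← d.gcl_inv, ← (half_GG c hc ((b : ℝ) / (2 * h)) (yy D h) u (d.yy_pos h hh)).2]
  unfold gcl
  rw [← e.tsum_eq]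
  refine tsum_congr fun p => ?_
  have hq : qq D (e p).1 = CL.q ((b : ℝ) / (2 * h)) (yy D h) p.1 := by
    unfold qq CL.q
    rw [he p]
    have h0 := sqrtD_pos d
    have h1 : (0 : ℝ) < h := by exact_mod_cast hh
    have h2 : yy D h ^ 2 = (D : ℝ) / (4 * (h : ℝ) ^ 2) := by
      unfold yy
      rw [div_pow, Real.sq_sqrt (Nat.cast_nonneg _)]
      congr 1
      ring
    rw [h2]
    unfold yy
    field_simp
  rw [hq]

theorem mk0_spnJ (r h : ℕ) (b : ℤ) :
    ClassGroup.mk0 (spn K r * d.J h b) = ClassGroup.mk0 (d.J h b) := by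
  rw [map_mul, mk0_spn, one_mul]

open Classical in
/-- Index set of the unfolded sum. -/
abbrev UIdx (C : ClassGroup (𝓞 K)) : Type :=
  Σ h : ℕ, Σ _ : {b // b ∈ (rts h D).filter (fun b => ClassGroup.mk0 (d.J h b) = C)}, ℕ

theorem uidx_pos {C : ClassGroup (𝓞 K)} (x : d.UIdx C) : 1 ≤ x.1 := by
  classical
  obtain ⟨h, ⟨b, hb⟩, n⟩ := x
  rw [Finset.mem_filter, rts, Finset.mem_filter, Finset.mem_Ico] at hb
  show 1 ≤ h
  omega

/-- The ideals of the class `C[T]⁻¹`. -/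
theorem exists_unfold (C : ClassGroup (𝓞 K)) (T : (Ideal (𝓞 K))⁰) :
    ∃ e : d.UIdx C ≃ {I : (Ideal (𝓞 K))⁰ // ClassGroup.mk0 I = C * (ClassGroup.mk0 T)⁻¹},
      ∀ x : d.UIdx C, T * (e x).1 =
        spn K (jm T (d.J x.1 x.2.1.1) * (x.2.2 + 1)) * d.J x.1 x.2.1.1 := by
  classical
  have hex : ∀ x : d.UIdx C, ∃ I : (Ideal (𝓞 K))⁰,
      ClassGroup.mk0 I = C * (ClassGroup.mk0 T)⁻¹ ∧
      T * I = spn K (jm T (d.J x.1 x.2.1.1) * (x.2.2 + 1)) * d.J x.1 x.2.1.1 := by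
    rintro ⟨h, ⟨b, hb⟩, n⟩
    have hj := (jm_pos d T (d.J h b)).1
    have hr : 1 ≤ jm T (d.J h b) * (n + 1) := Nat.mul_pos hj (Nat.succ_pos n)
    obtain ⟨I, hI⟩ := (jm_dvd d T (d.J h b) _ hr).2 (Dvd.intro (n + 1) rfl)
    refine ⟨I, ?_, hI.symm⟩
    have h1 := congrArg (fun x => ClassGroup.mk0 x) hI
    simp only [map_mul] at h1
    rw [mk0_spn, one_mul, (Finset.mem_filter.1 hb).2] at h1
    rw [h1, mul_comm (ClassGroup.mk0 T), mul_assoc, mul_inv_cancel, mul_one]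
  choose I hI1 hI2 using hex
  have hinj : Function.Injective (fun x : d.UIdx C =>
      (⟨I x, hI1 x⟩ : {I : (Ideal (𝓞 K))⁰ // ClassGroup.mk0 I = C * (ClassGroup.mk0 T)⁻¹})) := by
    rintro x x' hxx
    have h1 : I x = I x' := congrArg Subtype.val hxx
    have h2 : spn K (jm T (d.J x.1 x.2.1.1) * (x.2.2 + 1)) * d.J x.1 x.2.1.1 =
        spn K (jm T (d.J x'.1 x'.2.1.1) * (x'.2.2 + 1)) * d.J x'.1 x'.2.1.1 := by
      rw [← hI2, ← hI2, h1]
    have hp := d.uidx_pos x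
    have hp' := d.uidx_pos x'
    obtain ⟨h, ⟨b, hb⟩, n⟩ := x
    obtain ⟨h', ⟨b', hb'⟩, n'⟩ := x'
    have hj := (jm_pos d T (d.J h b)).1
    have hj' := (jm_pos d T (d.J h' b')).1
    obtain ⟨e1, e2, e3⟩ := d.decomp_inj (Nat.mul_pos hj (Nat.succ_pos n))
      (Nat.mul_pos hj' (Nat.succ_pos n')) hp hp' (Finset.mem_filter.1 hb).1
      (Finset.mem_filter.1 hb').1 h2
    simp only at e1 e2 e3
    subst e2 e3
    have e4 : n = n' := by
      have := Nat.eq_of_mul_eq_mul_left hj e1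
      omega
    subst e4
    rfl
  have hsurj : Function.Surjective (fun x : d.UIdx C =>
      (⟨I x, hI1 x⟩ : {I : (Ideal (𝓞 K))⁰ // ClassGroup.mk0 I = C * (ClassGroup.mk0 T)⁻¹})) := by
    rintro ⟨I', hI'⟩
    obtain ⟨r, h, b, hr, hh, hb, he⟩ := d.decomp_surj (T * I')
    have hcl : ClassGroup.mk0 (d.J h b) = C := by
      rw [← d.mk0_spnJ r h b, he, map_mul, hI', mul_comm, mul_assoc, inv_mul_cancel, mul_one]
    have hjd : jm T (d.J h b) ∣ r := (jm_dvd d T (d.J h b) r hr).1 (by rw [he]; exact Dvd.intro _ rfl)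
    obtain ⟨k, hk⟩ := hjd
    have hk1 : 1 ≤ k := by
      rcases Nat.eq_zero_or_pos k with h0 | h0
      · rw [h0, mul_zero] at hk; omega
      · exact h0
    refine ⟨⟨h, ⟨b, Finset.mem_filter.2 ⟨hb, hcl⟩⟩, k - 1⟩, Subtype.ext ?_⟩
    have h3 := hI2 ⟨h, ⟨b, Finset.mem_filter.2 ⟨hb, hcl⟩⟩, k - 1⟩
    simp only at h3
    rw [Nat.sub_add_cancel hk1, ← hk, he] at h3
    exact mul_left_cancel h3
  exact ⟨Equiv.ofBijective _ ⟨hinj, hsurj⟩, fun x => hI2 x⟩

include d in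
theorem term_eq (c : ℝ) (T I : (Ideal (𝓞 K))⁰) (u : ℝ) (r h : ℕ) (b : ℤ) (j n : ℕ) (hj : 1 ≤ j)
    (hh : 1 ≤ h) (hb : b ∈ rts h D) (hr : r = j * (n + 1)) (he : T * I = spn K r * d.J h b) :
    (Real.sqrt (qq D I))⁻¹ * psi0 c (u + Real.log (qq D I)) =
      Real.sqrt (nm K T) * (Real.sqrt (yy D h) / j) * ((1 / ((n : ℝ) + 1)) *
        psi0 c ((u + 2 * Real.log j - Real.log (nm K T) - Real.log (yy D h)) +
          2 * Real.log ((n : ℝ) + 1))) := by
  have hb4 := (Finset.mem_filter.1 hb).2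
  have hr1 : 1 ≤ r := by rw [hr]; exact Nat.mul_pos hj (Nat.succ_pos n)
  have h1 := congrArg (fun x => nm K x) he
  simp only [nm_mul] at h1
  rw [nm_spn d.h2 r hr1, d.nm_J h b hh hb4] at h1
  have hT : (0 : ℝ) < nm K T := by exact_mod_cast nm_pos T
  have hy := d.yy_pos h hh
  have hD0 := sqrtD_pos d
  have hh0 : (0 : ℝ) < h := by exact_mod_cast hh
  have hj0 : (0 : ℝ) < j := by exact_mod_cast hj
  have hn0 : (0 : ℝ) < (n : ℝ) + 1 := by positivity
  have hr0 : (r : ℝ) = j * ((n : ℝ) + 1) := by rw [hr]; push_cast; ring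
  have h1' : (nm K T : ℝ) * nm K I = (r : ℝ) ^ 2 * h := by exact_mod_cast h1
  have hq : qq D I = (r : ℝ) ^ 2 / (nm K T * yy D h) := by
    unfold qq yy
    have h2 : (nm K I : ℝ) = (r : ℝ) ^ 2 * h / nm K T := by
      field_simp
      linarith
    rw [h2]
    field_simp
  have hr00 : (0 : ℝ) < r := by rw [hr0]; positivity
  have hsq : Real.sqrt (qq D I) = r / (Real.sqrt (nm K T) * Real.sqrt (yy D h)) := by
    rw [hq, Real.sqrt_div (sq_nonneg _), Real.sqrt_sq hr00.le, Real.sqrt_mul hT.le]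
  have hlog : Real.log (qq D I) = 2 * Real.log j + 2 * Real.log ((n : ℝ) + 1) -
      Real.log (nm K T) - Real.log (yy D h) := by
    rw [hq, Real.log_div (by positivity) (by positivity), Real.log_mul hT.ne' hy.ne',
      Real.log_pow, hr0, Real.log_mul hj0.ne' hn0.ne']
    push_cast
    ring
  rw [hsq, hlog, hr0]
  have e : u + (2 * Real.log j + 2 * Real.log ((n : ℝ) + 1) - Real.log (nm K T) -
      Real.log (yy D h)) = (u + 2 * Real.log j - Real.log (nm K T) - Real.log (yy D h)) +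
          2 * Real.log ((n : ℝ) + 1) := by ring
  rw [e]
  have hsT := Real.sqrt_pos.2 hT
  have hsy := Real.sqrt_pos.2 hy
  field_simp

open Classical in
theorem unfold_gcl (c : ℝ) (hc : 0 < c) (C : ClassGroup (𝓞 K)) (T : (Ideal (𝓞 K))⁰) (u : ℝ) :
    Summable (fun h : ℕ => ∑ b ∈ rts h D, if ClassGroup.mk0 (d.J h b) = C then
      |Real.sqrt (nm K T) * (Real.sqrt (yy D h) / jm T (d.J h b)) *
        Psi c (u + 2 * Real.log (jm T (d.J h b)) - Real.log (nm K T) - Real.log (yy D h))|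
      else 0) ∧
    gcl c D (C * (ClassGroup.mk0 T)⁻¹) u =
      ∑' h : ℕ, ∑ b ∈ rts h D, if ClassGroup.mk0 (d.J h b) = C then
        Real.sqrt (nm K T) * (Real.sqrt (yy D h) / jm T (d.J h b)) *
          Psi c (u + 2 * Real.log (jm T (d.J h b)) - Real.log (nm K T) - Real.log (yy D h))
        else 0 := by
  obtain ⟨e, he⟩ := d.exists_unfold C T
  have hs := d.gcl_summable c hc (C * (ClassGroup.mk0 T)⁻¹) u
  set F : {I : (Ideal (𝓞 K))⁰ // ClassGroup.mk0 I = C * (ClassGroup.mk0 T)⁻¹} → ℝ :=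
    fun I => (Real.sqrt (qq D I.1))⁻¹ * psi0 c (u + Real.log (qq D I.1)) with hF
  have hsa : Summable (fun x : d.UIdx C => |F (e x)|) := (e.summable_iff (f := fun I => |F I|)).2 hs
  have hsF : Summable (fun x : d.UIdx C => F (e x)) := hsa.of_abs
  have hterm : ∀ x : d.UIdx C, F (e x) =
      Real.sqrt (nm K T) * (Real.sqrt (yy D x.1) / jm T (d.J x.1 x.2.1.1)) *
        ((1 / ((x.2.2 : ℝ) + 1)) * psi0 c ((u + 2 * Real.log (jm T (d.J x.1 x.2.1.1)) -
          Real.log (nm K T) - Real.log (yy D x.1)) + 2 * Real.log ((x.2.2 : ℝ) + 1))) := by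
    intro x
    have hp := d.uidx_pos x
    exact d.term_eq c T (e x).1 u _ x.1 x.2.1.1 (jm T (d.J x.1 x.2.1.1)) x.2.2
      (jm_pos d T (d.J x.1 x.2.1.1)).1 hp (Finset.mem_filter.1 x.2.1.2).1 rfl (he x)
  -- the value for each (h, b)
  set G : (h : ℕ) → ℤ → ℝ := fun h b =>
    Real.sqrt (nm K T) * (Real.sqrt (yy D h) / jm T (d.J h b)) *
      Psi c (u + 2 * Real.log (jm T (d.J h b)) - Real.log (nm K T) - Real.log (yy D h)) with hG
  have hinner : ∀ (h : ℕ) (b : {b // b ∈ (rts h D).filter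
      (fun b => ClassGroup.mk0 (d.J h b) = C)}),
      HasSum (fun n : ℕ => F (e ⟨h, b, n⟩)) (G h b.1) := by
    intro h b
    have h1 := (Psi_hasSum c (u + 2 * Real.log (jm T (d.J h b.1)) - Real.log (nm K T) -
      Real.log (yy D h))).mul_left (Real.sqrt (nm K T) * (Real.sqrt (yy D h) / jm T (d.J h b.1)))
    refine h1.congr_fun ?_
    intro n
    exact hterm ⟨h, b, n⟩
  have hmid : ∀ h : ℕ, HasSum (fun y : (Σ _ : {b // b ∈ (rts h D).filter
      (fun b => ClassGroup.mk0 (d.J h b) = C)}, ℕ) => F (e ⟨h, y⟩))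
      (∑ b ∈ rts h D, if ClassGroup.mk0 (d.J h b) = C then G h b else 0) := by
    intro h
    have hs1 : Summable (fun y : (Σ _ : {b // b ∈ (rts h D).filter
      (fun b => ClassGroup.mk0 (d.J h b) = C)}, ℕ) => F (e ⟨h, y⟩)) := hsF.sigma_factor h
    have h2 := hs1.hasSum.sigma (fun b => hinner h b)
    have h3 := h2.unique (hasSum_fintype _)
    rw [← Finset.sum_filter, ← Finset.sum_coe_sort]
    have h4 : ∑ b : {b // b ∈ (rts h D).filter (fun b => ClassGroup.mk0 (d.J h b) = C)}, G h b.1 =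
        ∑' y : (Σ _ : {b // b ∈ (rts h D).filter
      (fun b => ClassGroup.mk0 (d.J h b) = C)}, ℕ), F (e ⟨h, y⟩) := h3.symm
    rw [h4]
    exact hs1.hasSum
  refine ⟨?_, ?_⟩
  · -- absolute summability
    have habs : Summable (fun h : ℕ => ∑' y : (Σ _ : {b // b ∈ (rts h D).filter
      (fun b => ClassGroup.mk0 (d.J h b) = C)}, ℕ), |F (e ⟨h, y⟩)|) := hsa.sigma
    refine Summable.of_nonneg_of_le (fun h => Finset.sum_nonneg fun b _ => ?_) (fun h => ?_) habs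
    · split_ifs
      · exact abs_nonneg _
      · exact le_refl _
    · have hs1 : Summable (fun y : (Σ _ : {b // b ∈ (rts h D).filter
        (fun b => ClassGroup.mk0 (d.J h b) = C)}, ℕ) => |F (e ⟨h, y⟩)|) := hsa.sigma_factor h
      rw [hs1.tsum_sigma, tsum_fintype, ← Finset.sum_filter, ← Finset.sum_coe_sort
        ((rts h D).filter (fun b => ClassGroup.mk0 (d.J h b) = C)) (fun b => |G h b|)]
      refine Finset.sum_le_sum fun b _ => ?_
      rw [← (hinner h b).tsum_eq]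
      have hs2 : Summable (fun n : ℕ => |F (e ⟨h, b, n⟩)|) := hs1.sigma_factor b
      have := norm_tsum_le_tsum_norm (f := fun n : ℕ => F (e ⟨h, b, n⟩)) hs2
      exact this
  · have h1 : gcl c D (C * (ClassGroup.mk0 T)⁻¹) u = ∑' x : d.UIdx C, F (e x) := by
      unfold gcl
      exact (e.tsum_eq F).symm
    rw [h1, hsF.tsum_sigma]
    exact tsum_congr fun h => (hmid h).tsum_eq

end QD

end Pool.Hhelper76.SC
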