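import Pool.Agent.Hhelper76.SC.NDefs
import Pool.Agent.Hhelper76.SC.AlCoef
import Pool.Agent.Hhelper76.SC.EulerMulti
import Pool.Agent.Hhelper76.CL.Forms

/-!
# SC module N0 (IdealMul): the coefficients `alI` on ideals, conjugation, Euler product over ideals

`alI`: product over the prime factorisation. `exists_cj`: `cj I` is the ideal of `CL.exists_conj`
(`I · cj I = (N I)`, class inverse). `euler_ideals`: Euler products over ideals, from
`euler_finsupp` and the bijection between finitely supported functions on the primes and ideals.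
-/

open scoped NumberField nonZeroDivisors
open Pool.Hhelper85.CZ Filter Topology

namespace Pool.Hhelper76.SC

variable {K : Type} [Field K] [NumberField K]

namespace IM

open UniqueFactorizationMonoid

open Classical in
/-- multiplicity of `P` in `I` -/
noncomputable def cnt (P I : Ideal (𝓞 K)) : ℕ := (normalizedFactors I).count P

theorem cnt_ne_zero {P I : Ideal (𝓞 K)} (h : cnt P I ≠ 0) : Prime P ∧ P ∣ I := by
  classical
  have h1 : P ∈ normalizedFactors I := by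
    unfold cnt at h
    exact Multiset.count_ne_zero.1 h
  exact ⟨prime_of_normalized_factor _ h1, dvd_of_mem_normalizedFactors h1⟩

theorem cnt_finite (I : Ideal (𝓞 K)) : {P : Ideal (𝓞 K) | cnt P I ≠ 0}.Finite := by
  classical
  apply (normalizedFactors I).toFinset.finite_toSet.subset
  intro P hP
  have h : cnt P I ≠ 0 := hP
  unfold cnt at h
  exact Finset.mem_coe.2 (Multiset.mem_toFinset.2 (Multiset.count_ne_zero.1 h))

theorem cnt_mul (P : Ideal (𝓞 K)) {I J : Ideal (𝓞 K)} (hI : I ≠ 0) (hJ : J ≠ 0) :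
    cnt P (I * J) = cnt P I + cnt P J := by
  unfold cnt
  rw [normalizedFactors_mul hI hJ, Multiset.count_add]

theorem cnt_one (P : Ideal (𝓞 K)) : cnt P 1 = 0 := by
  unfold cnt
  rw [normalizedFactors_one]; simp

theorem cnt_prime_pow {P : Ideal (𝓞 K)} (hP : Prime P) (Q : Ideal (𝓞 K)) (e : ℕ) :
    cnt Q (P ^ e) = if Q = P then e else 0 := by
  classical
  unfold cnt
  rw [normalizedFactors_pow, normalizedFactors_irreducible hP.irreducible, Multiset.count_nsmul,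
    normalize_eq, Multiset.count_singleton]
  split_ifs <;> simp

theorem alI_eq (I : (Ideal (𝓞 K))⁰) (S : Finset (Ideal (𝓞 K)))
    (hS : ∀ P, cnt P (I : Ideal (𝓞 K)) ≠ 0 → P ∈ S) :
    alI I = ∏ P ∈ S, al (cnt P (I : Ideal (𝓞 K))) := by
  unfold alI
  apply Finset.prod_subset
  · intro P hP
    apply hS
    unfold cnt
    rw [Multiset.mem_toFinset] at hP
    exact Multiset.count_ne_zero.2 hP
  · intro P _ hP
    rw [Multiset.mem_toFinset] at hP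
    rw [Multiset.count_eq_zero.2 hP, al_zero]

omit [NumberField K] in
theorem ne0 (I : (Ideal (𝓞 K))⁰) : (I : Ideal (𝓞 K)) ≠ 0 := nonZeroDivisors.ne_zero I.2

theorem ext_cnt {I J : (Ideal (𝓞 K))⁰}
    (h : ∀ P : Ideal (𝓞 K), cnt P (I : Ideal (𝓞 K)) = cnt P (J : Ideal (𝓞 K))) : I = J := by
  classical
  have h1 : normalizedFactors (I : Ideal (𝓞 K)) = normalizedFactors (J : Ideal (𝓞 K)) := by
    ext P
    have := h P
    unfold cnt at this
    exact this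
  apply Subtype.ext
  rw [← Ideal.prod_normalizedFactors_eq_self (ne0 I), ← Ideal.prod_normalizedFactors_eq_self (ne0 J),
    h1]

theorem prime_iff {P : (Ideal (𝓞 K))⁰} : (P : Ideal (𝓞 K)).IsPrime ↔ Prime (P : Ideal (𝓞 K)) :=
  (Ideal.prime_iff_isPrime (ne0 P)).symm

end IM

open IM

theorem alI_one : alI (1 : (Ideal (𝓞 K))⁰) = 1 := by
  rw [alI_eq 1 ∅ (fun P hP => absurd (cnt_one P) hP)]
  simp

theorem alI_mul (I J : (Ideal (𝓞 K))⁰) (h : IsCoprime (I : Ideal (𝓞 K)) (J : Ideal (𝓞 K))) :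
    alI (I * J) = alI I * alI J := by
  classical
  set S := (cnt_finite (I : Ideal (𝓞 K))).toFinset ∪ (cnt_finite (J : Ideal (𝓞 K))).toFinset with hS
  have hI : ∀ P, cnt P (I : Ideal (𝓞 K)) ≠ 0 → P ∈ S := by
    intro P hP
    simp only [hS, Finset.mem_union, Set.Finite.mem_toFinset]
    exact Or.inl hP
  have hJ : ∀ P, cnt P (J : Ideal (𝓞 K)) ≠ 0 → P ∈ S := by
    intro P hP
    simp only [hS, Finset.mem_union, Set.Finite.mem_toFinset]
    exact Or.inr hP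
  have hcm : ∀ P, cnt P ((I * J : (Ideal (𝓞 K))⁰) : Ideal (𝓞 K)) =
      cnt P (I : Ideal (𝓞 K)) + cnt P (J : Ideal (𝓞 K)) := by
    intro P
    rw [Submonoid.coe_mul, cnt_mul P (ne0 I) (ne0 J)]
  have hIJ : ∀ P, cnt P ((I * J : (Ideal (𝓞 K))⁰) : Ideal (𝓞 K)) ≠ 0 → P ∈ S := by
    intro P hP
    rw [hcm] at hP
    by_cases h1 : cnt P (I : Ideal (𝓞 K)) = 0
    · exact hJ P (by omega)
    · exact hI P h1
  rw [alI_eq _ S hIJ, alI_eq _ S hI, alI_eq _ S hJ, ← Finset.prod_mul_distrib]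
  apply Finset.prod_congr rfl
  intro P _
  rw [hcm]
  by_cases h1 : cnt P (I : Ideal (𝓞 K)) = 0
  · rw [h1, al_zero]; simp
  by_cases h2 : cnt P (J : Ideal (𝓞 K)) = 0
  · rw [h2, al_zero]; simp
  exfalso
  obtain ⟨hp1, hd1⟩ := cnt_ne_zero h1
  obtain ⟨_, hd2⟩ := cnt_ne_zero h2
  obtain ⟨a, b, hab⟩ := h
  apply hp1.not_isUnit
  apply isUnit_of_dvd_one
  rw [← hab]
  exact dvd_add (hd1.mul_left a) (hd2.mul_left b)

theorem alI_prime_pow (P : (Ideal (𝓞 K))⁰) (hP : (P : Ideal (𝓞 K)).IsPrime) (e : ℕ) :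
    alI (P ^ e) = al e := by
  have hc : ∀ Q : Ideal (𝓞 K), cnt Q ((P ^ e : (Ideal (𝓞 K))⁰) : Ideal (𝓞 K)) =
      if Q = (P : Ideal (𝓞 K)) then e else 0 := by
    intro Q
    rw [SubmonoidClass.coe_pow, cnt_prime_pow (prime_iff.1 hP)]
  rw [alI_eq (P ^ e) {(P : Ideal (𝓞 K))}, Finset.prod_singleton, hc, if_pos rfl]
  intro Q hQ
  rw [hc] at hQ
  rw [Finset.mem_singleton]
  by_contra hne
  exact hQ (if_neg hne)

theorem abs_alI_le (I : (Ideal (𝓞 K))⁰) : |alI I| ≤ 1 := by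
  unfold alI
  rw [Finset.abs_prod]
  apply Finset.prod_le_one
  · intro P _; exact abs_nonneg _
  · intro P _; exact abs_al_le _

namespace IM

theorem spn_eq (n : ℕ) (hn : n ≠ 0) : ((spn K n : (Ideal (𝓞 K))⁰) : Ideal (𝓞 K)) =
    Ideal.span {(n : 𝓞 K)} := by
  unfold spn
  rw [dif_pos]
  apply mem_nonZeroDivisors_of_ne_zero
  rw [Ne, Ideal.zero_eq_bot, Ideal.span_singleton_eq_bot]
  exact Nat.cast_ne_zero.2 hn

theorem coprime_of_no_prime {I J : Ideal (𝓞 K)} (hI : I ≠ 0)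
    (h : ∀ Q : Ideal (𝓞 K), Prime Q → Q ∣ I → ¬ Q ∣ J) : IsCoprime I J := by
  rw [Ideal.isCoprime_iff_sup_eq]
  by_contra hne
  obtain ⟨M, hM, hle⟩ := Ideal.exists_le_maximal _ hne
  have h1 : I ≤ M := le_sup_left.trans hle
  have h2 : J ≤ M := le_sup_right.trans hle
  have hM0 : M ≠ ⊥ := by
    rintro rfl
    exact hI (le_bot_iff.1 h1)
  exact h M ((Ideal.prime_iff_isPrime hM0).2 hM.isPrime) (Ideal.dvd_iff_le.2 h1)
    (Ideal.dvd_iff_le.2 h2)

/-- an involutive norm preserving multiplicative map preserves `alI` -/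
theorem alI_of_aut (cj : (Ideal (𝓞 K))⁰ → (Ideal (𝓞 K))⁰) (hcc : ∀ I, cj (cj I) = I)
    (hnm : ∀ I, nm K (cj I) = nm K I) (hmul : ∀ I J, cj (I * J) = cj I * cj J)
    (I : (Ideal (𝓞 K))⁰) : alI (cj I) = alI I := by
  have hone : cj 1 = 1 := by
    rw [← nm_eq_one_iff, hnm, nm_one]
  let cjh : (Ideal (𝓞 K))⁰ →* (Ideal (𝓞 K))⁰ := ⟨⟨cj, hone⟩, hmul⟩
  have hpow : ∀ (I : (Ideal (𝓞 K))⁰) (n : ℕ), cj (I ^ n) = cj I ^ n := fun I n => map_pow cjh I n
  have hprime : ∀ P : (Ideal (𝓞 K))⁰, Prime (P : Ideal (𝓞 K)) → Prime (cj P : Ideal (𝓞 K)) := by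
    intro P hP
    rw [← irreducible_iff_prime]
    constructor
    · intro hu
      have h1 : (cj P : Ideal (𝓞 K)) = 1 := (Ideal.isUnit_iff.1 hu).trans Ideal.one_eq_top.symm
      have h2 : cj P = 1 := Subtype.ext h1
      have h3 : P = 1 := by rw [← hcc P, h2, hone]
      apply hP.not_isUnit
      rw [h3]
      exact isUnit_one
    · intro A B hAB
      have hA0 : A ∈ (Ideal (𝓞 K))⁰ := mem_nonZeroDivisors_of_ne_zero (by
        rintro rfl
        rw [zero_mul] at hAB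
        exact ne0 _ hAB)
      have hB0 : B ∈ (Ideal (𝓞 K))⁰ := mem_nonZeroDivisors_of_ne_zero (by
        rintro rfl
        rw [mul_zero] at hAB
        exact ne0 _ hAB)
      have h1 : cj P = ⟨A, hA0⟩ * ⟨B, hB0⟩ := Subtype.ext hAB
      have h2 : P = cj ⟨A, hA0⟩ * cj ⟨B, hB0⟩ := by rw [← hmul, ← h1, hcc]
      have h3 : (P : Ideal (𝓞 K)) = (cj ⟨A, hA0⟩ : Ideal (𝓞 K)) * (cj ⟨B, hB0⟩ : Ideal (𝓞 K)) := by
        conv_lhs => rw [h2]
        rfl
      rcases hP.irreducible.isUnit_or_isUnit h3 with h4 | h4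
      · left
        have h5 : cj ⟨A, hA0⟩ = 1 := Subtype.ext ((Ideal.isUnit_iff.1 h4).trans Ideal.one_eq_top.symm)
        have h6 : (⟨A, hA0⟩ : (Ideal (𝓞 K))⁰) = 1 := by rw [← hcc ⟨A, hA0⟩, h5, hone]
        have h7 : A = 1 := congrArg Subtype.val h6
        rw [h7]; exact isUnit_one
      · right
        have h5 : cj ⟨B, hB0⟩ = 1 := Subtype.ext ((Ideal.isUnit_iff.1 h4).trans Ideal.one_eq_top.symm)
        have h6 : (⟨B, hB0⟩ : (Ideal (𝓞 K))⁰) = 1 := by rw [← hcc ⟨B, hB0⟩, h5, hone]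
        have h7 : B = 1 := congrArg Subtype.val h6
        rw [h7]; exact isUnit_one
  have hdvd : ∀ P I : (Ideal (𝓞 K))⁰, (P : Ideal (𝓞 K)) ∣ (I : Ideal (𝓞 K)) →
      (cj P : Ideal (𝓞 K)) ∣ (cj I : Ideal (𝓞 K)) := by
    rintro P I ⟨B, hB⟩
    have hB0 : B ∈ (Ideal (𝓞 K))⁰ := mem_nonZeroDivisors_of_ne_zero (by
      rintro rfl
      rw [mul_zero] at hB
      exact ne0 _ hB)
    have h1 : I = P * ⟨B, hB0⟩ := Subtype.ext hB
    refine ⟨cj ⟨B, hB0⟩, ?_⟩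
    rw [h1, hmul]
    rfl
  have key : ∀ A : Ideal (𝓞 K), ∀ hA : A ∈ (Ideal (𝓞 K))⁰, alI (cj ⟨A, hA⟩) = alI ⟨A, hA⟩ := by
    intro A
    induction A using UniqueFactorizationMonoid.induction_on_coprime with
    | h0 =>
      intro hA
      exact absurd rfl (nonZeroDivisors.ne_zero hA)
    | @h1 x hx =>
      intro hA
      have h2 : (⟨x, hA⟩ : (Ideal (𝓞 K))⁰) = 1 := Subtype.ext ((Ideal.isUnit_iff.1 hx).trans Ideal.one_eq_top.symm)
      rw [h2, hone]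
    | @hpr p i hp =>
      intro hA
      have hp0 : p ∈ (Ideal (𝓞 K))⁰ := mem_nonZeroDivisors_of_ne_zero hp.ne_zero
      have h2 : (⟨p ^ i, hA⟩ : (Ideal (𝓞 K))⁰) = (⟨p, hp0⟩ : (Ideal (𝓞 K))⁰) ^ i := rfl
      rw [h2, hpow, alI_prime_pow _ (prime_iff.2 (hprime ⟨p, hp0⟩ hp)),
        alI_prime_pow _ (prime_iff.2 hp)]
    | @hcp x y hxy hx hy =>
      intro hA
      have hx0 : x ∈ (Ideal (𝓞 K))⁰ := mem_nonZeroDivisors_of_ne_zero (by
        rintro rfl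
        rw [zero_mul] at hA
        exact absurd rfl (nonZeroDivisors.ne_zero hA))
      have hy0 : y ∈ (Ideal (𝓞 K))⁰ := mem_nonZeroDivisors_of_ne_zero (by
        rintro rfl
        rw [mul_zero] at hA
        exact absurd rfl (nonZeroDivisors.ne_zero hA))
      have h2 : (⟨x * y, hA⟩ : (Ideal (𝓞 K))⁰) = ⟨x, hx0⟩ * ⟨y, hy0⟩ := rfl
      have h3 : IsCoprime x y := coprime_of_no_prime (nonZeroDivisors.ne_zero hx0)
        (fun Q hQ h4 h5 => hQ.not_isUnit (hxy h4 h5))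
      have h4 : IsCoprime (cj ⟨x, hx0⟩ : Ideal (𝓞 K)) (cj ⟨y, hy0⟩ : Ideal (𝓞 K)) := by
        apply coprime_of_no_prime (ne0 _)
        intro Q hQ h5 h6
        have hQ0 : Q ∈ (Ideal (𝓞 K))⁰ := mem_nonZeroDivisors_of_ne_zero hQ.ne_zero
        have h7 := hdvd ⟨Q, hQ0⟩ _ h5
        have h8 := hdvd ⟨Q, hQ0⟩ _ h6
        rw [hcc] at h7 h8
        have h9 : (cj ⟨Q, hQ0⟩ : Ideal (𝓞 K)) ∣ x := h7
        have h10 : (cj ⟨Q, hQ0⟩ : Ideal (𝓞 K)) ∣ y := h8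
        have h11 : IsUnit (cj ⟨Q, hQ0⟩ : Ideal (𝓞 K)) := hxy h9 h10
        exact (hprime ⟨Q, hQ0⟩ hQ).not_isUnit h11
      rw [h2, hmul, alI_mul (cj ⟨x, hx0⟩) (cj ⟨y, hy0⟩) h4, alI_mul ⟨x, hx0⟩ ⟨y, hy0⟩ h3, hx hx0,
        hy hy0]
  exact key I.1 I.2

end IM

theorem exists_cj (K : Type) [Field K] [NumberField K] (h2 : Module.finrank ℚ K = 2) :
    ∃ cj : (Ideal (𝓞 K))⁰ → (Ideal (𝓞 K))⁰, (∀ I, cj (cj I) = I) ∧ (∀ I, nm K (cj I) = nm K I) ∧
      (∀ I, ClassGroup.mk0 (cj I) = (ClassGroup.mk0 I)⁻¹) ∧ (∀ I, I * cj I = spn K (nm K I)) ∧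
      (∀ I J, cj (I * J) = cj I * cj J) ∧ ∀ I, alI (cj I) = alI I := by
  classical
  choose c hc1 hc2 using CL.exists_conj K
  have hcN : ∀ I, Ideal.absNorm (c I : Ideal (𝓞 K)) = Ideal.absNorm (I : Ideal (𝓞 K)) :=
    fun I => CL.absNorm_conj K h2 (hc2 I)
  have hcc : ∀ I, c (c I) = I := by
    intro I
    have h1 := hc2 (c I)
    rw [hcN, ← hc2 I, mul_comm (I : Ideal (𝓞 K))] at h1
    exact Subtype.ext (mul_left_cancel₀ (nonZeroDivisors.ne_zero (c I).2) h1)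
  have hmul : ∀ I J, c (I * J) = c I * c J := by
    intro I J
    apply Subtype.ext
    have h1 := hc2 (I * J)
    have h3 : ((I * J : (Ideal (𝓞 K))⁰) : Ideal (𝓞 K)) * ((c I * c J : (Ideal (𝓞 K))⁰) : Ideal (𝓞 K)) =
        Ideal.span {((Ideal.absNorm ((I * J : (Ideal (𝓞 K))⁰) : Ideal (𝓞 K)) : ℕ) : 𝓞 K)} := by
      rw [Submonoid.coe_mul, Submonoid.coe_mul, map_mul]
      push_cast
      rw [← Ideal.span_singleton_mul_span_singleton, ← hc2 I, ← hc2 J]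
      ring
    rw [← h3] at h1
    exact mul_left_cancel₀ (ne0 (I * J)) h1
  refine ⟨c, hcc, hcN, hc1, ?_, hmul, IM.alI_of_aut c hcc hcN hmul⟩
  intro I
  apply Subtype.ext
  rw [IM.spn_eq _ (nm_pos I).ne', Submonoid.coe_mul, hc2 I]
  rfl

/-- Primes whose norm is not coprime to `2D`. -/
def badP (K : Type) [Field K] [NumberField K] (D : ℕ) : Set ((Ideal (𝓞 K))⁰) :=
  {P | (P : Ideal (𝓞 K)).IsPrime ∧ ¬ Nat.Coprime (nm K P) (2 * D)}

theorem badP_finite (K : Type) [Field K] [NumberField K] (D : ℕ) (hD : 1 ≤ D) :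
    (badP K D).Finite := by
  apply (finite_idl (K := K) (nm K (spn K (2 * D)) : ℝ)).subset
  rintro P ⟨hP, hnc⟩
  obtain ⟨p, hp, hpn, hpD⟩ := Nat.Prime.not_coprime_iff_dvd.1 hnc
  -- `p ∈ P`
  have hpP : (p : 𝓞 K) ∈ (P : Ideal (𝓞 K)) := by
    have hmax : (P : Ideal (𝓞 K)).IsMaximal := hP.isMaximal (ne0 P)
    have _ : Finite (𝓞 K ⧸ (P : Ideal (𝓞 K))) := Ideal.finiteQuotientOfFreeOfNeBot _ (ne0 P)
    let _ : Fintype (𝓞 K ⧸ (P : Ideal (𝓞 K))) := Fintype.ofFinite _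
    have _ : Fact p.Prime := ⟨hp⟩
    have hcard : Fintype.card (𝓞 K ⧸ (P : Ideal (𝓞 K))) = nm K P := by
      rw [← Nat.card_eq_fintype_card]
      rfl
    obtain ⟨x, hx⟩ := exists_prime_addOrderOf_dvd_card (G := 𝓞 K ⧸ (P : Ideal (𝓞 K))) p
      (by rw [hcard]; exact hpn)
    have hx0 : x ≠ 0 := by
      rintro rfl
      rw [addOrderOf_zero] at hx
      exact hp.one_lt.ne hx
    have h1 : (p : 𝓞 K ⧸ (P : Ideal (𝓞 K))) * x = 0 := by
      have := addOrderOf_nsmul_eq_zero x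
      rw [hx, nsmul_eq_mul] at this
      exact this
    rcases mul_eq_zero.1 h1 with h2 | h2
    · rw [← Ideal.Quotient.eq_zero_iff_mem]
      simpa using h2
    · exact absurd h2 hx0
  have hDP : ((2 * D : ℕ) : 𝓞 K) ∈ (P : Ideal (𝓞 K)) := by
    obtain ⟨k, hk⟩ := hpD
    rw [hk]
    push_cast
    exact Ideal.mul_mem_right _ _ hpP
  have hdvd : (P : Ideal (𝓞 K)) ∣ ((spn K (2 * D) : (Ideal (𝓞 K))⁰) : Ideal (𝓞 K)) := by
    rw [IM.spn_eq _ (by omega), Ideal.dvd_iff_le, Ideal.span_singleton_le_iff_mem]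
    exact hDP
  have h3 : nm K P ∣ nm K (spn K (2 * D)) := map_dvd Ideal.absNorm hdvd
  change (nm K P : ℝ) ≤ _
  exact_mod_cast Nat.le_of_dvd (nm_pos _) h3

namespace IM

/-- prime ideals -/
abbrev Pr (K : Type) [Field K] [NumberField K] : Type :=
  {P : (Ideal (𝓞 K))⁰ // (P : Ideal (𝓞 K)).IsPrime}

/-- the ideal with given exponents -/
noncomputable def Phi (f : Pr K →₀ ℕ) : (Ideal (𝓞 K))⁰ := ∏ i ∈ f.support, (i : (Ideal (𝓞 K))⁰) ^ f i

theorem cnt_prod {ι : Type} (Q : Ideal (𝓞 K)) (s : Finset ι) (a : ι → (Ideal (𝓞 K))⁰) :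
    cnt Q ((∏ i ∈ s, a i : (Ideal (𝓞 K))⁰) : Ideal (𝓞 K)) = ∑ i ∈ s, cnt Q (a i : Ideal (𝓞 K)) := by
  classical
  induction s using Finset.induction_on with
  | empty =>
    rw [Finset.prod_empty, Finset.sum_empty]
    exact cnt_one Q
  | insert i s hi ih =>
    rw [Finset.prod_insert hi, Finset.sum_insert hi, Submonoid.coe_mul, cnt_mul Q (ne0 _) (ne0 _), ih]

theorem cnt_Phi (f : Pr K →₀ ℕ) (j : Pr K) :
    cnt ((j : (Ideal (𝓞 K))⁰) : Ideal (𝓞 K)) (Phi f : Ideal (𝓞 K)) = f j := by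
  classical
  unfold Phi
  rw [cnt_prod]
  have h1 : ∀ i ∈ f.support, cnt ((j : (Ideal (𝓞 K))⁰) : Ideal (𝓞 K))
      (((i : (Ideal (𝓞 K))⁰) ^ f i : (Ideal (𝓞 K))⁰) : Ideal (𝓞 K)) = if i = j then f i else 0 := by
    intro i _
    rw [SubmonoidClass.coe_pow, cnt_prime_pow (prime_iff.1 i.2)]
    by_cases h : i = j
    · rw [h]; simp
    · rw [if_neg h, if_neg]
      intro h2
      exact h (Subtype.ext (Subtype.ext h2.symm))
  rw [Finset.sum_congr rfl h1, Finset.sum_ite_eq' f.support j (fun i => f i)]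
  split_ifs with h
  · rfl
  · exact (Finsupp.notMem_support_iff.1 h).symm

theorem cnt_eq_zero_of_not_prime {Q I : Ideal (𝓞 K)} (h : ¬ Prime Q) : cnt Q I = 0 := by
  by_contra h1
  exact h (cnt_ne_zero h1).1

theorem Phi_bij : Function.Bijective (Phi (K := K)) := by
  classical
  constructor
  · intro f f' h
    ext j
    rw [← cnt_Phi f j, ← cnt_Phi f' j, h]
  · intro I
    have hfin : {i : Pr K | cnt ((i : (Ideal (𝓞 K))⁰) : Ideal (𝓞 K)) (I : Ideal (𝓞 K)) ≠ 0}.Finite := by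
      apply Set.Finite.preimage (f := fun i : Pr K => ((i : (Ideal (𝓞 K))⁰) : Ideal (𝓞 K)))
        _ (cnt_finite (I : Ideal (𝓞 K)))
      intro i _ j _ h
      exact Subtype.ext (Subtype.ext h)
    refine ⟨Finsupp.ofSupportFinite
      (fun i : Pr K => cnt ((i : (Ideal (𝓞 K))⁰) : Ideal (𝓞 K)) (I : Ideal (𝓞 K))) hfin, ?_⟩
    apply ext_cnt
    intro P
    by_cases hP : Prime P
    · have hP0 : P ∈ (Ideal (𝓞 K))⁰ := mem_nonZeroDivisors_of_ne_zero hP.ne_zero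
      exact cnt_Phi _ (⟨⟨P, hP0⟩, prime_iff.2 hP⟩ : Pr K)
    · rw [cnt_eq_zero_of_not_prime hP, cnt_eq_zero_of_not_prime hP]

theorem alI_Phi (f : Pr K →₀ ℕ) : alI (Phi f) = ∏ i ∈ f.support, al (f i) := by
  classical
  rw [alI_eq (Phi f) (f.support.image (fun i : Pr K => ((i : (Ideal (𝓞 K))⁰) : Ideal (𝓞 K)))),
    Finset.prod_image]
  · apply Finset.prod_congr rfl
    intro i _
    rw [cnt_Phi]
  · intro i _ j _ h
    exact Subtype.ext (Subtype.ext h)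
  · intro P hP
    have hpr := (cnt_ne_zero hP).1
    have hP0 : P ∈ (Ideal (𝓞 K))⁰ := mem_nonZeroDivisors_of_ne_zero hpr.ne_zero
    have h1 := cnt_Phi f (⟨⟨P, hP0⟩, prime_iff.2 hpr⟩ : Pr K)
    rw [Finset.mem_image]
    refine ⟨⟨⟨P, hP0⟩, prime_iff.2 hpr⟩, ?_, rfl⟩
    rw [Finsupp.mem_support_iff, ← h1]
    exact hP

theorem nm_Phi (f : Pr K →₀ ℕ) : nm K (Phi f) = ∏ i ∈ f.support, nm K (i : (Ideal (𝓞 K))⁰) ^ f i := by
  let nh : (Ideal (𝓞 K))⁰ →* ℕ := ⟨⟨nm K, nm_one⟩, nm_mul⟩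
  have h := map_prod nh (fun i : Pr K => (i : (Ideal (𝓞 K))⁰) ^ f i) f.support
  have h1 : ∀ i : Pr K, nh ((i : (Ideal (𝓞 K))⁰) ^ f i) = nm K (i : (Ideal (𝓞 K))⁰) ^ f i :=
    fun i => map_pow nh _ _
  simp only [h1] at h
  exact h

theorem sum_sq {z : ℂ} (hz : ‖z‖ < 1) :
    (Summable fun m : ℕ => ‖(al m : ℂ) * z ^ m‖) ∧ (∑' m : ℕ, ‖(al m : ℂ) * z ^ m‖ ≤ (1 - ‖z‖)⁻¹) ∧
    (∑' m : ℕ, (al m : ℂ) * z ^ m) ^ 2 = 1 - z := by
  have hg : Summable fun m : ℕ => ‖z‖ ^ m := summable_geometric_of_lt_one (norm_nonneg _) hz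
  have hle : ∀ m : ℕ, ‖(al m : ℂ) * z ^ m‖ ≤ ‖z‖ ^ m := by
    intro m
    rw [norm_mul, norm_pow, Complex.norm_real, Real.norm_eq_abs]
    calc |al m| * ‖z‖ ^ m ≤ 1 * ‖z‖ ^ m :=
          mul_le_mul_of_nonneg_right (abs_al_le m) (by positivity)
      _ = ‖z‖ ^ m := one_mul _
  have hs : Summable fun m : ℕ => ‖(al m : ℂ) * z ^ m‖ :=
    Summable.of_nonneg_of_le (fun _ => norm_nonneg _) hle hg
  refine ⟨hs, ?_, ?_⟩
  · rw [← tsum_geometric_of_lt_one (norm_nonneg _) hz]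
    exact hs.tsum_le_tsum hle hg
  · rw [sq, tsum_mul_tsum_eq_tsum_sum_antidiagonal_of_summable_norm hs hs]
    have h1 : ∀ n : ℕ, ∑ kl ∈ Finset.HasAntidiagonal.antidiagonal n, (al kl.1 : ℂ) * z ^ kl.1 * ((al kl.2 : ℂ) * z ^ kl.2)
        = if n = 0 then 1 else if n = 1 then -z else 0 := by
      intro n
      have h2 : ∑ kl ∈ Finset.HasAntidiagonal.antidiagonal n, (al kl.1 : ℂ) * z ^ kl.1 * ((al kl.2 : ℂ) * z ^ kl.2)
          = ((∑ kl ∈ Finset.HasAntidiagonal.antidiagonal n, al kl.1 * al kl.2 : ℝ) : ℂ) * z ^ n := by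
        push_cast
        rw [Finset.sum_mul]
        apply Finset.sum_congr rfl
        intro kl hkl
        rw [← Finset.HasAntidiagonal.mem_antidiagonal.1 hkl, pow_add]
        ring
      rw [h2, al_conv]
      split_ifs with h3 h4
      · subst h3; simp
      · subst h4; simp
      · simp
    simp only [h1]
    rw [tsum_eq_sum (s := Finset.range 2)]
    · simp [Finset.sum_range_succ, sub_eq_add_neg]
    · intro n hn
      rw [Finset.mem_range, not_lt] at hn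
      rw [if_neg (by omega), if_neg (by omega)]

end IM

theorem euler_ideals (D : ℕ) (hD : 1 ≤ D) (ψ : (Ideal (𝓞 K))⁰ → ℂ) (h1 : ψ 1 = 1)
    (hmul : ∀ I J, ψ (I * J) = ψ I * ψ J) (hsum : Summable fun I => ‖ψ I‖)
    (hP : ∀ P : (Ideal (𝓞 K))⁰, (P : Ideal (𝓞 K)).IsPrime → ‖ψ P‖ ≤ 1 / 2) :
    (∑' I : (Ideal (𝓞 K))⁰, ψ I) * (∏ P ∈ (badP_finite K D hD).toFinset, (1 - ψ P)) *
      (∑' I : (Ideal (𝓞 K))⁰, (alD D I : ℂ) * ψ I) ^ 2 = 1 := by
  classical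
  let e : (IM.Pr K →₀ ℕ) ≃ (Ideal (𝓞 K))⁰ := Equiv.ofBijective IM.Phi IM.Phi_bij
  let ψh : (Ideal (𝓞 K))⁰ →* ℂ := ⟨⟨ψ, h1⟩, hmul⟩
  have hψΦ : ∀ f : IM.Pr K →₀ ℕ, ψ (IM.Phi f) = ∏ i ∈ f.support, ψ (i : (Ideal (𝓞 K))⁰) ^ f i := by
    intro f
    have h := map_prod ψh (fun i : IM.Pr K => (i : (Ideal (𝓞 K))⁰) ^ f i) f.support
    have h2 : ∀ i : IM.Pr K, ψh ((i : (Ideal (𝓞 K))⁰) ^ f i) = ψ (i : (Ideal (𝓞 K))⁰) ^ f i :=
      fun i => map_pow ψh _ _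
    simp only [h2] at h
    exact h
  have hlt : ∀ i : IM.Pr K, ‖ψ (i : (Ideal (𝓞 K))⁰)‖ < 1 := fun i => by
    have := hP _ i.2
    linarith
  let b : IM.Pr K → ℝ := fun i => 2 * ‖ψ (i : (Ideal (𝓞 K))⁰)‖
  have hbs : Summable b := (hsum.comp_injective Subtype.val_injective).mul_left 2
  have hinv : ∀ i : IM.Pr K, (1 - ‖ψ (i : (Ideal (𝓞 K))⁰)‖)⁻¹ ≤ 1 + b i := by
    intro i
    have h2 := hP _ i.2
    have h3 : 0 ≤ ‖ψ (i : (Ideal (𝓞 K))⁰)‖ := norm_nonneg _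
    rw [inv_le_iff_one_le_mul₀ (by linarith)]
    simp only [b]
    nlinarith
  -- first Euler product
  let g1 : IM.Pr K → ℕ → ℂ := fun i m => ψ (i : (Ideal (𝓞 K))⁰) ^ m
  have hs1 : ∀ i, Summable fun m => ‖g1 i m‖ := by
    intro i
    simp only [g1, norm_pow]
    exact summable_geometric_of_lt_one (norm_nonneg _) (hlt i)
  have hp1 := (euler_finsupp g1 b (fun i => pow_zero _) hs1 (fun i => by
    simp only [g1, norm_pow]
    rw [tsum_geometric_of_lt_one (norm_nonneg _) (hlt i)]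
    exact hinv i) hbs).2
  -- second Euler product
  let g2 : IM.Pr K → ℕ → ℂ := fun i m =>
    if Nat.Coprime (nm K (i : (Ideal (𝓞 K))⁰)) (2 * D) then (al m : ℂ) * ψ (i : (Ideal (𝓞 K))⁰) ^ m
    else if m = 0 then 1 else 0
  have hg2 : ∀ i, (g2 i 0 = 1) ∧ (Summable fun m => ‖g2 i m‖) ∧ (∑' m, ‖g2 i m‖ ≤ 1 + b i) ∧
      (∑' m, g2 i m) ^ 2 * (∑' m, g1 i m) * (if Nat.Coprime (nm K (i : (Ideal (𝓞 K))⁰)) (2 * D)
        then 1 else 1 - ψ (i : (Ideal (𝓞 K))⁰)) = 1 := by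
    intro i
    obtain ⟨ha, hb, hc⟩ := IM.sum_sq (hlt i)
    have hne : (1 : ℂ) - ψ (i : (Ideal (𝓞 K))⁰) ≠ 0 := by
      intro h
      have : ψ (i : (Ideal (𝓞 K))⁰) = 1 := (sub_eq_zero.1 h).symm
      have h2 := hlt i
      rw [this] at h2
      simp at h2
    have hgeo : ∑' m, g1 i m = (1 - ψ (i : (Ideal (𝓞 K))⁰))⁻¹ :=
      tsum_geometric_of_norm_lt_one (hlt i)
    by_cases hc1 : Nat.Coprime (nm K (i : (Ideal (𝓞 K))⁰)) (2 * D)
    · simp only [g2, if_pos hc1]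
      refine ⟨by simp [al_zero], ha, hb.trans (hinv i), ?_⟩
      rw [hc, hgeo, mul_one, mul_inv_cancel₀ hne]
    · simp only [g2, if_neg hc1]
      have h3 : ∀ m : ℕ, ‖(if m = 0 then (1 : ℂ) else 0)‖ = if m = 0 then (1 : ℝ) else 0 := by
        intro m; split_ifs <;> simp
      refine ⟨by simp, ?_, ?_, ?_⟩
      · simp only [h3]
        exact (hasSum_ite_eq 0 (1 : ℝ)).summable
      · simp only [h3]
        rw [tsum_ite_eq]
        have : 0 ≤ b i := by positivity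
        linarith
      · rw [tsum_ite_eq, hgeo, one_pow, one_mul, inv_mul_cancel₀ hne]
  have hp2 := (euler_finsupp g2 b (fun i => (hg2 i).1) (fun i => (hg2 i).2.1)
    (fun i => (hg2 i).2.2.1) hbs).2
  -- identification of the sums
  have hsum1 : ∑' f : IM.Pr K →₀ ℕ, ∏ i ∈ f.support, g1 i (f i) = ∑' I : (Ideal (𝓞 K))⁰, ψ I := by
    rw [← e.tsum_eq ψ]
    apply tsum_congr
    intro f
    exact (hψΦ f).symm
  have hsum2 : ∑' f : IM.Pr K →₀ ℕ, ∏ i ∈ f.support, g2 i (f i) =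
      ∑' I : (Ideal (𝓞 K))⁰, (alD D I : ℂ) * ψ I := by
    rw [← e.tsum_eq (fun I => (alD D I : ℂ) * ψ I)]
    apply tsum_congr
    intro f
    change _ = (alD D (IM.Phi f) : ℂ) * ψ (IM.Phi f)
    unfold alD
    by_cases hc : Nat.Coprime (nm K (IM.Phi f)) (2 * D)
    · rw [if_pos hc, IM.alI_Phi, hψΦ, Complex.ofReal_prod, ← Finset.prod_mul_distrib]
      apply Finset.prod_congr rfl
      intro i hi
      have hi0 : f i ≠ 0 := Finsupp.mem_support_iff.1 hi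
      rw [IM.nm_Phi, Nat.coprime_prod_left_iff] at hc
      have h4 : Nat.Coprime (nm K (i : (Ideal (𝓞 K))⁰)) (2 * D) :=
        (Nat.coprime_pow_left_iff (Nat.pos_of_ne_zero hi0) _ _).1 (hc i hi)
      simp only [g2, if_pos h4]
    · rw [if_neg hc]
      simp only [Complex.ofReal_zero, zero_mul]
      rw [IM.nm_Phi, Nat.coprime_prod_left_iff] at hc
      push Not at hc
      obtain ⟨i, hi, hic⟩ := hc
      apply Finset.prod_eq_zero hi
      have hi0 : f i ≠ 0 := Finsupp.mem_support_iff.1 hi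
      have h4 : ¬ Nat.Coprime (nm K (i : (Ideal (𝓞 K))⁰)) (2 * D) := fun h =>
        hic ((Nat.coprime_pow_left_iff (Nat.pos_of_ne_zero hi0) _ _).2 h)
      simp only [g2, if_neg h4, if_neg hi0]
  -- the finite product
  have hp3 : HasProd (fun i : IM.Pr K => if Nat.Coprime (nm K (i : (Ideal (𝓞 K))⁰)) (2 * D)
        then (1 : ℂ) else 1 - ψ (i : (Ideal (𝓞 K))⁰))
      (∏ P ∈ (badP_finite K D hD).toFinset, (1 - ψ P)) := by
    have h5 : ∏ P ∈ (badP_finite K D hD).toFinset, (1 - ψ P) =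
        Finset.prod ((badP_finite K D hD).toFinset.subtype
          (fun P : (Ideal (𝓞 K))⁰ => (P : Ideal (𝓞 K)).IsPrime) : Finset (IM.Pr K))
          (fun i : IM.Pr K => if Nat.Coprime (nm K (i : (Ideal (𝓞 K))⁰)) (2 * D)
            then (1 : ℂ) else 1 - ψ (i : (Ideal (𝓞 K))⁰)) := by
      rw [← Finset.prod_subtype_of_mem (p := fun P : (Ideal (𝓞 K))⁰ => (P : Ideal (𝓞 K)).IsPrime)
        (fun P : (Ideal (𝓞 K))⁰ => 1 - ψ P) (fun P hPm => ?_)]
      · apply Finset.prod_congr rfl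
        intro i hi
        rw [Finset.mem_subtype, Set.Finite.mem_toFinset] at hi
        rw [if_neg hi.2]
      · rw [Set.Finite.mem_toFinset] at hPm
        exact hPm.1
    rw [h5]
    apply hasProd_prod_of_ne_finset_one
    intro i hi
    rw [Finset.mem_subtype, Set.Finite.mem_toFinset] at hi
    rw [if_pos]
    by_contra hcop
    exact hi ⟨i.2, hcop⟩
  rw [hsum1] at hp1
  rw [hsum2] at hp2
  have hfin := (hp1.mul hp3).mul (hp2.mul hp2)
  have hone : HasProd (fun _ : IM.Pr K => (1 : ℂ)) 1 := hasProd_one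
  have heq : (fun i : IM.Pr K => (∑' m, g1 i m) * (if Nat.Coprime (nm K (i : (Ideal (𝓞 K))⁰)) (2 * D)
        then (1 : ℂ) else 1 - ψ (i : (Ideal (𝓞 K))⁰)) * ((∑' m, g2 i m) * (∑' m, g2 i m)))
      = fun _ => (1 : ℂ) := by
    funext i
    refine Eq.trans ?_ (hg2 i).2.2.2
    ring
  rw [heq] at hfin
  refine Eq.trans ?_ (hfin.unique hone)
  ring

end Pool.Hhelper76.SC
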