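import Pool.Agent.Hhelper76.SC.Defs
import Pool.Agent.Hhelper85.CZ.Basic

/-!
# SC: definitions for the arithmetic of ideals of an imaginary quadratic field
-/

open scoped NumberField nonZeroDivisors
open Pool.Hhelper85.CZ

namespace Pool.Hhelper76.SC

/-- Integral coordinates on the ring of integers of the imaginary quadratic field of discriminant
`-D`. -/
structure QD (K : Type) [Field K] [NumberField K] (D : ℕ) where
  ω : 𝓞 K
  t : ℤ
  q : ℤ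
  span : ∀ x : 𝓞 K, ∃ m n : ℤ, x = m + n * ω
  ind : ∀ m n : ℤ, (m : 𝓞 K) + n * ω = 0 → m = 0 ∧ n = 0
  mul : ω * ω = (t : 𝓞 K) * ω - (q : 𝓞 K)
  norm : ∀ m n : ℤ, Algebra.norm ℤ ((m : 𝓞 K) + n * ω) = m ^ 2 + t * m * n + q * n ^ 2
  disc : 4 * q - t ^ 2 = (D : ℤ)
  four_lt : 4 < D
  h2 : Module.finrank ℚ K = 2
  hdisc : NumberField.discr K = -(D : ℤ)

variable {K : Type} [Field K] [NumberField K]

/-- The principal ideal `(r)` (`1` if `r = 0`). -/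
noncomputable def spn (K : Type) [Field K] [NumberField K] (r : ℕ) : (Ideal (𝓞 K))⁰ :=
  open Classical in
  if h : (Ideal.span {(r : 𝓞 K)} : Ideal (𝓞 K)) ∈ (Ideal (𝓞 K))⁰ then ⟨_, h⟩ else 1

/-- The primitive ideal `ℤ h + ℤ (ω - (t - b)/2)`, of norm `h` if `4h ∣ D + b²`. -/
noncomputable def QD.J {D : ℕ} (d : QD K D) (h : ℕ) (b : ℤ) : (Ideal (𝓞 K))⁰ :=
  open Classical in
  if h : (Ideal.span {(h : 𝓞 K), d.ω - (((d.t - b) / 2 : ℤ) : 𝓞 K)} : Ideal (𝓞 K)) ∈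
    (Ideal (𝓞 K))⁰ then ⟨_, h⟩ else 1

theorem finite_idn (K : Type) [Field K] [NumberField K] (n : ℕ) :
    {I : (Ideal (𝓞 K))⁰ | nm K I = n}.Finite :=
  (finite_idl (K := K) (n : ℝ)).subset fun I hI => by
    simp only [Set.mem_setOf_eq] at hI ⊢
    rw [hI]

/-- The ideals of norm `n`. -/
noncomputable def idn (K : Type) [Field K] [NumberField K] (n : ℕ) : Finset ((Ideal (𝓞 K))⁰) :=
  (finite_idn K n).toFinset

/-- `∏ al(e_𝔭)` over the prime factorisation. -/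
noncomputable def alI (I : (Ideal (𝓞 K))⁰) : ℝ :=
  open Classical in
  ∏ P ∈ (UniqueFactorizationMonoid.normalizedFactors (I : Ideal (𝓞 K))).toFinset,
    al ((UniqueFactorizationMonoid.normalizedFactors (I : Ideal (𝓞 K))).count P)

/-- `alI`, restricted to ideals of norm coprime to `2D`. -/
noncomputable def alD (D : ℕ) (I : (Ideal (𝓞 K))⁰) : ℝ :=
  if Nat.Coprime (nm K I) (2 * D) then alI I else 0

/-- Least `j ≥ 1` with `T ∣ j H`. -/
noncomputable def jm (T H : (Ideal (𝓞 K))⁰) : ℕ :=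
  sInf {j : ℕ | 1 ≤ j ∧ (T : Ideal (𝓞 K)) ∣ Ideal.span {(j : 𝓞 K)} * (H : Ideal (𝓞 K))}

/-- Normalised norm. -/
noncomputable def qq (D : ℕ) (I : (Ideal (𝓞 K))⁰) : ℝ := 2 * (nm K I : ℝ) / Real.sqrt D

/-- Theta function of a class, after the difference operator. -/
noncomputable def gcl (c : ℝ) (D : ℕ) (A : ClassGroup (𝓞 K)) (u : ℝ) : ℝ :=
  ∑' I : {I : (Ideal (𝓞 K))⁰ // ClassGroup.mk0 I = A},
    (Real.sqrt (qq D I.1))⁻¹ * psi0 c (u + Real.log (qq D I.1))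

/-- The mollified theta function of a class. -/
noncomputable def fC (c : ℝ) (X D : ℕ) (C : ClassGroup (𝓞 K)) (u : ℝ) : ℝ :=
  ∑ m ∈ box 2 X, (∏ i, Pm X (m i)) * (Real.sqrt ((m 0 : ℝ) * m 1))⁻¹ *
    ∑ I ∈ idn K (m 0), ∑ J ∈ idn K (m 1), alD D I * alD D J *
      gcl c D (C * (ClassGroup.mk0 I)⁻¹ * ClassGroup.mk0 J)
        (u + Real.log (m 0) - Real.log (m 1))

/-- The mollifier. -/
noncomputable def Mol (X D : ℕ) (χ : ClassGroup (𝓞 K) →* ℂˣ) (s : ℂ) : ℂ :=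
  ∑ n ∈ Finset.Icc 1 ⌊xi X⌋₊, (Pm X n : ℂ) * (n : ℂ) ^ (-s) *
    ∑ I ∈ idn K n, (alD D I : ℂ) * ((χ (ClassGroup.mk0 I) : ℂˣ) : ℂ)

theorem mem_idn {n : ℕ} {I : (Ideal (𝓞 K))⁰} : I ∈ idn K n ↔ nm K I = n := by
  simp [idn]

end Pool.Hhelper76.SC
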