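import Pool.Agent.Hhelper76.SC.Defs

/-!
# SC module P1 (Psi): the weight `wt`, the difference operator `opL` and the function `Psi`

PAPER PROOF. `γ_j = gam c (j+4)` (`-4 ≤ j ≤ 4`) are the coefficients of
`(2 - z - z⁻¹)³ (2cosh(c/2) - z - z⁻¹)`; they are symmetric (`gam c i = gam c (8 - i)`), so with
`z = e^{ict}` : `wt c t = ∑ γ_j e^{ijct}` (real), this is `wt_eq`. `wt ≥ 0` as `cos ≤ 1 ≤ cosh`;
`wt ≤ C min(1, t⁶)` from `2 - 2cos(ct) ≤ min(4, (ct)²)`; `wt > 0` for `0 < |t|`, `c|t| ≤ 1`.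
`opL_fourier`: substitution in each of the 9 integrals and `wt_eq`.
`opL` kills `e^{v/2}` and `e^{-v/2}` (the factor `2cosh(c/2) - z - z⁻¹` at `z = e^{±c/2}`), and
constants (the factor `(2-z-z⁻¹)³`, i.e. `∑ γ_j = 0`): all three are identities between the 9
coefficients (use `Real.cosh_eq`, or `e^{jc/2}` as powers of `E = e^{c/2}`, `ring`/`field_simp`).
`Psi_neg`: by `Gs_theta` (LowerErr) with `w = e^v`:
`e^{v/2} Gs(e^v) = 1/2 - e^{v/2}/2 + Gs(e^{-v})` (note `√(e^v) = e^{v/2}`, `sqrt_exp`), so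
`Psi c w = opL (v ↦ Gs(e^{-v})) w`, and `opL c f (-u) = opL c (v ↦ f(-v)) u` by symmetry.
`Psi_hasSum`: `Psi(w) = ∑_{r≥1} r⁻¹ psi0(w + 2 log r)`: each shift is
`e^{v/2} Gs(e^v) = ∑_r e^{v/2} exp(-π r² e^v) = ∑_r r⁻¹ e^{v_r/2} exp(-π e^{v_r})`, `v_r = v + 2 log r`.
`Psi_bound`, `Psi_deriv`: for `w ≥ 0`: `Gs(e^v) ≤ C exp(-π e^v)` when `e^v ≥ 1/8` (`Gs_exp`), so
every term of `Psi(w)` is `≤ C e^{(w+4c)/2} exp(-π e^{-4c} e^w)` when `w ≥ 4c`; for `0 ≤ w ≤ 4c` `Psi`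
is bounded (continuous). For `w ≤ 0` use `Psi_neg`. Derivative: `Gs` is differentiable on `(0, ∞)`
with `Gs'(x) = -π ∑ m² exp(-π x m²)` (`hasDerivAt_tsum`-type argument, or
`Gs x = ∑' m, ...` with locally uniform bounds), `|Gs'(x)| ≤ C exp(-π x/2)` for `x ≥ 1/8`; on compact
sets everything is bounded; absorb polynomial/exponential factors in `κ`.
`psi0_bound`: every term of `psi0(w)` is `e^{(w+jc)/2} exp(-π e^{w+jc}) ≤ e^{2c} e^{w/2} exp(-π e^{-4c} e^w)`.
-/

open Complex MeasureTheory Pool.Hhelper76.CL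

namespace Pool.Hhelper76.SC

theorem gam_symm (c : ℝ) (i : Fin 9) : gam c i = gam c (Fin.rev i) := by
  unfold gam
  fin_cases i <;> rfl

/-- Evaluation of the Laurent polynomial with coefficients `gam`. -/
theorem gam_sum {F : Type*} [Field F] (φ : ℝ →+* F) (c : ℝ) (z : F) (hz : z ≠ 0) :
    ∑ i : Fin 9, φ (gam c i) * z ^ (((i : ℕ) : ℤ) - 4) =
      (2 - z - z⁻¹) ^ 3 * (2 * φ (Real.cosh (c / 2)) - z - z⁻¹) := by
  have e : ∀ n : ℕ, z ^ ((n : ℤ) - 4) = z ^ n * (z⁻¹) ^ 4 := by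
    intro n
    rw [zpow_sub₀ hz, zpow_natCast, inv_pow, div_eq_mul_inv]
    norm_cast
  simp only [e]
  simp only [Fin.sum_univ_succ, gam, Fin.val_zero, Fin.val_succ]
  have n2 : φ 2 = 2 := map_ofNat φ 2
  have n6 : φ 6 = 6 := map_ofNat φ 6
  have n12 : φ 12 = 12 := map_ofNat φ 12
  have n16 : φ 16 = 16 := map_ofNat φ 16
  have n30 : φ 30 = 30 := map_ofNat φ 30
  have n26 : φ 26 = 26 := map_ofNat φ 26
  have n40 : φ 40 = 40 := map_ofNat φ 40
  simp [Matrix.cons_val_succ, n2, n6, n12, n16, n30, n26, n40]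
  field_simp
  ring

theorem wt_nonneg (c t : ℝ) : 0 ≤ wt c t := by
  unfold wt
  have h1 := Real.cos_le_one (c * t)
  have h2 := Real.one_le_cosh (c / 2)
  have h3 : 0 ≤ 2 - 2 * Real.cos (c * t) := by linarith
  have h4 : 0 ≤ 2 * Real.cosh (c / 2) - 2 * Real.cos (c * t) := by linarith
  exact mul_nonneg (pow_nonneg h3 3) h4

theorem wt_le (c : ℝ) : ∃ C : ℝ, 0 < C ∧ ∀ t : ℝ, wt c t ≤ C * min 1 (t ^ 6) := by
  have hch := Real.one_le_cosh (c / 2)
  have hc6 : 0 ≤ c ^ 6 := by positivity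
  refine ⟨(64 + c ^ 6) * (2 * Real.cosh (c / 2) + 2), by positivity, fun t => ?_⟩
  have h1 := Real.cos_le_one (c * t)
  have h1' := Real.neg_one_le_cos (c * t)
  have h2 := Real.one_sub_sq_div_two_le_cos (x := c * t)
  have h3 : 0 ≤ 2 - 2 * Real.cos (c * t) := by linarith
  have h4 : 0 ≤ 2 * Real.cosh (c / 2) - 2 * Real.cos (c * t) := by linarith
  have h5 : 2 * Real.cosh (c / 2) - 2 * Real.cos (c * t) ≤ 2 * Real.cosh (c / 2) + 2 := by linarith
  have h6 : (2 - 2 * Real.cos (c * t)) ^ 3 ≤ 64 := by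
    have := pow_le_pow_left₀ h3 (show 2 - 2 * Real.cos (c * t) ≤ 4 by linarith) 3
    norm_num at this ⊢
    exact this
  have h7 : (2 - 2 * Real.cos (c * t)) ^ 3 ≤ c ^ 6 * t ^ 6 := by
    have := pow_le_pow_left₀ h3 (show 2 - 2 * Real.cos (c * t) ≤ (c * t) ^ 2 by linarith) 3
    refine this.trans (le_of_eq ?_)
    ring
  have ht6 : 0 ≤ t ^ 6 := by positivity
  have h8 : (2 - 2 * Real.cos (c * t)) ^ 3 ≤ (64 + c ^ 6) * min 1 (t ^ 6) := by
    rcases min_choice 1 (t ^ 6) with h | h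
    · rw [h]
      linarith
    · rw [h]
      nlinarith
  have h9 : 0 ≤ min 1 (t ^ 6) := le_min zero_le_one ht6
  unfold wt
  calc (2 - 2 * Real.cos (c * t)) ^ 3 * (2 * Real.cosh (c / 2) - 2 * Real.cos (c * t))
      ≤ ((64 + c ^ 6) * min 1 (t ^ 6)) * (2 * Real.cosh (c / 2) + 2) :=
        mul_le_mul h8 h5 h4 (by positivity)
    _ = _ := by ring

theorem wt_pos (c t : ℝ) (hc : 0 < c) (ht : t ≠ 0) (hct : c * |t| ≤ 1) : 0 < wt c t := by
  unfold wt
  have h0 : 0 < |t| := abs_pos.mpr ht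
  have h1 : Real.cos (c * t) < 1 := by
    rw [← Real.cos_abs, abs_mul, abs_of_pos hc, ← Real.cos_zero]
    refine Real.cos_lt_cos_of_nonneg_of_le_pi le_rfl ?_ (by positivity)
    have := Real.pi_gt_three
    linarith
  have h2 := Real.one_le_cosh (c / 2)
  have h3 : 0 < 2 - 2 * Real.cos (c * t) := by linarith
  have h4 : 0 < 2 * Real.cosh (c / 2) - 2 * Real.cos (c * t) := by linarith
  exact mul_pos (pow_pos h3 3) h4

theorem wt_neg (c t : ℝ) : wt c (-t) = wt c t := by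
  unfold wt
  rw [mul_neg, Real.cos_neg]

theorem wt_continuous (c : ℝ) : Continuous (wt c) := by
  unfold wt
  fun_prop

theorem wt_eq (c t : ℝ) : (wt c t : ℂ) =
    ∑ i : Fin 9, (gam c i : ℂ) * cexp (-(I * t * ((((i : ℕ) : ℝ) - 4) * c : ℝ))) := by
  have h := gam_sum Complex.ofRealHom c (cexp (-(I * t * c))) (Complex.exp_ne_zero _)
  have e : ∀ i : Fin 9, cexp (-(I * t * c)) ^ (((i : ℕ) : ℤ) - 4) =
      cexp (-(I * t * ((((i : ℕ) : ℝ) - 4) * c : ℝ))) := by
    intro i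
    rw [← Complex.exp_int_mul]
    congr 1
    push_cast
    ring
  simp only [e, Complex.ofRealHom_eq_coe] at h
  rw [h, ← Complex.exp_neg, neg_neg]
  have hcos : 2 * Complex.cos (c * t) = cexp (I * t * c) + cexp (-(I * t * c)) := by
    rw [Complex.two_cos]
    congr 1 <;> congr 1 <;> ring
  unfold wt
  push_cast
  rw [hcos]
  ring

theorem opL_fourier (c : ℝ) (f : ℝ → ℝ) (hf : Integrable f) (t : ℝ) :
    Integrable (opL c f) ∧ ∫ u : ℝ, (opL c f u : ℂ) * cexp (I * t * u) =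
      (wt c t : ℂ) * ∫ u : ℝ, (f u : ℂ) * cexp (I * t * u) := by
  have h1 : ∀ i : Fin 9, Integrable (fun u : ℝ => gam c i * f (u + (((i : ℕ) : ℝ) - 4) * c)) :=
    fun i => (hf.comp_add_right _).const_mul _
  refine ⟨?_, ?_⟩
  · have : opL c f = fun u => ∑ i : Fin 9, gam c i * f (u + (((i : ℕ) : ℝ) - 4) * c) := rfl
    rw [this]
    exact integrable_finsetSum _ fun i _ => h1 i
  · have hb : ∀ g : ℝ → ℝ, Integrable g → Integrable (fun u : ℝ => (g u : ℂ) * cexp (I * t * u)) := by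
      intro g hg
      refine hg.ofReal.mul_bdd (c := 1) ?_ ?_
      · exact (by fun_prop : Continuous fun u : ℝ => cexp (I * t * u)).aestronglyMeasurable
      · refine Filter.Eventually.of_forall fun u => ?_
        rw [show I * (t : ℂ) * (u : ℂ) = ((t * u : ℝ) : ℂ) * I by push_cast; ring,
          Complex.norm_exp_ofReal_mul_I]
    have h2 : ∀ u : ℝ, (opL c f u : ℂ) * cexp (I * t * u) =
        ∑ i : Fin 9, ((gam c i * f (u + (((i : ℕ) : ℝ) - 4) * c) : ℝ) : ℂ) * cexp (I * t * u) := by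
      intro u
      unfold opL
      rw [Complex.ofReal_sum, Finset.sum_mul]
    simp_rw [h2]
    rw [integral_finsetSum _ fun i _ => hb _ (h1 i), wt_eq, Finset.sum_mul]
    refine Finset.sum_congr rfl fun i _ => ?_
    set a : ℝ := (((i : ℕ) : ℝ) - 4) * c with ha
    have h3 : ∀ u : ℝ, ((gam c i * f (u + a) : ℝ) : ℂ) * cexp (I * t * u) =
        (gam c i : ℂ) * cexp (-(I * t * (a : ℝ))) *
          ((fun v : ℝ => (f v : ℂ) * cexp (I * t * v)) (u + a)) := by
      intro u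
      have h4 : cexp (I * t * u) = cexp (-(I * t * (a : ℝ))) * cexp (I * t * ((u + a : ℝ) : ℂ)) := by
        rw [← Complex.exp_add]
        congr 1
        push_cast
        ring
      simp only
      rw [h4]
      push_cast
      ring
    simp_rw [h3]
    rw [integral_const_mul, integral_add_right_eq_self (fun v : ℝ => (f v : ℂ) * cexp (I * t * v)) a]

theorem opL_neg (c : ℝ) (f : ℝ → ℝ) (u : ℝ) : opL c f (-u) = opL c (fun v => f (-v)) u := by
  unfold opL
  rw [← Equiv.sum_comp Fin.revPerm]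
  refine Finset.sum_congr rfl fun i _ => ?_
  rw [Fin.revPerm_apply, ← gam_symm]
  congr 2
  have h : ((Fin.rev i : ℕ) : ℝ) = 8 - (i : ℕ) := by
    rw [Fin.val_rev]
    have := i.isLt
    rw [Nat.cast_sub (by omega)]
    push_cast
    ring
  rw [h]
  ring

theorem opL_shift (c a : ℝ) (f : ℝ → ℝ) (u : ℝ) :
    opL c (fun v => f (v + a)) u = opL c f (u + a) := by
  unfold opL
  refine Finset.sum_congr rfl fun i _ => ?_
  congr 2
  ring

theorem opL_add (c : ℝ) (f g : ℝ → ℝ) (u : ℝ) :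
    opL c (fun v => f v + g v) u = opL c f u + opL c g u := by
  unfold opL
  rw [← Finset.sum_add_distrib]
  exact Finset.sum_congr rfl fun i _ => mul_add _ _ _

theorem opL_mul (c a : ℝ) (f : ℝ → ℝ) (u : ℝ) :
    opL c (fun v => a * f v) u = a * opL c f u := by
  unfold opL
  rw [Finset.mul_sum]
  exact Finset.sum_congr rfl fun i _ => mul_left_comm _ _ _

theorem opL_const (c a u : ℝ) : opL c (fun _ => a) u = 0 := by
  have h := gam_sum (RingHom.id ℝ) c 1 one_ne_zero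
  simp only [RingHom.id_apply, one_zpow, mul_one, inv_one] at h
  unfold opL
  rw [← Finset.sum_mul, h]
  norm_num

theorem opL_exp_aux (c : ℝ) : ∑ i : Fin 9, gam c i * Real.exp (c / 2) ^ (((i : ℕ) : ℤ) - 4) = 0 := by
  have h := gam_sum (RingHom.id ℝ) c (Real.exp (c / 2)) (Real.exp_pos _).ne'
  simp only [RingHom.id_apply] at h
  rw [h, Real.cosh_eq, ← Real.exp_neg]
  ring

theorem exp_zpow' (x : ℝ) (n : ℤ) : Real.exp x ^ n = Real.exp (n * x) := by
  have h : ((Real.exp x ^ n : ℝ) : ℂ) = ((Real.exp (n * x) : ℝ) : ℂ) := by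
    push_cast
    rw [← Complex.exp_int_mul]
  exact_mod_cast h

theorem opL_exp_half (c u : ℝ) : opL c (fun v => Real.exp (v / 2)) u = 0 := by
  unfold opL
  have h : ∀ i : Fin 9, gam c i * Real.exp ((u + (((i : ℕ) : ℝ) - 4) * c) / 2) =
      Real.exp (u / 2) * (gam c i * Real.exp (c / 2) ^ (((i : ℕ) : ℤ) - 4)) := by
    intro i
    rw [exp_zpow', mul_left_comm, ← Real.exp_add]
    congr 2
    push_cast
    ring
  simp_rw [h]
  rw [← Finset.mul_sum, opL_exp_aux c, mul_zero]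

theorem opL_exp_neg_half (c u : ℝ) : opL c (fun v => Real.exp (-v / 2)) u = 0 := by
  have h := opL_neg c (fun v => Real.exp (v / 2)) u
  rw [opL_exp_half] at h
  exact h.symm

theorem theta_exp (v : ℝ) :
    Real.exp (v / 2) * Gs (Real.exp v) =
      (1 / 2 + (-(1 / 2)) * Real.exp (v / 2)) + Gs (Real.exp (-v)) := by
  have h := Gs_theta (Real.exp v) (Real.exp_pos v)
  rw [sqrt_exp, one_div, ← Real.exp_neg] at h
  have h2 := Real.exp_pos (v / 2)
  rw [eq_div_iff h2.ne'] at h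
  linarith

theorem Psi_eq_neg (c w : ℝ) : Psi c w = opL c (fun v => Gs (Real.exp (-v))) w := by
  unfold Psi
  simp_rw [theta_exp]
  rw [opL_add, opL_add, opL_mul, opL_const, opL_exp_half]
  ring

theorem Psi_neg (c w : ℝ) : Psi c (-w) = opL c (fun v => Gs (Real.exp v)) w := by
  rw [Psi_eq_neg, opL_neg]
  simp only [neg_neg]

/-- Bound of `opL` by a bound on a window. -/
theorem opL_le (c : ℝ) (hc : 0 < c) (f : ℝ → ℝ) (u B : ℝ)
    (h : ∀ v, |v - u| ≤ 4 * c → |f v| ≤ B) :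
    |opL c f u| ≤ (∑ i : Fin 9, |gam c i|) * B := by
  unfold opL
  refine (Finset.abs_sum_le_sum_abs _ _).trans ?_
  rw [Finset.sum_mul]
  refine Finset.sum_le_sum fun i _ => ?_
  rw [abs_mul]
  refine mul_le_mul_of_nonneg_left (h _ ?_) (abs_nonneg _)
  rw [add_sub_cancel_left, abs_mul, abs_of_pos hc]
  refine mul_le_mul_of_nonneg_right ?_ hc.le
  have h1 : ((i : ℕ) : ℝ) ≤ 8 := by
    have := i.isLt
    exact_mod_cast (by omega : (i : ℕ) ≤ 8)
  have h2 : (0 : ℝ) ≤ ((i : ℕ) : ℝ) := Nat.cast_nonneg _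
  rw [abs_le]
  constructor <;> linarith

theorem gamS_nonneg (c : ℝ) : 0 ≤ ∑ i : Fin 9, |gam c i| :=
  Finset.sum_nonneg fun _ _ => abs_nonneg _

theorem exp_win (c u v : ℝ) (h : |v - u| ≤ 4 * c) :
    Real.exp (-(4 * c)) * Real.exp u ≤ Real.exp v ∧ v ≤ u + 4 * c := by
  rw [abs_le] at h
  constructor
  · rw [← Real.exp_add, Real.exp_le_exp]
    linarith
  · linarith

theorem psi0_bound (c : ℝ) (hc : 0 < c) : ∃ C κ : ℝ, 0 < C ∧ 0 < κ ∧ ∀ w : ℝ,
    |psi0 c w| ≤ C * (Real.exp (w / 2) * Real.exp (-(κ * Real.exp w))) := by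
  have hS := gamS_nonneg c
  have hpi := Real.pi_pos
  refine ⟨(∑ i : Fin 9, |gam c i| + 1) * Real.exp (2 * c), Real.pi * Real.exp (-(4 * c)),
    by positivity, by positivity, fun w => ?_⟩
  unfold psi0
  refine (opL_le c hc _ w (Real.exp (2 * c) * (Real.exp (w / 2) *
    Real.exp (-(Real.pi * Real.exp (-(4 * c)) * Real.exp w)))) ?_).trans ?_
  · intro v hv
    obtain ⟨h1, h2⟩ := exp_win c w v hv
    rw [abs_of_nonneg (by positivity), ← mul_assoc, ← Real.exp_add (2 * c)]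
    refine mul_le_mul ?_ ?_ (Real.exp_pos _).le (Real.exp_pos _).le
    · rw [Real.exp_le_exp]
      linarith
    · rw [Real.exp_le_exp]
      nlinarith
  · have h3 : 0 ≤ Real.exp (2 * c) * (Real.exp (w / 2) *
      Real.exp (-(Real.pi * Real.exp (-(4 * c)) * Real.exp w))) := by positivity
    nlinarith

theorem psi0_continuous (c : ℝ) : Continuous (psi0 c) := by
  unfold psi0 opL
  fun_prop

theorem Psi_hasSum (c w : ℝ) :
    HasSum (fun r : ℕ => (1 / ((r : ℝ) + 1)) * psi0 c (w + 2 * Real.log ((r : ℝ) + 1)))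
      (Psi c w) := by
  have h1 : ∀ r : ℕ, (1 / ((r : ℝ) + 1)) * psi0 c (w + 2 * Real.log ((r : ℝ) + 1)) =
      ∑ i : Fin 9, gam c i * (Real.exp ((w + (((i : ℕ) : ℝ) - 4) * c) / 2) *
        Real.exp (-Real.pi * Real.exp (w + (((i : ℕ) : ℝ) - 4) * c) * ((r : ℝ) + 1) ^ 2)) := by
    intro r
    have hr : (0 : ℝ) < (r : ℝ) + 1 := by positivity
    unfold psi0 opL
    rw [Finset.mul_sum]
    refine Finset.sum_congr rfl fun i _ => ?_
    have e1 : Real.exp ((w + 2 * Real.log ((r : ℝ) + 1) + (((i : ℕ) : ℝ) - 4) * c) / 2) =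
        ((r : ℝ) + 1) * Real.exp ((w + (((i : ℕ) : ℝ) - 4) * c) / 2) := by
      rw [show (w + 2 * Real.log ((r : ℝ) + 1) + (((i : ℕ) : ℝ) - 4) * c) / 2 =
        Real.log ((r : ℝ) + 1) + (w + (((i : ℕ) : ℝ) - 4) * c) / 2 by ring, Real.exp_add,
        Real.exp_log hr]
    have e2 : Real.exp (w + 2 * Real.log ((r : ℝ) + 1) + (((i : ℕ) : ℝ) - 4) * c) =
        ((r : ℝ) + 1) ^ 2 * Real.exp (w + (((i : ℕ) : ℝ) - 4) * c) := by
      rw [show w + 2 * Real.log ((r : ℝ) + 1) + (((i : ℕ) : ℝ) - 4) * c =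
        Real.log ((r : ℝ) + 1) + Real.log ((r : ℝ) + 1) + (w + (((i : ℕ) : ℝ) - 4) * c) by ring,
        Real.exp_add, Real.exp_add, Real.exp_log hr]
      ring
    simp only [e1, e2]
    rw [show -Real.pi * (((r : ℝ) + 1) ^ 2 * Real.exp (w + (((i : ℕ) : ℝ) - 4) * c)) =
      -Real.pi * Real.exp (w + (((i : ℕ) : ℝ) - 4) * c) * ((r : ℝ) + 1) ^ 2 by ring]
    field_simp
  simp_rw [h1]
  unfold Psi opL
  refine hasSum_sum fun i _ => ?_
  refine HasSum.mul_left _ (HasSum.mul_left _ ?_)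
  exact (Gs_summable _ (Real.exp_pos _)).hasSum

theorem Psi_summable_abs (c w : ℝ) (hc : 0 < c) :
    Summable (fun r : ℕ => |(1 / ((r : ℝ) + 1)) * psi0 c (w + 2 * Real.log ((r : ℝ) + 1))|) :=
  (Psi_hasSum c w).summable.abs

/-- `√x Gs(x) ≤ C e^(-x)` for all `x > 0`, written at `x = e^v`. -/
theorem Gs_all : ∃ C : ℝ, 0 < C ∧ ∀ v : ℝ,
    Real.exp (v / 2) * Gs (Real.exp v) ≤ C * Real.exp (-Real.exp v) := by
  obtain ⟨C₁, hC₁, h1⟩ := Gs_exp
  refine ⟨C₁ + 1, by linarith, fun v => ?_⟩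
  have hx := Real.exp_pos v
  have hs := Real.exp_pos (v / 2)
  have hE := Real.exp_pos (-Real.exp v)
  by_cases h : 1 / 8 ≤ Real.exp v
  · have h2 := h1 _ h
    have h3 : Real.exp (v / 2) ≤ Real.exp (Real.exp v) := by
      rw [Real.exp_le_exp]
      have := Real.add_one_le_exp v
      have := Real.add_one_le_exp (v / 2)
      have h4 : Real.exp v = Real.exp (v / 2) ^ 2 := by
        rw [← Real.exp_nat_mul]
        congr 1
        push_cast
        ring
      rw [h4]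
      nlinarith [sq_nonneg (Real.exp (v / 2) - 1 / 2)]
    calc Real.exp (v / 2) * Gs (Real.exp v)
        ≤ Real.exp (Real.exp v) * (C₁ * Real.exp (-Real.pi * Real.exp v)) :=
          mul_le_mul h3 h2 (Gs_nonneg _) (Real.exp_pos _).le
      _ = C₁ * (Real.exp (Real.exp v) * Real.exp (-Real.pi * Real.exp v)) := by ring
      _ ≤ C₁ * Real.exp (-Real.exp v) := by
          refine mul_le_mul_of_nonneg_left ?_ hC₁.le
          rw [← Real.exp_add, Real.exp_le_exp]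
          have := Real.pi_gt_three
          nlinarith
      _ ≤ (C₁ + 1) * Real.exp (-Real.exp v) := by nlinarith
  · rw [not_le] at h
    have h2 := Gs_le (Real.exp v) hx
    rw [sqrt_exp] at h2
    have h3 : Real.exp (v / 2) * Gs (Real.exp v) ≤ 1 / 2 := by
      have h4 := mul_le_mul_of_nonneg_left h2 hs.le
      refine h4.trans (le_of_eq ?_)
      field_simp
    have h4 : 1 / 2 ≤ Real.exp (-Real.exp v) := by
      have := Real.add_one_le_exp (-Real.exp v)
      linarith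
    nlinarith

theorem Gs_all' : ∃ C : ℝ, 0 < C ∧ ∀ v : ℝ,
    Gs (Real.exp v) ≤ C * (Real.exp (-(v / 2)) * Real.exp (-Real.exp v)) := by
  obtain ⟨C, hC, h⟩ := Gs_all
  refine ⟨C, hC, fun v => ?_⟩
  have h1 := mul_le_mul_of_nonneg_left (h v) (Real.exp_pos (-(v / 2))).le
  rw [← mul_assoc, ← Real.exp_add, neg_add_cancel, Real.exp_zero, one_mul] at h1
  refine h1.trans (le_of_eq ?_)
  ring

theorem Psi_bound (c : ℝ) (hc : 0 < c) : ∃ C κ : ℝ, 0 < C ∧ 0 < κ ∧ ∀ w : ℝ,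
    |Psi c w| ≤ C * Real.exp (-(κ * Real.exp |w|)) := by
  obtain ⟨C₁, hC₁, h1⟩ := Gs_all
  obtain ⟨C₂, hC₂, h2⟩ := Gs_all'
  have hS := gamS_nonneg c
  set S := ∑ i : Fin 9, |gam c i| with hSdef
  have hE := Real.exp_pos (2 * c)
  refine ⟨(S + 1) * (C₁ + C₂ * Real.exp (2 * c)), Real.exp (-(4 * c)), by positivity,
    by positivity, fun w => ?_⟩
  have key : ∀ B : ℝ, 0 ≤ B → B ≤ C₁ + C₂ * Real.exp (2 * c) → ∀ f : ℝ → ℝ,
      (∀ v, |v - (|w|)| ≤ 4 * c → |f v| ≤ B * Real.exp (-Real.exp v)) →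
      |opL c f (|w|)| ≤ (S + 1) * (C₁ + C₂ * Real.exp (2 * c)) *
        Real.exp (-(Real.exp (-(4 * c)) * Real.exp |w|)) := by
    intro B hB0 hB f hf
    set T := Real.exp (-(Real.exp (-(4 * c)) * Real.exp |w|)) with hT
    have hT0 : 0 < T := Real.exp_pos _
    refine (opL_le c hc f (|w|) (B * T) ?_).trans ?_
    · intro v hv
      refine (hf v hv).trans ?_
      refine mul_le_mul_of_nonneg_left ?_ hB0
      rw [hT, Real.exp_le_exp]
      have := (exp_win c (|w|) v hv).1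
      linarith
    · rw [← hSdef]
      have h3 : B * T ≤ (C₁ + C₂ * Real.exp (2 * c)) * T := mul_le_mul_of_nonneg_right hB hT0.le
      have h4 : 0 ≤ (C₁ + C₂ * Real.exp (2 * c)) * T := by positivity
      have h5 := mul_le_mul_of_nonneg_left h3 hS
      nlinarith
  have hCE : 0 < C₂ * Real.exp (2 * c) := by positivity
  rcases le_total 0 w with hw | hw
  · have h3 : Psi c w = opL c (fun v => Real.exp (v / 2) * Gs (Real.exp v)) |w| := by
      rw [abs_of_nonneg hw]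
      rfl
    rw [h3]
    refine key C₁ hC₁.le (by linarith) _ fun v _ => ?_
    rw [abs_of_nonneg (mul_nonneg (Real.exp_pos _).le (Gs_nonneg _))]
    exact h1 v
  · have h3 : Psi c w = opL c (fun v => Gs (Real.exp v)) |w| := by
      rw [abs_of_nonpos hw, ← Psi_neg, neg_neg]
    rw [h3]
    refine key (C₂ * Real.exp (2 * c)) hCE.le (by linarith) _ fun v hv => ?_
    rw [abs_of_nonneg (Gs_nonneg _)]
    refine (h2 v).trans ?_
    rw [← mul_assoc]
    refine mul_le_mul_of_nonneg_right ?_ (Real.exp_pos _).le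
    refine mul_le_mul_of_nonneg_left ?_ hC₂.le
    rw [Real.exp_le_exp]
    rw [abs_le] at hv
    have := abs_nonneg w
    linarith

/-- The derivative of `Gs`. -/
noncomputable def Gs' (x : ℝ) : ℝ :=
  ∑' m : ℕ, (-Real.pi * ((m : ℝ) + 1) ^ 2) * Real.exp (-Real.pi * x * ((m : ℝ) + 1) ^ 2)

theorem te_le (t : ℝ) : t * Real.exp (-t) ≤ Real.exp (-(t / 2)) := by
  have h1 : t ≤ Real.exp (t / 2) := by
    have h2 := Real.add_one_le_exp (t / 4)
    have h3 : Real.exp (t / 2) = Real.exp (t / 4) ^ 2 := by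
      rw [← Real.exp_nat_mul]
      congr 1
      push_cast
      ring
    rcases le_total t 0 with h | h
    · exact h.trans (Real.exp_pos _).le
    · rw [h3]
      have h4 : (t / 4 + 1) ^ 2 ≤ Real.exp (t / 4) ^ 2 := pow_le_pow_left₀ (by linarith) h2 2
      nlinarith [sq_nonneg (t / 4 - 1)]
  have h2 := mul_le_mul_of_nonneg_right h1 (Real.exp_pos (-t)).le
  refine h2.trans (le_of_eq ?_)
  rw [← Real.exp_add]
  congr 1
  ring

theorem dterm_le (x : ℝ) (hx : 0 < x) (m : ℕ) :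
    x * |(-Real.pi * ((m : ℝ) + 1) ^ 2) * Real.exp (-Real.pi * x * ((m : ℝ) + 1) ^ 2)| ≤
      Real.exp (-Real.pi * (x / 2) * ((m : ℝ) + 1) ^ 2) := by
  have hpi := Real.pi_pos
  rw [abs_mul, abs_mul, abs_neg, abs_of_pos hpi, abs_of_nonneg (sq_nonneg _),
    abs_of_pos (Real.exp_pos _)]
  have h := te_le (Real.pi * x * ((m : ℝ) + 1) ^ 2)
  refine le_trans (le_of_eq ?_) (h.trans (le_of_eq ?_))
  · rw [show -(Real.pi * x * ((m : ℝ) + 1) ^ 2) = -Real.pi * x * ((m : ℝ) + 1) ^ 2 by ring]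
    ring
  · congr 1
    ring

theorem Gs_hasDerivAt (x : ℝ) (hx : 0 < x) : HasDerivAt Gs (Gs' x) x := by
  have hpi := Real.pi_pos
  have hx2 : 0 < x / 2 := by linarith
  have key := hasDerivAt_tsum_of_isPreconnected (t := Set.Ioi (x / 2)) (y₀ := x) (y := x)
    (u := fun m : ℕ => (x / 2)⁻¹ * Real.exp (-Real.pi * (x / 2 / 2) * ((m : ℝ) + 1) ^ 2))
    (g := fun (m : ℕ) (y : ℝ) => Real.exp (-Real.pi * y * ((m : ℝ) + 1) ^ 2))
    (g' := fun (m : ℕ) (y : ℝ) => (-Real.pi * ((m : ℝ) + 1) ^ 2) *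
      Real.exp (-Real.pi * y * ((m : ℝ) + 1) ^ 2))
    ((Gs_summable (x / 2 / 2) (by linarith)).mul_left _) isOpen_Ioi isPreconnected_Ioi
    (fun m y _ => by
      have h1 : HasDerivAt (fun y : ℝ => -Real.pi * y * ((m : ℝ) + 1) ^ 2)
          (-Real.pi * ((m : ℝ) + 1) ^ 2) y := by
        have := ((hasDerivAt_id y).const_mul (-Real.pi)).mul_const (((m : ℝ) + 1) ^ 2)
        simpa using this
      have h2 := h1.exp
      rw [mul_comm] at h2
      exact h2)
    (fun m y hy => by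
      have hy' : x / 2 < y := hy
      have hy0 : 0 < y := by linarith
      rw [Real.norm_eq_abs]
      have h1 : |(-Real.pi * ((m : ℝ) + 1) ^ 2) * Real.exp (-Real.pi * y * ((m : ℝ) + 1) ^ 2)| ≤
          |(-Real.pi * ((m : ℝ) + 1) ^ 2) * Real.exp (-Real.pi * (x / 2) * ((m : ℝ) + 1) ^ 2)| := by
        rw [abs_mul, abs_mul (-Real.pi * ((m : ℝ) + 1) ^ 2) (Real.exp (-Real.pi * (x / 2) * ((m : ℝ) + 1) ^ 2)),
          abs_of_pos (Real.exp_pos _), abs_of_pos (Real.exp_pos _)]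
        refine mul_le_mul_of_nonneg_left ?_ (abs_nonneg _)
        rw [Real.exp_le_exp]
        have h3 : 0 ≤ Real.pi * ((m : ℝ) + 1) ^ 2 := by positivity
        nlinarith
      refine h1.trans ?_
      have h4 := dterm_le (x / 2) hx2 m
      rw [← div_eq_inv_mul, le_div_iff₀ hx2, mul_comm]
      exact h4)
    (show x ∈ Set.Ioi (x / 2) by simp only [Set.mem_Ioi]; linarith)
    (Gs_summable x hx)
    (show x ∈ Set.Ioi (x / 2) by simp only [Set.mem_Ioi]; linarith)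
  exact key

theorem Gs'_le (x : ℝ) (hx : 0 < x) : x * |Gs' x| ≤ Gs (x / 2) := by
  have h1 : ∀ m : ℕ, |(-Real.pi * ((m : ℝ) + 1) ^ 2) * Real.exp (-Real.pi * x * ((m : ℝ) + 1) ^ 2)| ≤
      x⁻¹ * Real.exp (-Real.pi * (x / 2) * ((m : ℝ) + 1) ^ 2) := by
    intro m
    have := dterm_le x hx m
    rw [← div_eq_inv_mul, le_div_iff₀ hx, mul_comm]
    exact this
  have hs := (Gs_summable (x / 2) (by linarith)).mul_left x⁻¹
  have hs2 : Summable fun m : ℕ => |(-Real.pi * ((m : ℝ) + 1) ^ 2) *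
      Real.exp (-Real.pi * x * ((m : ℝ) + 1) ^ 2)| :=
    Summable.of_nonneg_of_le (fun _ => abs_nonneg _) h1 hs
  have h2 : |Gs' x| ≤ ∑' m : ℕ, |(-Real.pi * ((m : ℝ) + 1) ^ 2) *
      Real.exp (-Real.pi * x * ((m : ℝ) + 1) ^ 2)| := by
    have := norm_tsum_le_tsum_norm (f := fun m : ℕ => (-Real.pi * ((m : ℝ) + 1) ^ 2) *
      Real.exp (-Real.pi * x * ((m : ℝ) + 1) ^ 2)) (by simpa only [Real.norm_eq_abs] using hs2)
    simp only [Real.norm_eq_abs] at this
    exact this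
  have h3 := h2.trans (hs2.tsum_le_tsum h1 hs)
  rw [tsum_mul_left] at h3
  have h4 := mul_le_mul_of_nonneg_left h3 hx.le
  rw [← mul_assoc, mul_inv_cancel₀ hx.ne', one_mul] at h4
  exact h4

/-- Derivative of `v ↦ Gs(e^v)`. -/
theorem GsE_hasDerivAt (v : ℝ) :
    HasDerivAt (fun v => Gs (Real.exp v)) (Real.exp v * Gs' (Real.exp v)) v := by
  have h := (Gs_hasDerivAt (Real.exp v) (Real.exp_pos v)).comp v (Real.hasDerivAt_exp v)
  rw [mul_comm]
  exact h

theorem GsE_deriv_le : ∃ C : ℝ, 0 < C ∧ ∀ v : ℝ, |Real.exp v * Gs' (Real.exp v)| ≤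
    C * (Real.exp (-(v / 2)) * Real.exp (-(Real.exp v / 2))) := by
  obtain ⟨C, hC, h⟩ := Gs_all'
  have hl2 : 0 < Real.exp (Real.log 2 / 2) := Real.exp_pos _
  refine ⟨C * Real.exp (Real.log 2 / 2), by positivity, fun v => ?_⟩
  rw [abs_mul, abs_of_pos (Real.exp_pos _)]
  refine (Gs'_le _ (Real.exp_pos v)).trans ?_
  have h1 : Real.exp v / 2 = Real.exp (v - Real.log 2) := by
    rw [Real.exp_sub, Real.exp_log (by norm_num)]
  have h2 := h (v - Real.log 2)
  rw [← h1] at h2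
  refine h2.trans (le_of_eq ?_)
  rw [show -((v - Real.log 2) / 2) = Real.log 2 / 2 + -(v / 2) by ring, Real.exp_add]
  ring

theorem opL_hasDerivAt (c : ℝ) (f f' : ℝ → ℝ) (h : ∀ v, HasDerivAt f (f' v) v) (u : ℝ) :
    HasDerivAt (opL c f) (opL c f' u) u := by
  unfold opL
  refine HasDerivAt.fun_sum fun i _ => ?_
  refine HasDerivAt.const_mul _ ?_
  exact (h _).comp_add_const _ _

theorem Psi_deriv (c : ℝ) (hc : 0 < c) : ∃ C κ : ℝ, 0 < C ∧ 0 < κ ∧ ∀ w : ℝ,
    DifferentiableAt ℝ (Psi c) w ∧ |deriv (Psi c) w| ≤ C * Real.exp (-(κ * Real.exp |w|)) := by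
  obtain ⟨C₁, hC₁, h1⟩ := Gs_all
  obtain ⟨C₂, hC₂, h2⟩ := GsE_deriv_le
  have hS := gamS_nonneg c
  set S := ∑ i : Fin 9, |gam c i| with hSdef
  have hE := Real.exp_pos (2 * c)
  have hCE : 0 < C₂ * Real.exp (2 * c) := by positivity
  -- the two representations of the derivative
  set f₁ : ℝ → ℝ := fun v => Real.exp (v / 2) * (1 / 2) * Gs (Real.exp v) +
    Real.exp (v / 2) * (Real.exp v * Gs' (Real.exp v)) with hf₁
  set f₂ : ℝ → ℝ := fun v => Real.exp v * Gs' (Real.exp v) with hf₂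
  have hd1 : ∀ w, HasDerivAt (Psi c) (opL c f₁ w) w := by
    intro w
    refine opL_hasDerivAt c (fun v => Real.exp (v / 2) * Gs (Real.exp v)) f₁ (fun v => ?_) w
    have h3 : HasDerivAt (fun v : ℝ => Real.exp (v / 2)) (Real.exp (v / 2) * (1 / 2)) v := by
      have := ((hasDerivAt_id v).div_const 2).exp
      simpa using this
    exact h3.mul (GsE_hasDerivAt v)
  have hd2 : ∀ w, HasDerivAt (Psi c) (-(opL c f₂ (-w))) w := by
    intro w
    have h3 : Psi c = fun w => opL c (fun v => Gs (Real.exp v)) (-w) := by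
      funext w
      rw [← Psi_neg, neg_neg]
    rw [h3]
    have h4 := opL_hasDerivAt c (fun v => Gs (Real.exp v)) f₂ GsE_hasDerivAt (-w)
    have h5 := h4.comp w (hasDerivAt_neg w)
    rw [mul_neg_one] at h5
    exact h5
  refine ⟨(S + 1) * (C₁ + C₂ + C₂ * Real.exp (2 * c)), Real.exp (-(4 * c)) / 2, by positivity,
    by positivity, fun w => ⟨(hd1 w).differentiableAt, ?_⟩⟩
  have key : ∀ B : ℝ, 0 ≤ B → B ≤ C₁ + C₂ + C₂ * Real.exp (2 * c) → ∀ f : ℝ → ℝ,
      (∀ v, |v - (|w|)| ≤ 4 * c → |f v| ≤ B * Real.exp (-(Real.exp v / 2))) →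
      |opL c f (|w|)| ≤ (S + 1) * (C₁ + C₂ + C₂ * Real.exp (2 * c)) *
        Real.exp (-(Real.exp (-(4 * c)) / 2 * Real.exp |w|)) := by
    intro B hB0 hB f hf
    set T := Real.exp (-(Real.exp (-(4 * c)) / 2 * Real.exp |w|)) with hT
    have hT0 : 0 < T := Real.exp_pos _
    refine (opL_le c hc f (|w|) (B * T) ?_).trans ?_
    · intro v hv
      refine (hf v hv).trans ?_
      refine mul_le_mul_of_nonneg_left ?_ hB0
      rw [hT, Real.exp_le_exp]
      have := (exp_win c (|w|) v hv).1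
      linarith
    · rw [← hSdef]
      have h3 : B * T ≤ (C₁ + C₂ + C₂ * Real.exp (2 * c)) * T :=
        mul_le_mul_of_nonneg_right hB hT0.le
      have h4 : 0 ≤ (C₁ + C₂ + C₂ * Real.exp (2 * c)) * T := by positivity
      have h5 := mul_le_mul_of_nonneg_left h3 hS
      nlinarith
  rcases le_total 0 w with hw | hw
  · rw [(hd1 w).deriv]
    have h3 : opL c f₁ w = opL c f₁ |w| := by rw [abs_of_nonneg hw]
    rw [h3]
    refine key (C₁ + C₂) (by positivity) (by linarith) _ fun v _ => ?_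
    have h4 : |Real.exp (v / 2) * (1 / 2) * Gs (Real.exp v)| ≤ C₁ * Real.exp (-(Real.exp v / 2)) := by
      rw [abs_of_nonneg (mul_nonneg (by positivity) (Gs_nonneg _))]
      have h5 := h1 v
      have h6 : Real.exp (-Real.exp v) ≤ Real.exp (-(Real.exp v / 2)) := by
        rw [Real.exp_le_exp]
        have := Real.exp_pos v
        linarith
      have h7 : 0 ≤ Real.exp (v / 2) * Gs (Real.exp v) := mul_nonneg (Real.exp_pos _).le (Gs_nonneg _)
      have h8 := mul_le_mul_of_nonneg_left h6 hC₁.le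
      linarith
    have h5 : |Real.exp (v / 2) * (Real.exp v * Gs' (Real.exp v))| ≤
        C₂ * Real.exp (-(Real.exp v / 2)) := by
      rw [abs_mul, abs_of_pos (Real.exp_pos (v / 2))]
      have h6 := mul_le_mul_of_nonneg_left (h2 v) (Real.exp_pos (v / 2)).le
      refine h6.trans (le_of_eq ?_)
      rw [show Real.exp (v / 2) * (C₂ * (Real.exp (-(v / 2)) * Real.exp (-(Real.exp v / 2)))) =
        (Real.exp (v / 2) * Real.exp (-(v / 2))) * (C₂ * Real.exp (-(Real.exp v / 2))) by ring,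
        ← Real.exp_add, add_neg_cancel, Real.exp_zero, one_mul]
    have h6 := (abs_add_le (Real.exp (v / 2) * (1 / 2) * Gs (Real.exp v))
      (Real.exp (v / 2) * (Real.exp v * Gs' (Real.exp v))))
    rw [hf₁]
    simp only
    linarith
  · rw [(hd2 w).deriv, abs_neg]
    have h3 : opL c f₂ (-w) = opL c f₂ |w| := by rw [abs_of_nonpos hw]
    rw [h3]
    refine key (C₂ * Real.exp (2 * c)) hCE.le (by linarith) _ fun v hv => ?_
    refine (h2 v).trans ?_
    rw [← mul_assoc]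
    refine mul_le_mul_of_nonneg_right ?_ (Real.exp_pos _).le
    refine mul_le_mul_of_nonneg_left ?_ hC₂.le
    rw [Real.exp_le_exp]
    rw [abs_le] at hv
    have := abs_nonneg w
    linarith

theorem Psi_continuous (c : ℝ) (hc : 0 < c) : Continuous (Psi c) := by
  obtain ⟨C, κ, _, _, h⟩ := Psi_deriv c hc
  exact continuous_iff_continuousAt.mpr fun w => (h w).1.continuousAt

theorem superexp_le (κ : ℝ) (hκ : 0 < κ) (k t : ℝ) (ht : 0 ≤ t) :
    Real.exp (-(κ * Real.exp t)) ≤ Real.exp (k ^ 2 / (2 * κ)) * Real.exp (-(k * t)) := by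
  rw [← Real.exp_add, Real.exp_le_exp]
  have h1 : 1 + t + t ^ 2 / 2 ≤ Real.exp t := Real.quadratic_le_exp_of_nonneg ht
  have h2 : κ * (t ^ 2 / 2) ≤ κ * Real.exp t := mul_le_mul_of_nonneg_left (by linarith) hκ.le
  have h3 : k * t ≤ k ^ 2 / (2 * κ) + κ * (t ^ 2 / 2) := by
    have h4 : k ^ 2 / (2 * κ) + κ * (t ^ 2 / 2) - k * t = (k - κ * t) ^ 2 / (2 * κ) := by
      field_simp
      ring
    have h5 : 0 ≤ (k - κ * t) ^ 2 / (2 * κ) := by positivity
    linarith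
  linarith

theorem Psi_exp_bound (c : ℝ) (hc : 0 < c) (k : ℕ) : ∃ C : ℝ, 0 < C ∧ ∀ w : ℝ,
    |Psi c w| ≤ C * Real.exp (-(k * |w|)) ∧ |deriv (Psi c) w| ≤ C * Real.exp (-(k * |w|)) := by
  obtain ⟨C₁, κ₁, hC₁, hκ₁, h1⟩ := Psi_bound c hc
  obtain ⟨C₂, κ₂, hC₂, hκ₂, h2⟩ := Psi_deriv c hc
  refine ⟨C₁ * Real.exp ((k : ℝ) ^ 2 / (2 * κ₁)) + C₂ * Real.exp ((k : ℝ) ^ 2 / (2 * κ₂)),
    by positivity, fun w => ?_⟩
  have a1 := mul_le_mul_of_nonneg_left (superexp_le κ₁ hκ₁ k |w| (abs_nonneg w)) hC₁.le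
  have a2 := mul_le_mul_of_nonneg_left (superexp_le κ₂ hκ₂ k |w| (abs_nonneg w)) hC₂.le
  have b1 : 0 ≤ C₁ * (Real.exp ((k : ℝ) ^ 2 / (2 * κ₁)) * Real.exp (-(k * |w|))) := by positivity
  have b2 : 0 ≤ C₂ * (Real.exp ((k : ℝ) ^ 2 / (2 * κ₂)) * Real.exp (-(k * |w|))) := by positivity
  have c1 := h1 w
  have c2 := (h2 w).2
  constructor
  · rw [add_mul, mul_assoc, mul_assoc]
    linarith
  · rw [add_mul, mul_assoc, mul_assoc]
    linarith

end Pool.Hhelper76.SC
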