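import Pool.Agent.Hhelper76.SC.NDefs
import Pool.Agent.Hhelper85.CZ.Param
import Pool.Agent.Hhelper76.CL.Forms

/-!
# SC module N1 (QIdeal): ideals of an imaginary quadratic field as `r J(h, b)`

PAPER PROOF. `exists_QD`: `exists_omega` of `Pool/Agent/Hhelper85/CZ/Param.lean` (its proof also contains
`ω² = tω - q`; or deduce it). Let `4h ∣ D + b²`, `h ≥ 1`. Then `b ≡ t mod 2` (as `D ≡ -t² mod 4`); put
`β = (t - b)/2`, `N(ω - β) = β² - tβ + q = (D + b²)/4`. `ℤ h + ℤ (ω - β)` is an ideal: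
`ω(ω - β) = (t - β)(ω - β) + (tβ - q - β²)` and `h ∣ N(ω-β)`; `h ω = h(ω-β) + hβ`. So `J_mem`. Its index is `h`
(`absNorm`: e.g. the quotient is `ℤ/h` via `x = m + nω ↦ m + nβ`; or `Ideal.natAbs_det_basis_change`).
`J_prim`: if `(n)` divides `J h b` then `n ∣ ω - β` so `n = 1`.
`decomp`: let `I ≠ 0` be an ideal. `{n : m + nω ∈ I}` is an ideal `rℤ`, `r ≥ 1` of `ℤ`; every element of `I` is
divisible by `r`: if `x = m + nω ∈ I` then `ωx ∈ I` has `ω`-coordinate `m + nt`, so `r ∣ n`, `r ∣ m`. Replace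
`I` by `r⁻¹I`: now `1` is an `ω`-coordinate: `ω - β ∈ I`, and `I ∩ ℤ = hℤ`, so `I = ℤh + ℤ(ω - β)`, `h ≥ 1`,
`β` is determined mod `h`, `h ∣ N(ω - β)`, `b := t - 2β` is determined mod `2h`, choose it in `[-h, h)`;
`4h ∣ 4N(ω-β) = D + b²`. Uniqueness is clear from the construction (`J h b` contains `ω - β`, and
`J h b ∩ ℤ = hℤ`).
`small_unique`: if `J = J h b`, `J' = J h' b'` are in the same class and `4 h h' < D`: with `J̄'` (conj),
`J J̄' = (α)`, `N(α) = hh'`, `α = m + nω`; `N(α) = (m + nt/2)² + n² D/4`, so `n = 0`, `α = m`, `m² = hh'`,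
`h' J = J J' J̄' = m J'`, both primitive, so `h' = |m| = h`, `J = J'`.
-/

open scoped NumberField nonZeroDivisors
open Pool.Hhelper85.CZ

namespace Pool.Hhelper76.SC

variable {K : Type} [Field K] [NumberField K]

theorem exists_omega' (K : Type) [Field K] [NumberField K] (h2 : Module.finrank ℚ K = 2) :
    ∃ (ω : 𝓞 K) (t q : ℤ), ω * ω = (t : 𝓞 K) * ω - (q : 𝓞 K) ∧
      (∀ x : 𝓞 K, ∃ m n : ℤ, x = m + n * ω) ∧
      (∀ m n : ℤ, (m : 𝓞 K) + n * ω = 0 → m = 0 ∧ n = 0) ∧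
      (∀ m n : ℤ, Algebra.norm ℤ ((m : 𝓞 K) + n * ω) = m ^ 2 + t * m * n + q * n ^ 2) ∧
      NumberField.discr K = t ^ 2 - 4 * q := by
  classical
  obtain ⟨B, hB⟩ := exists_basis K h2
  set ω : 𝓞 K := B 1 with hω
  have hall : ∀ x : 𝓞 K, x = (B.repr x 0 : 𝓞 K) + (B.repr x 1 : 𝓞 K) * ω := by
    intro x
    have := B.sum_repr x
    rw [Fin.sum_univ_two, hB, zsmul_eq_mul, zsmul_eq_mul, mul_one] at this
    exact this.symm
  have hrep : ∀ m n : ℤ, B.repr ((m : 𝓞 K) + n * ω) 0 = m ∧ B.repr ((m : 𝓞 K) + n * ω) 1 = n := by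
    intro m n
    have h1 : (m : 𝓞 K) + n * ω = m • B 0 + n • B 1 := by
      rw [hB, zsmul_eq_mul, zsmul_eq_mul, mul_one]
    rw [h1, map_add, map_smul, map_smul, B.repr_self, B.repr_self]
    constructor <;> simp
  set t : ℤ := B.repr (ω * ω) 1 with ht
  set q : ℤ := -B.repr (ω * ω) 0 with hq
  have hωω : ω * ω = -(q : 𝓞 K) + (t : 𝓞 K) * ω := by
    have := hall (ω * ω)
    rw [this, hq, ← ht]
    push_cast
    ring
  have hmat : ∀ m n : ℤ, Algebra.leftMulMatrix B ((m : 𝓞 K) + n * ω) =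
      !![m, -(n * q); n, m + n * t] := by
    intro m n
    have e0 : ((m : 𝓞 K) + n * ω) * B 0 = (m : 𝓞 K) + n * ω := by rw [hB, mul_one]
    have e1 : ((m : 𝓞 K) + n * ω) * B 1 = ((-(n * q) : ℤ) : 𝓞 K) + ((m + n * t : ℤ) : 𝓞 K) * ω := by
      rw [← hω]
      push_cast
      linear_combination (n : 𝓞 K) * hωω
    ext i j
    rw [Algebra.leftMulMatrix_eq_repr_mul]
    fin_cases j
    · change B.repr (((m : 𝓞 K) + n * ω) * B 0) i = _
      rw [e0]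
      fin_cases i
      · exact (hrep m n).1
      · exact (hrep m n).2
    · change B.repr (((m : 𝓞 K) + n * ω) * B 1) i = _
      rw [e1]
      fin_cases i
      · exact (hrep _ _).1
      · exact (hrep _ _).2
  have hnorm : ∀ m n : ℤ, Algebra.norm ℤ ((m : 𝓞 K) + n * ω) = m ^ 2 + t * m * n + q * n ^ 2 := by
    intro m n
    rw [Algebra.norm_eq_matrix_det B, hmat, Matrix.det_fin_two_of]
    ring
  have htr : ∀ m n : ℤ, Algebra.trace ℤ (𝓞 K) ((m : 𝓞 K) + n * ω) = 2 * m + n * t := by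
    intro m n
    rw [Algebra.trace_eq_matrix_trace B, hmat, Matrix.trace_fin_two_of]
    ring
  refine ⟨ω, t, q, by rw [hωω]; ring, fun x => ⟨_, _, hall x⟩, ?_, hnorm, ?_⟩
  · intro m n h
    have h1 := hrep m n
    simp only [h, map_zero, Finsupp.coe_zero, Pi.zero_apply] at h1
    exact ⟨h1.1.symm, h1.2.symm⟩
  · rw [← NumberField.discr_eq_discr K B, Algebra.discr_def, Matrix.det_fin_two]
    have t00 : Algebra.traceMatrix ℤ (B) 0 0 = 2 := by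
      rw [Algebra.traceMatrix_apply, Algebra.traceForm_apply, hB, mul_one]
      have := htr 1 0
      simpa using this
    have t01 : Algebra.traceMatrix ℤ (B) 0 1 = t := by
      rw [Algebra.traceMatrix_apply, Algebra.traceForm_apply, hB, one_mul]
      have := htr 0 1
      simpa using this
    have t10 : Algebra.traceMatrix ℤ (B) 1 0 = t := by
      rw [Algebra.traceMatrix_apply, Algebra.traceForm_apply, hB, mul_one]
      have := htr 0 1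
      simpa using this
    have t11 : Algebra.traceMatrix ℤ (B) 1 1 = t ^ 2 - 2 * q := by
      rw [Algebra.traceMatrix_apply, Algebra.traceForm_apply, ← hω, hωω]
      have := htr (-q) t
      rw [Int.cast_neg] at this
      rw [this]
      ring
    rw [t00, t01, t10, t11]
    ring



theorem exists_QD (K : Type) [Field K] [NumberField K] (h2 : Module.finrank ℚ K = 2) (D : ℕ)
    (hD4 : 4 < D) (hD : NumberField.discr K = -(D : ℤ)) : Nonempty (QD K D) := by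
  obtain ⟨ω, t, q, hmul, hspan, hind, hnorm, hdisc⟩ := exists_omega' K h2
  exact ⟨⟨ω, t, q, hspan, hind, hmul, hnorm, by rw [hD] at hdisc; linarith, hD4, h2, hD⟩⟩

theorem spn_coe (r : ℕ) (hr : 1 ≤ r) :
    (spn K r : Ideal (𝓞 K)) = Ideal.span {(r : 𝓞 K)} := by
  have h : (Ideal.span {(r : 𝓞 K)} : Ideal (𝓞 K)) ∈ (Ideal (𝓞 K))⁰ := by
    rw [mem_nonZeroDivisors_iff_ne_zero, Ideal.zero_eq_bot, Ne, Ideal.span_singleton_eq_bot]
    exact Nat.cast_ne_zero.2 (by omega)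
  rw [spn, dif_pos h]

theorem norm_nat (h2 : Module.finrank ℚ K = 2) (r : ℤ) :
    Algebra.norm ℤ ((r : ℤ) : 𝓞 K) = r ^ 2 := by
  have := Algebra.norm_algebraMap (S := 𝓞 K) r
  rw [NumberField.RingOfIntegers.rank, h2] at this
  simpa using this

theorem nm_spn (h2 : Module.finrank ℚ K = 2) (r : ℕ) (hr : 1 ≤ r) : nm K (spn K r) = r ^ 2 := by
  rw [nm, spn_coe r hr, Ideal.absNorm_span_singleton]
  have := norm_nat (K := K) h2 (r : ℤ)
  rw [Int.cast_natCast] at this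
  rw [this, Int.natAbs_pow, Int.natAbs_natCast]

theorem mk0_spn (r : ℕ) : ClassGroup.mk0 (spn K r) = 1 := by
  rw [spn]
  split_ifs with h
  · rw [ClassGroup.mk0_eq_one_iff]
    exact ⟨⟨_, rfl⟩⟩
  · exact map_one _

namespace QD

variable {D : ℕ} (d : QD K D)

theorem J_coe (h : ℕ) (b : ℤ) (hh : 1 ≤ h) : (d.J h b : Ideal (𝓞 K)) =
    Ideal.span {(h : 𝓞 K), d.ω - (((d.t - b) / 2 : ℤ) : 𝓞 K)} := by
  have h1 : (Ideal.span {(h : 𝓞 K), d.ω - (((d.t - b) / 2 : ℤ) : 𝓞 K)} : Ideal (𝓞 K)) ∈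
      (Ideal (𝓞 K))⁰ := by
    rw [mem_nonZeroDivisors_iff_ne_zero, Ideal.zero_eq_bot]
    intro h0
    have h2 : (h : 𝓞 K) ∈ (Ideal.span {(h : 𝓞 K), d.ω - (((d.t - b) / 2 : ℤ) : 𝓞 K)} :
        Ideal (𝓞 K)) := Ideal.subset_span (by simp)
    rw [h0, Ideal.mem_bot] at h2
    exact (Nat.cast_ne_zero.2 (by omega)) h2
  rw [QD.J, dif_pos h1]

theorem half_spec {h : ℕ} {b : ℤ} (hb : (4 * (h : ℤ)) ∣ (D : ℤ) + b ^ 2) :
    ∃ e : ℤ, 2 * ((d.t - b) / 2) = d.t - b ∧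
      ((d.t - b) / 2) ^ 2 - d.t * ((d.t - b) / 2) + d.q = h * e := by
  obtain ⟨e, he⟩ := hb
  have h1 := d.disc
  have h3 : (d.t - b) % 2 = 0 := by
    have h4 : (2 : ℤ) ∣ (d.t - b) * (d.t + b) := ⟨2 * (d.q - h * e), by linarith⟩
    rcases Int.prime_two.dvd_or_dvd h4 with h5 | h5 <;> omega
  have h2 : 2 * ((d.t - b) / 2) = d.t - b := by omega
  refine ⟨e, h2, ?_⟩
  set β := (d.t - b) / 2
  have hb' : b = d.t - 2 * β := by linarith
  rw [hb'] at he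
  nlinarith

theorem ext_iff' {m n m' n' : ℤ} (h : (m : 𝓞 K) + n * d.ω = (m' : 𝓞 K) + n' * d.ω) :
    m = m' ∧ n = n' := by
  have h1 : ((m - m' : ℤ) : 𝓞 K) + ((n - n' : ℤ) : 𝓞 K) * d.ω = 0 := by
    push_cast
    linear_combination h
  have h2 := d.ind _ _ h1
  omega

theorem J_mem (h : ℕ) (b : ℤ) (hh : 1 ≤ h) (hb : (4 * (h : ℤ)) ∣ (D : ℤ) + b ^ 2) (x : 𝓞 K) :
    x ∈ (d.J h b : Ideal (𝓞 K)) ↔
      ∃ m n : ℤ, x = ((m * h - n * ((d.t - b) / 2) : ℤ) : 𝓞 K) + (n : 𝓞 K) * d.ω := by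
  obtain ⟨e, he1, he2⟩ := half_spec d hb
  rw [J_coe d h b hh, Ideal.mem_span_pair]
  set β := (d.t - b) / 2
  have hmul := d.mul
  have he3 : ((β : 𝓞 K)) ^ 2 - d.t * β + d.q = h * e := by exact_mod_cast congrArg (Int.cast (R := 𝓞 K)) he2
  constructor
  · rintro ⟨a, c, rfl⟩
    obtain ⟨a1, a2, rfl⟩ := d.span a
    obtain ⟨c1, c2, rfl⟩ := d.span c
    refine ⟨a1 + a2 * β - c2 * e, a2 * h + c1 + c2 * (d.t - β), ?_⟩
    push_cast
    linear_combination (c2 : 𝓞 K) * hmul - (c2 : 𝓞 K) * he3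
  · rintro ⟨m, n, rfl⟩
    refine ⟨m, n, ?_⟩
    push_cast
    ring

theorem int_mem_J {h : ℕ} {b : ℤ} (hh : 1 ≤ h) (hb : (4 * (h : ℤ)) ∣ (D : ℤ) + b ^ 2) {g : ℤ}
    (hg : (g : 𝓞 K) ∈ (d.J h b : Ideal (𝓞 K))) : (h : ℤ) ∣ g := by
  obtain ⟨m, n, hmn⟩ := (d.J_mem h b hh hb _).1 hg
  have h1 : (g : 𝓞 K) + ((0 : ℤ) : 𝓞 K) * d.ω =
      ((m * h - n * ((d.t - b) / 2) : ℤ) : 𝓞 K) + (n : 𝓞 K) * d.ω := by
    rw [← hmn]; simp
  obtain ⟨h2, h3⟩ := d.ext_iff' h1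
  rw [← h3] at h2
  exact ⟨m, by rw [h2]; ring⟩

theorem nat_mem_J {h : ℕ} {b : ℤ} (hh : 1 ≤ h) : (h : 𝓞 K) ∈ (d.J h b : Ideal (𝓞 K)) := by
  rw [J_coe d h b hh]
  exact Ideal.subset_span (by simp)

theorem om_mem_J {h : ℕ} {b : ℤ} (hh : 1 ≤ h) :
    d.ω - (((d.t - b) / 2 : ℤ) : 𝓞 K) ∈ (d.J h b : Ideal (𝓞 K)) := by
  rw [J_coe d h b hh]
  exact Ideal.subset_span (by simp)

theorem nm_J (h : ℕ) (b : ℤ) (hh : 1 ≤ h) (hb : (4 * (h : ℤ)) ∣ (D : ℤ) + b ^ 2) :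
    nm K (d.J h b) = h := by
  rw [nm, Ideal.absNorm_apply, Submodule.cardQuot_apply]
  have hbij : Function.Bijective (fun i : Fin h =>
      (Ideal.Quotient.mk (d.J h b : Ideal (𝓞 K))) (((i : ℕ) : ℤ) : 𝓞 K)) := by
    constructor
    · intro i j hij
      have h1 := Ideal.Quotient.eq.mp hij
      rw [← Int.cast_sub] at h1
      have h3 := d.int_mem_J hh hb h1
      have hi := i.2
      have hj := j.2
      have h4 := Int.eq_zero_of_abs_lt_dvd h3 (by rw [abs_lt]; omega)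
      ext
      omega
    · intro y
      obtain ⟨x, rfl⟩ := Ideal.Quotient.mk_surjective y
      obtain ⟨m, n, rfl⟩ := d.span x
      set g : ℤ := m + n * ((d.t - b) / 2) with hg
      have hr0 : 0 ≤ g % (h : ℤ) := Int.emod_nonneg _ (by omega)
      have hr1 : g % (h : ℤ) < h := Int.emod_lt_of_pos _ (by omega)
      refine ⟨⟨(g % (h : ℤ)).toNat, by omega⟩, ?_⟩
      refine Ideal.Quotient.eq.mpr ?_
      have h3 : (((g % (h : ℤ)).toNat : ℕ) : ℤ) = g - h * (g / h) := by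
        rw [Int.toNat_of_nonneg hr0, Int.emod_def]
      show ((((g % (h : ℤ)).toNat : ℕ) : ℤ) : 𝓞 K) - _ ∈ _
      rw [h3]
      have h4 : ((g - h * (g / h) : ℤ) : 𝓞 K) - ((m : 𝓞 K) + n * d.ω) =
          -(n : 𝓞 K) * (d.ω - (((d.t - b) / 2 : ℤ) : 𝓞 K)) + (-(g / h : ℤ) : 𝓞 K) * (h : 𝓞 K) := by
        rw [hg]
        push_cast
        ring
      rw [h4]
      exact Ideal.add_mem _ (Ideal.mul_mem_left _ _ (d.om_mem_J hh))
        (Ideal.mul_mem_left _ _ (d.nat_mem_J hh))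
  rw [← Nat.card_eq_of_bijective _ hbij, Nat.card_eq_fintype_card, Fintype.card_fin]

theorem J_prim (h : ℕ) (b : ℤ) (hh : 1 ≤ h) (hb : (4 * (h : ℤ)) ∣ (D : ℤ) + b ^ 2) (n : ℕ)
    (hn : 1 ≤ n) (hd : (spn K n : Ideal (𝓞 K)) ∣ (d.J h b : Ideal (𝓞 K))) : n = 1 := by
  have h1 := Ideal.dvd_iff_le.1 hd (d.om_mem_J (b := b) hh)
  rw [spn_coe n hn, Ideal.mem_span_singleton] at h1
  obtain ⟨y, hy⟩ := h1
  obtain ⟨m', n', rfl⟩ := d.span y
  have h3 : ((-((d.t - b) / 2) : ℤ) : 𝓞 K) + ((1 : ℤ) : 𝓞 K) * d.ω =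
      ((n * m' : ℤ) : 𝓞 K) + ((n * n' : ℤ) : 𝓞 K) * d.ω := by
    push_cast
    linear_combination hy
  have h4 := (d.ext_iff' h3).2
  have h5 : (n : ℤ) ∣ 1 := ⟨n', h4⟩
  have h6 := Int.eq_one_of_dvd_one (by omega) h5
  exact_mod_cast h6

theorem b_unique {h : ℕ} {b b' : ℤ} (hh : 1 ≤ h) (hb : b ∈ rts h D) (hb' : b' ∈ rts h D)
    (he : (d.J h b : Ideal (𝓞 K)) = (d.J h b' : Ideal (𝓞 K))) : b = b' := by
  rw [rts, Finset.mem_filter, Finset.mem_Ico] at hb hb'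
  obtain ⟨e, he1, -⟩ := half_spec d hb.2
  obtain ⟨e', he1', -⟩ := half_spec d hb'.2
  have h1 := d.om_mem_J (b := b) hh
  have h3 := d.om_mem_J (b := b') hh
  rw [he] at h1
  have h4 := Ideal.sub_mem _ h3 h1
  have h5 : d.ω - (((d.t - b') / 2 : ℤ) : 𝓞 K) - (d.ω - (((d.t - b) / 2 : ℤ) : 𝓞 K)) =
      (((d.t - b) / 2 - (d.t - b') / 2 : ℤ) : 𝓞 K) := by
    push_cast
    ring
  rw [h5] at h4
  have h6 := d.int_mem_J hh hb'.2 h4
  have h7 := Int.eq_zero_of_abs_lt_dvd h6 (by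
    rw [abs_lt]
    constructor <;> omega)
  omega

theorem r_dvd {r r' h h' : ℕ} {b b' : ℤ} (hr : 1 ≤ r) (hr' : 1 ≤ r') (hh : 1 ≤ h)
    (he : spn K r * d.J h b = spn K r' * d.J h' b') : r' ∣ r := by
  have he' := congrArg (Subtype.val) he
  have he2 : Ideal.span {(r : 𝓞 K)} * (d.J h b : Ideal (𝓞 K)) =
      Ideal.span {(r' : 𝓞 K)} * (d.J h' b' : Ideal (𝓞 K)) := by
    rw [← spn_coe r hr, ← spn_coe r' hr']
    exact he'
  have h1 : (r : 𝓞 K) * (d.ω - (((d.t - b) / 2 : ℤ) : 𝓞 K)) ∈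
      Ideal.span {(r' : 𝓞 K)} * (d.J h' b' : Ideal (𝓞 K)) := by
    rw [← he2]
    exact Ideal.mul_mem_mul (Ideal.mem_span_singleton_self _) (d.om_mem_J hh)
  have h3 := Ideal.mul_le_left h1
  rw [Ideal.mem_span_singleton] at h3
  obtain ⟨y, hy⟩ := h3
  obtain ⟨m', n', rfl⟩ := d.span y
  have h4 : ((-(r * ((d.t - b) / 2)) : ℤ) : 𝓞 K) + ((r : ℤ) : 𝓞 K) * d.ω =
      ((r' * m' : ℤ) : 𝓞 K) + ((r' * n' : ℤ) : 𝓞 K) * d.ω := by
    push_cast
    linear_combination hy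
  have h5 := (d.ext_iff' h4).2
  exact Int.natCast_dvd_natCast.1 ⟨n', h5⟩

theorem decomp_inj {r r' h h' : ℕ} {b b' : ℤ} (hr : 1 ≤ r) (hr' : 1 ≤ r') (hh : 1 ≤ h)
    (hh' : 1 ≤ h') (hb : b ∈ rts h D) (hb' : b' ∈ rts h' D)
    (he : spn K r * d.J h b = spn K r' * d.J h' b') : r = r' ∧ h = h' ∧ b = b' := by
  have h1 : r = r' := Nat.dvd_antisymm (d.r_dvd hr' hr hh' he.symm) (d.r_dvd hr hr' hh he)
  subst h1
  have h3 : d.J h b = d.J h' b' := by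
    apply Subtype.ext
    have he' : (spn K r : Ideal (𝓞 K)) * (d.J h b : Ideal (𝓞 K)) =
      (spn K r : Ideal (𝓞 K)) * (d.J h' b' : Ideal (𝓞 K)) := congrArg (Subtype.val) he
    exact mul_left_cancel₀ (nonZeroDivisors.ne_zero (spn K r).2) he'
  have hb1 := (Finset.mem_filter.1 hb).2
  have hb2 := (Finset.mem_filter.1 hb').2
  have h4 : h = h' := by
    rw [← d.nm_J h b hh hb1, h3, d.nm_J h' b' hh' hb2]
  subst h4
  exact ⟨rfl, rfl, d.b_unique hh hb hb' (by rw [h3])⟩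

theorem decomp_surj (I : (Ideal (𝓞 K))⁰) : ∃ (r h : ℕ) (b : ℤ), 1 ≤ r ∧ 1 ≤ h ∧ b ∈ rts h D ∧
    spn K r * d.J h b = I := by
  classical
  have hN0 : 0 < nm K I := nm_pos I
  have hNI : ((nm K I : ℕ) : 𝓞 K) ∈ (I : Ideal (𝓞 K)) := Ideal.absNorm_mem _
  -- the least positive second coordinate
  have hex : ∃ n : ℕ, 1 ≤ n ∧ ∃ m : ℤ, (m : 𝓞 K) + ((n : ℤ) : 𝓞 K) * d.ω ∈ (I : Ideal (𝓞 K)) := by
    refine ⟨nm K I, hN0, 0, ?_⟩
    have := Ideal.mul_mem_right d.ω _ hNI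
    simpa using this
  obtain ⟨hr1, m0, hm0⟩ := Nat.find_spec hex
  set r : ℕ := Nat.find hex with hrdef
  have hn : ∀ m n : ℤ, (m : 𝓞 K) + (n : 𝓞 K) * d.ω ∈ (I : Ideal (𝓞 K)) → (r : ℤ) ∣ n := by
    intro m n hmn
    have hr0 : 0 ≤ n % (r : ℤ) := Int.emod_nonneg _ (by omega)
    have hr2 : n % (r : ℤ) < r := Int.emod_lt_of_pos _ (by omega)
    by_contra hnd
    have hne : n % (r : ℤ) ≠ 0 := fun h => hnd (Int.dvd_of_emod_eq_zero h)
    have h3 : ((m - n / r * m0 : ℤ) : 𝓞 K) + ((((n % (r : ℤ)).toNat : ℕ) : ℤ) : 𝓞 K) * d.ω ∈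
        (I : Ideal (𝓞 K)) := by
      rw [Int.toNat_of_nonneg hr0, Int.emod_def]
      have h4 := Ideal.sub_mem _ hmn (Ideal.mul_mem_left _ ((n / r : ℤ) : 𝓞 K) hm0)
      convert h4 using 1
      push_cast
      ring
    exact Nat.find_min hex (m := (n % (r : ℤ)).toNat) (by omega) ⟨by omega, _, h3⟩
  have hm : ∀ m n : ℤ, (m : 𝓞 K) + (n : 𝓞 K) * d.ω ∈ (I : Ideal (𝓞 K)) → (r : ℤ) ∣ m := by
    intro m n hmn
    have h3 : ((-(n * d.q) : ℤ) : 𝓞 K) + ((m + n * d.t : ℤ) : 𝓞 K) * d.ω ∈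
        (I : Ideal (𝓞 K)) := by
      have h4 := Ideal.mul_mem_left _ d.ω hmn
      convert h4 using 1
      push_cast
      linear_combination (-(n : 𝓞 K)) * d.mul
    have h5 := hn _ _ h3
    have h6 := hn _ _ hmn
    have h7 := dvd_sub h5 (Dvd.dvd.mul_right h6 d.t)
    rwa [add_sub_cancel_right] at h7
  have hle : (I : Ideal (𝓞 K)) ≤ Ideal.span {(r : 𝓞 K)} := by
    intro x hx
    obtain ⟨m, n, rfl⟩ := d.span x
    obtain ⟨m', hm'⟩ := hm m n hx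
    obtain ⟨n', hn'⟩ := hn m n hx
    rw [Ideal.mem_span_singleton]
    refine ⟨(m' : 𝓞 K) + n' * d.ω, ?_⟩
    rw [hm', hn']
    push_cast
    ring
  obtain ⟨I', hI'⟩ := Ideal.dvd_iff_le.2 hle
  have hrK : (r : 𝓞 K) ≠ 0 := Nat.cast_ne_zero.2 (by omega)
  -- `ω - β₀`
  obtain ⟨m0', hm0'⟩ := hm _ _ hm0
  have hy0 : (m0' : 𝓞 K) + d.ω ∈ I' := by
    rw [hI', Ideal.mem_span_singleton_mul] at hm0
    obtain ⟨z, hz, hz2⟩ := hm0
    have : z = (m0' : 𝓞 K) + d.ω := by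
      apply mul_left_cancel₀ hrK
      rw [hz2, hm0']
      push_cast
      ring
    rwa [← this]
  have hI0 : (I : Ideal (𝓞 K)) ≠ 0 := nonZeroDivisors.ne_zero I.2
  have hI'0 : I' ≠ 0 := by
    rintro rfl
    rw [mul_zero] at hI'
    exact hI0 hI'
  -- the least positive integer in `I'`
  have hex2 : ∃ g : ℕ, 1 ≤ g ∧ ((g : ℤ) : 𝓞 K) ∈ I' := by
    refine ⟨Ideal.absNorm I', ?_, ?_⟩
    · exact Nat.one_le_iff_ne_zero.2 (Ideal.absNorm_ne_zero_iff_mem_nonZeroDivisors.2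
        (mem_nonZeroDivisors_iff_ne_zero.2 hI'0))
    · rw [Int.cast_natCast]
      exact Ideal.absNorm_mem I'
  obtain ⟨hh1, hhI⟩ := Nat.find_spec hex2
  set h : ℕ := Nat.find hex2 with hhdef
  have hg : ∀ g : ℤ, (g : 𝓞 K) ∈ I' → (h : ℤ) ∣ g := by
    intro g hgI
    have hr0 : 0 ≤ g % (h : ℤ) := Int.emod_nonneg _ (by omega)
    have hr2 : g % (h : ℤ) < h := Int.emod_lt_of_pos _ (by omega)
    by_contra hnd
    have hne : g % (h : ℤ) ≠ 0 := fun h => hnd (Int.dvd_of_emod_eq_zero h)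
    have h3 : ((((g % (h : ℤ)).toNat : ℕ) : ℤ) : 𝓞 K) ∈ I' := by
      rw [Int.toNat_of_nonneg hr0, Int.emod_def]
      have h4 := Ideal.sub_mem _ hgI (Ideal.mul_mem_left _ ((g / h : ℤ) : 𝓞 K) hhI)
      convert h4 using 1
      push_cast
      ring
    exact Nat.find_min hex2 (m := (g % (h : ℤ)).toNat) (by omega) ⟨by omega, h3⟩
  -- adjust `b`
  set β₀ : ℤ := -m0' with hβ₀
  have hN : (h : ℤ) ∣ β₀ ^ 2 - d.t * β₀ + d.q := by
    apply hg
    have h4 := Ideal.mul_mem_left _ ((d.t : 𝓞 K) - (β₀ : 𝓞 K) - d.ω) hy0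
    convert h4 using 1
    rw [hβ₀]
    push_cast
    linear_combination d.mul
  obtain ⟨e, he⟩ := hN
  set k : ℤ := (d.t - 2 * β₀ + h) / (2 * h) with hk
  set b : ℤ := d.t - 2 * β₀ - 2 * h * k with hb
  have hbr : -(h : ℤ) ≤ b ∧ b < h := by
    have h3 := Int.emod_nonneg (d.t - 2 * β₀ + h) (show (2 * (h : ℤ)) ≠ 0 by omega)
    have h4 := Int.emod_lt_of_pos (d.t - 2 * β₀ + h) (show 0 < (2 * (h : ℤ)) by omega)
    rw [Int.emod_def, ← hk] at h3 h4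
    constructor <;> rw [hb] <;> linarith
  have hbd : (4 * (h : ℤ)) ∣ (D : ℤ) + b ^ 2 := by
    refine ⟨e - k * (d.t - 2 * β₀) + h * k ^ 2, ?_⟩
    have h5 := d.disc
    rw [hb]
    linear_combination (-1) * h5 + 4 * he
  have hβ : (d.t - b) / 2 = β₀ + h * k := by
    rw [hb]
    have : d.t - (d.t - 2 * β₀ - 2 * h * k) = (β₀ + h * k) * 2 := by ring
    rw [this, Int.mul_ediv_cancel _ (by norm_num)]
  have hJ : (d.J h b : Ideal (𝓞 K)) = I' := by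
    ext x
    rw [d.J_mem h b hh1 hbd, hβ]
    constructor
    · rintro ⟨m, n, rfl⟩
      have h5 := Ideal.add_mem _ (Ideal.mul_mem_left _ ((m - n * k : ℤ) : 𝓞 K) hhI)
        (Ideal.mul_mem_left _ (n : 𝓞 K) hy0)
      convert h5 using 1
      rw [hβ₀]
      push_cast
      ring
    · intro hx
      obtain ⟨m, n, rfl⟩ := d.span x
      have h5 := Ideal.sub_mem _ hx (Ideal.mul_mem_left _ (n : 𝓞 K) hy0)
      have h6 : (m : 𝓞 K) + n * d.ω - n * ((m0' : 𝓞 K) + d.ω) = ((m + n * β₀ : ℤ) : 𝓞 K) := by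
        rw [hβ₀]
        push_cast
        ring
      rw [h6] at h5
      obtain ⟨c, hc⟩ := hg _ h5
      refine ⟨c + n * k, n, ?_⟩
      congr 1
      have h7 : m = (c + n * k) * h - n * (β₀ + h * k) := by linear_combination hc
      exact congrArg _ h7
  refine ⟨r, h, b, hr1, hh1, ?_, ?_⟩
  · rw [rts, Finset.mem_filter, Finset.mem_Ico]
    exact ⟨hbr, hbd⟩
  · apply Subtype.ext
    show (spn K r : Ideal (𝓞 K)) * (d.J h b : Ideal (𝓞 K)) = I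
    rw [spn_coe r hr1, hJ, ← hI']

theorem decomp : Function.Bijective
    (fun p : {p : ℕ × ℕ × ℤ // 1 ≤ p.1 ∧ 1 ≤ p.2.1 ∧ p.2.2 ∈ rts p.2.1 D} =>
      spn K p.1.1 * d.J p.1.2.1 p.1.2.2) := by
  constructor
  · rintro ⟨⟨r, h, b⟩, h1, h3, h4⟩ ⟨⟨r', h', b'⟩, h1', h3', h4'⟩ he
    obtain ⟨e1, e2, e3⟩ := d.decomp_inj h1 h1' h3 h3' h4 h4' he
    dsimp only at e1 e2 e3
    subst e1 e2 e3
    rfl
  · intro I
    obtain ⟨r, h, b, h1, h3, h4, h5⟩ := d.decomp_surj I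
    exact ⟨⟨⟨r, h, b⟩, h1, h3, h4⟩, h5⟩

theorem small_unique (h h' : ℕ) (b b' : ℤ) (hh : 1 ≤ h) (hh' : 1 ≤ h') (hb : b ∈ rts h D)
    (hb' : b' ∈ rts h' D) (hD : 4 * (h * h') < D)
    (hc : ClassGroup.mk0 (d.J h b) = ClassGroup.mk0 (d.J h' b')) : h = h' ∧ b = b' := by
  have hb1 := (Finset.mem_filter.1 hb).2
  have hb2 := (Finset.mem_filter.1 hb').2
  obtain ⟨J'', hJ1, hJ2⟩ := CL.exists_conj K (d.J h' b')
  have hnJ' : Ideal.absNorm (d.J h' b' : Ideal (𝓞 K)) = h' := d.nm_J h' b' hh' hb2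
  have hnJ : Ideal.absNorm (d.J h b : Ideal (𝓞 K)) = h := d.nm_J h b hh hb1
  have hnJ'' : Ideal.absNorm (J'' : Ideal (𝓞 K)) = h' := by
    rw [CL.absNorm_conj K d.h2 hJ2, hnJ']
  rw [hnJ'] at hJ2
  have hp : ClassGroup.mk0 (d.J h b * J'') = 1 := by
    rw [map_mul, hJ1, hc, mul_inv_cancel]
  rw [ClassGroup.mk0_eq_one_iff] at hp
  obtain ⟨⟨α, hα⟩⟩ := hp
  have hα' : (d.J h b : Ideal (𝓞 K)) * (J'' : Ideal (𝓞 K)) = Ideal.span {α} := hα
  obtain ⟨m, n, rfl⟩ := d.span α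
  have hN := congrArg Ideal.absNorm hα'
  rw [map_mul, hnJ, hnJ'', Ideal.absNorm_span_singleton, d.norm] at hN
  have hdisc := d.disc
  have hpos : 0 < 4 * d.q - d.t ^ 2 := by rw [hdisc]; have := d.four_lt; omega
  have hnn := form_nonneg hpos m n
  have hN' : ((h * h' : ℕ) : ℤ) = m ^ 2 + d.t * m * n + d.q * n ^ 2 := by
    rw [hN, Int.natAbs_of_nonneg hnn]
  have hDz : 4 * ((h * h' : ℕ) : ℤ) < D := by exact_mod_cast hD
  have hn0 : n = 0 := by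
    by_contra hn
    have h1 : 1 ≤ n ^ 2 := by
      have := sq_pos_of_ne_zero hn
      omega
    nlinarith [sq_nonneg (2 * m + d.t * n)]
  subst hn0
  have hm2 : ((h * h' : ℕ) : ℤ) = m ^ 2 := by rw [hN']; ring
  have hm0 : m ≠ 0 := by
    rintro rfl
    have : 0 < h * h' := Nat.mul_pos hh hh'
    have h3 : ((h * h' : ℕ) : ℤ) = 0 := by rw [hm2]; ring
    omega
  have hspan : Ideal.span {(m : 𝓞 K) + ((0 : ℤ) : 𝓞 K) * d.ω} =
      Ideal.span {((m.natAbs : ℕ) : 𝓞 K)} := by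
    rw [Int.cast_zero, zero_mul, add_zero]
    rcases Int.natAbs_eq m with h1 | h1
    · rw [h1, Int.cast_natCast, Int.natAbs_natCast]
    · rw [h1, Int.cast_neg, Int.cast_natCast, Ideal.span_singleton_neg, Int.natAbs_neg,
        Int.natAbs_natCast]
  rw [hspan] at hα'
  have key : spn K h' * d.J h b = spn K m.natAbs * d.J h' b' := by
    apply Subtype.ext
    show (spn K h' : Ideal (𝓞 K)) * (d.J h b : Ideal (𝓞 K)) =
      (spn K m.natAbs : Ideal (𝓞 K)) * (d.J h' b' : Ideal (𝓞 K))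
    rw [spn_coe h' hh', spn_coe m.natAbs (by omega), ← hJ2, ← hα']
    ring
  obtain ⟨-, e2, e3⟩ := d.decomp_inj hh' (by omega) hh hh' hb hb' key
  exact ⟨e2, e3⟩

end QD

end Pool.Hhelper76.SC
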