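import Pool.Agent.Hhelper76.SC.QIdeal
import Pool.Agent.Hhelper76.SC.IdealMul
import Pool.Agent.Hhelper76.SC.Gcl

/-!
# SC module N3 (TupleSum): sums of `∏ α(T_i)` over tuples of ideals of given norms

Uses N0 (`alI_mul`, `alI_prime_pow`), N1, N2 (`jm_dvd`), P3.

PAPER PROOF. Both sides vanish if `∏ m_i` is not coprime to `2D` (`alD` kills `T_i` for some `i`), or if
`j ∤ ∏ m_i` (`jm T H ∣ N(T)`). Otherwise put `H = J h b`.
Prime ideals above `p ∣ ∏ m_i` (`p ∤ 2D`): if `(-D/p) = 1`, equivalently `p` splits, `(p) = P P̄`, `P ≠ P̄`,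
`N P = p`: with `c² ≡ -D mod 4p`, `P = J p c`, `P̄ = J p (-c)`. If `(-D/p) = -1`, `(p)` is prime of norm `p²`
(a factor of norm `p` would be `J p c` with `4p ∣ D + c²`). If `p ∣ h`: `p ∣ D + b²`, so `(-D/p) = 1` (as
`p ∤ D`), consistent with `Spl`; `J h b ⊂ J p b`, the exponent of `P = J p b` in `H` is `v_p(h) =: s` and that
of `P̄` is `0` (`H` is primitive, `N(H) = h`).
Ideals of norm `p^v`: `P^a P̄^{v-a}`, `0 ≤ a ≤ v` (split), `(p)^{v/2}` if `v` even, none if `v` odd (inert).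
Local condition: `∏_i P^{a_i} P̄^{v_i - a_i}` divides `p^e H` at `p` iff `|a| ≤ e + s`, `|v - a| ≤ e`; so the local
exponent of `jm` is `max(|a| - s, |v - a|)` (natural subtraction); inert: `|v|/2 ≤ e`. Hence the local sum is
`locS v e s`, resp. `locI v e`.
Multiplicativity: `T_i = ∏_p T_{i,p}` (ideal of norm `m_i` ↔ ideals of norm `p^{v_p(m_i)}`, `p ∣ ∏ m`),
`alI` multiplicative, `jm (∏ T_i) H = ∏_p jm (∏_i T_{i,p}) H` (from `jm_dvd`: for coprime `T, T'`,
`T T' ∣ rH` iff `T ∣ rH` and `T' ∣ rH`, so `jm (T T') = lcm`, and `jm T H ∣ N(T)` so the lcm is the product).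
Induction on the set of primes dividing `∏ m_i` (split off one prime `p`: `m_i = p^{v_i} m_i'`).
-/

open scoped NumberField nonZeroDivisors
open Pool.Hhelper85.CZ

namespace Pool.Hhelper76.SC

namespace TS

variable {K : Type} [Field K] [NumberField K]

omit [NumberField K] in
theorem dvd_coe (A B : (Ideal (𝓞 K))⁰) : A ∣ B ↔ (A : Ideal (𝓞 K)) ∣ (B : Ideal (𝓞 K)) := by
  constructor
  · rintro ⟨c, rfl⟩
    exact ⟨c, by simp⟩
  · rintro ⟨c, hc⟩
    have hc0 : c ≠ 0 := by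
      rintro rfl
      rw [mul_zero] at hc
      exact nonZeroDivisors.coe_ne_zero B hc
    exact ⟨⟨c, mem_nonZeroDivisors_of_ne_zero hc0⟩, Subtype.ext (by simpa using hc)⟩

theorem coprime_of_nm {A B : (Ideal (𝓞 K))⁰} (h : Nat.Coprime (nm K A) (nm K B)) :
    IsCoprime (A : Ideal (𝓞 K)) (B : Ideal (𝓞 K)) := by
  rw [Ideal.isCoprime_iff_exists]
  have h1 := Nat.isCoprime_iff_coprime.2 h
  obtain ⟨u, v, huv⟩ := h1
  refine ⟨(u : 𝓞 K) * (nm K A : 𝓞 K), Ideal.mul_mem_left _ _ (Ideal.absNorm_mem _),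
    (v : 𝓞 K) * (nm K B : 𝓞 K), Ideal.mul_mem_left _ _ (Ideal.absNorm_mem _), ?_⟩
  have := congrArg (Int.cast (R := 𝓞 K)) huv
  push_cast at this
  exact this

theorem dvd_spn_nm (A : (Ideal (𝓞 K))⁰) : A ∣ spn K (nm K A) := by
  rw [dvd_coe, spn_coe _ (nm_pos A), Ideal.dvd_span_singleton]
  exact Ideal.absNorm_mem _

theorem spn_mul (a b : ℕ) (ha : 1 ≤ a) (hb : 1 ≤ b) : spn K (a * b) = spn K a * spn K b := by
  apply Subtype.ext
  rw [Submonoid.coe_mul, spn_coe _ ha, spn_coe _ hb, spn_coe _ (Nat.mul_pos ha hb),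
    Ideal.span_singleton_mul_span_singleton]
  push_cast
  rfl

theorem nm_dvd {A B : (Ideal (𝓞 K))⁰} (h : A ∣ B) : nm K A ∣ nm K B := by
  obtain ⟨c, rfl⟩ := h
  rw [nm_mul]
  exact dvd_mul_right _ _

theorem coe_eq_of_dvd {A B : (Ideal (𝓞 K))⁰} (h1 : A ∣ B) (h2 : B ∣ A) : A = B := by
  rw [dvd_coe] at h1 h2
  exact Subtype.ext (dvd_antisymm h1 h2)

theorem split_exists (h2 : Module.finrank ℚ K = 2) {a b : ℕ} (hab : Nat.Coprime a b)
    (ha : 1 ≤ a) (hb : 1 ≤ b) (T : (Ideal (𝓞 K))⁰) (hT : nm K T = a * b) :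
    ∃ A B : (Ideal (𝓞 K))⁰, nm K A = a ∧ nm K B = b ∧ T = A * B := by
  have h1 : T ∣ spn K a * spn K b := by
    rw [← spn_mul a b ha hb, ← hT]; exact dvd_spn_nm T
  rw [dvd_coe, Submonoid.coe_mul] at h1
  obtain ⟨A, B, hA, hB, hAB⟩ := exists_dvd_and_dvd_of_dvd_mul h1
  have hA0 : A ≠ 0 := by
    rintro rfl
    rw [zero_mul] at hAB
    exact nonZeroDivisors.coe_ne_zero T hAB
  have hB0 : B ≠ 0 := by
    rintro rfl
    rw [mul_zero] at hAB
    exact nonZeroDivisors.coe_ne_zero T hAB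
  set A' : (Ideal (𝓞 K))⁰ := ⟨A, mem_nonZeroDivisors_of_ne_zero hA0⟩ with hA'
  set B' : (Ideal (𝓞 K))⁰ := ⟨B, mem_nonZeroDivisors_of_ne_zero hB0⟩ with hB'
  have hTe : T = A' * B' := Subtype.ext hAB
  have hNA : nm K A' ∣ a ^ 2 := by
    rw [← nm_spn h2 a ha]; exact nm_dvd ((dvd_coe _ _).2 hA)
  have hNB : nm K B' ∣ b ^ 2 := by
    rw [← nm_spn h2 b hb]; exact nm_dvd ((dvd_coe _ _).2 hB)
  have hprod : nm K A' * nm K B' = a * b := by rw [← nm_mul, ← hTe, hT]
  have hc1 : Nat.Coprime (nm K A') b :=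
    Nat.Coprime.coprime_dvd_left hNA (Nat.Coprime.pow_left 2 hab)
  have hc2 : Nat.Coprime (nm K B') a :=
    Nat.Coprime.coprime_dvd_left hNB (Nat.Coprime.pow_left 2 hab.symm)
  have hd1 : nm K A' ∣ a := hc1.dvd_of_dvd_mul_right (hprod ▸ dvd_mul_right _ _)
  have hd2 : nm K B' ∣ b := hc2.dvd_of_dvd_mul_left (hprod ▸ dvd_mul_left _ _)
  have hd3 : a ∣ nm K A' := hc2.symm.dvd_of_dvd_mul_right (hprod ▸ dvd_mul_right _ _)
  have hd4 : b ∣ nm K B' := hc1.symm.dvd_of_dvd_mul_left (hprod ▸ dvd_mul_left _ _)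
  exact ⟨A', B', Nat.dvd_antisymm hd1 hd3, Nat.dvd_antisymm hd2 hd4, hTe⟩

theorem split_unique {a b : ℕ} (hab : Nat.Coprime a b) {A B A' B' : (Ideal (𝓞 K))⁰}
    (hA : nm K A = a) (hB : nm K B = b) (hA' : nm K A' = a) (hB' : nm K B' = b)
    (h : A * B = A' * B') : A = A' ∧ B = B' := by
  have key : ∀ {A B A' B' : (Ideal (𝓞 K))⁰}, nm K A = a → nm K B' = b → A * B = A' * B' →
      A ∣ A' := by
    intro A B A' B' hA hB' h
    rw [dvd_coe]
    have hc : IsCoprime (A : Ideal (𝓞 K)) (B' : Ideal (𝓞 K)) :=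
      coprime_of_nm (by rw [hA, hB']; exact hab)
    refine hc.dvd_of_dvd_mul_right ?_
    rw [← Submonoid.coe_mul, ← h, ← dvd_coe]
    exact dvd_mul_right _ _
  have h1 : A = A' := coe_eq_of_dvd (key hA hB' h) (key hA' hB h.symm)
  subst h1
  refine ⟨rfl, ?_⟩
  have h3 := congrArg Subtype.val h
  simp only [Submonoid.coe_mul] at h3
  exact Subtype.ext (mul_left_cancel₀ (nonZeroDivisors.coe_ne_zero A) h3)

theorem sum_split (h2 : Module.finrank ℚ K = 2) {k : ℕ} (a b : Fin k → ℕ)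
    (hab : ∀ i, Nat.Coprime (a i) (b i)) (ha : ∀ i, 1 ≤ a i) (hb : ∀ i, 1 ≤ b i)
    (f : (Fin k → (Ideal (𝓞 K))⁰) → ℝ) :
    ∑ T ∈ Fintype.piFinset (fun i => idn K (a i * b i)), f T =
      ∑ A ∈ Fintype.piFinset (fun i => idn K (a i)),
        ∑ B ∈ Fintype.piFinset (fun i => idn K (b i)), f (fun i => A i * B i) := by
  classical
  rw [← Finset.sum_product']
  symm
  refine Finset.sum_bij (fun p _ => fun i => p.1 i * p.2 i) ?_ ?_ ?_ ?_
  · rintro ⟨A, B⟩ h
    simp only [Finset.mem_product, Fintype.mem_piFinset, mem_idn] at h ⊢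
    intro i
    rw [nm_mul, h.1 i, h.2 i]
  · rintro ⟨A, B⟩ h ⟨A', B'⟩ h' he
    simp only [Finset.mem_product, Fintype.mem_piFinset, mem_idn] at h h'
    have := fun i => split_unique (hab i) (h.1 i) (h.2 i) (h'.1 i) (h'.2 i) (congrFun he i)
    exact Prod.ext (funext fun i => (this i).1) (funext fun i => (this i).2)
  · intro T hT
    simp only [Fintype.mem_piFinset, mem_idn] at hT
    choose A B hA hB hAB using fun i => split_exists h2 (hab i) (ha i) (hb i) (T i) (hT i)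
    refine ⟨(A, B), ?_, ?_⟩
    · simp only [Finset.mem_product, Fintype.mem_piFinset, mem_idn]
      exact ⟨hA, hB⟩
    · exact funext fun i => (hAB i).symm
  · intro p _
    rfl

theorem jm_eq_of {D : ℕ} (d : QD K D) {T H : (Ideal (𝓞 K))⁰} {n : ℕ} (hn : 1 ≤ n)
    (h : ∀ r, 1 ≤ r → (T ∣ spn K r * H ↔ n ∣ r)) : jm T H = n := by
  refine Nat.dvd_antisymm ?_ ?_
  · exact (jm_dvd d T H n hn).1 ((h n hn).2 dvd_rfl)
  · have h1 := (jm_pos d T H).1
    exact (h _ h1).1 ((jm_dvd d T H _ h1).2 dvd_rfl)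

theorem jm_mul {D : ℕ} (d : QD K D) {A B H : (Ideal (𝓞 K))⁰}
    (hc : Nat.Coprime (nm K A) (nm K B)) : jm (A * B) H = jm A H * jm B H := by
  have hA := jm_pos d A H
  have hB := jm_pos d B H
  have hcc : Nat.Coprime (jm A H) (jm B H) := Nat.Coprime.coprime_dvd_left hA.2
    (Nat.Coprime.coprime_dvd_right hB.2 hc)
  refine jm_eq_of d (Nat.mul_pos hA.1 hB.1) fun r hr => ?_
  have h1 : (A * B ∣ spn K r * H) ↔ (A ∣ spn K r * H) ∧ (B ∣ spn K r * H) := by
    constructor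
    · intro h
      exact ⟨(dvd_mul_right _ _).trans h, (dvd_mul_left _ _).trans h⟩
    · rintro ⟨h1, h2⟩
      rw [dvd_coe] at h1 h2 ⊢
      exact (coprime_of_nm hc).mul_dvd h1 h2
  rw [h1, jm_dvd d A H r hr, jm_dvd d B H r hr]
  constructor
  · rintro ⟨h1, h2⟩
    exact hcc.mul_dvd_of_dvd_of_dvd h1 h2
  · intro h
    exact ⟨(dvd_mul_right _ _).trans h, (dvd_mul_left _ _).trans h⟩


/-! ### Split primes -/

theorem nm_pow (P : (Ideal (𝓞 K))⁰) (n : ℕ) : nm K (P ^ n) = nm K P ^ n := by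
  simp [nm]

theorem spn_pow (p n : ℕ) (hp : 1 ≤ p) : spn K (p ^ n) = spn K p ^ n := by
  induction n with
  | zero =>
    apply Subtype.ext
    rw [spn_coe _ (by simp)]
    simp
  | succ n ih => rw [pow_succ, spn_mul _ _ (Nat.one_le_pow _ _ hp) hp, ih, pow_succ]

theorem isPrime_of_nm {P : (Ideal (𝓞 K))⁰} {p : ℕ} (hp : p.Prime) (h : nm K P = p) :
    (P : Ideal (𝓞 K)).IsPrime :=
  Ideal.isPrime_of_irreducible_absNorm (by
    change Irreducible (nm K P)
    rw [h]; exact hp)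

theorem coprime_of_ne {P Q : (Ideal (𝓞 K))⁰} (hP : (P : Ideal (𝓞 K)).IsPrime)
    (hQ : (Q : Ideal (𝓞 K)).IsPrime) (h : P ≠ Q) :
    IsCoprime (P : Ideal (𝓞 K)) (Q : Ideal (𝓞 K)) := by
  have h1 := hP.isMaximal (nonZeroDivisors.coe_ne_zero P)
  have h2 := hQ.isMaximal (nonZeroDivisors.coe_ne_zero Q)
  rw [Ideal.isCoprime_iff_sup_eq]
  exact Ideal.IsMaximal.coprime_of_ne h1 h2 fun h3 => h (Subtype.ext h3)

/-- A split prime. -/
structure SP (K : Type) [Field K] [NumberField K] (p : ℕ) where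
  P : (Ideal (𝓞 K))⁰
  Q : (Ideal (𝓞 K))⁰
  hp : p.Prime
  nP : nm K P = p
  nQ : nm K Q = p
  ne : P ≠ Q
  mul : P * Q = spn K p

theorem exists_ideal_pow {P : (Ideal (𝓞 K))⁰} (hP : (P : Ideal (𝓞 K)).IsPrime) {n : ℕ}
    {T : Ideal (𝓞 K)} (h : T ∣ (P : Ideal (𝓞 K)) ^ n) : ∃ a ≤ n, T = (P : Ideal (𝓞 K)) ^ a := by
  have hp : Prime (P : Ideal (𝓞 K)) := Ideal.prime_of_isPrime (nonZeroDivisors.coe_ne_zero P) hP
  obtain ⟨a, ha, h1⟩ := (dvd_prime_pow hp n).1 h
  exact ⟨a, ha, associated_iff_eq.1 h1⟩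

theorem SP.pP {p : ℕ} (s : SP K p) : (s.P : Ideal (𝓞 K)).IsPrime := isPrime_of_nm s.hp s.nP

theorem SP.pQ {p : ℕ} (s : SP K p) : (s.Q : Ideal (𝓞 K)).IsPrime := isPrime_of_nm s.hp s.nQ

theorem SP.cop {p : ℕ} (s : SP K p) : IsCoprime (s.P : Ideal (𝓞 K)) (s.Q : Ideal (𝓞 K)) :=
  coprime_of_ne s.pP s.pQ s.ne

theorem SP.pow_form {p : ℕ} (s : SP K p) {n : ℕ} {T : (Ideal (𝓞 K))⁰} (hT : nm K T = p ^ n) :
    ∃ a ≤ n, T = s.P ^ a * s.Q ^ (n - a) := by
  have h1 : T ∣ s.P ^ n * s.Q ^ n := by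
    rw [← mul_pow, s.mul, ← spn_pow p n s.hp.one_le, ← hT]; exact dvd_spn_nm T
  rw [dvd_coe] at h1
  simp only [Submonoid.coe_mul, SubmonoidClass.coe_pow] at h1
  obtain ⟨A, B, hA, hB, hAB⟩ := exists_dvd_and_dvd_of_dvd_mul h1
  obtain ⟨a, ha, rfl⟩ := exists_ideal_pow s.pP hA
  obtain ⟨b, hb, rfl⟩ := exists_ideal_pow s.pQ hB
  have hTe : T = s.P ^ a * s.Q ^ b := Subtype.ext (by simpa using hAB)
  rw [hTe, nm_mul, nm_pow, nm_pow, s.nP, s.nQ, ← pow_add] at hT
  have := Nat.pow_right_injective s.hp.two_le hT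
  refine ⟨a, ha, ?_⟩
  rw [hTe]
  congr 2
  omega

theorem pow_dvd_pow_iff' {P : (Ideal (𝓞 K))⁰} (hP : (P : Ideal (𝓞 K)).IsPrime) {a b : ℕ} :
    (P : Ideal (𝓞 K)) ^ a ∣ (P : Ideal (𝓞 K)) ^ b ↔ a ≤ b := by
  have hp : Prime (P : Ideal (𝓞 K)) := Ideal.prime_of_isPrime (nonZeroDivisors.coe_ne_zero P) hP
  exact pow_dvd_pow_iff hp.ne_zero hp.not_isUnit

theorem SP.dvd_iff {p : ℕ} (s : SP K p) {a b a' b' : ℕ} {R : Ideal (𝓞 K)}
    (hR1 : IsCoprime (s.P : Ideal (𝓞 K)) R) (hR2 : IsCoprime (s.Q : Ideal (𝓞 K)) R) :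
    (s.P : Ideal (𝓞 K)) ^ a * (s.Q : Ideal (𝓞 K)) ^ b ∣
      (s.P : Ideal (𝓞 K)) ^ a' * (s.Q : Ideal (𝓞 K)) ^ b' * R ↔ a ≤ a' ∧ b ≤ b' := by
  constructor
  · intro h
    constructor
    · have h1 : (s.P : Ideal (𝓞 K)) ^ a ∣ (s.P : Ideal (𝓞 K)) ^ a' *
          ((s.Q : Ideal (𝓞 K)) ^ b' * R) := by
        rw [← mul_assoc]; exact (dvd_mul_right _ _).trans h
      have h2 : IsCoprime ((s.P : Ideal (𝓞 K)) ^ a) ((s.Q : Ideal (𝓞 K)) ^ b' * R) :=
        IsCoprime.mul_right (s.cop.pow) (hR1.pow_left)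
      exact (pow_dvd_pow_iff' s.pP).1 (h2.dvd_of_dvd_mul_right h1)
    · have h1 : (s.Q : Ideal (𝓞 K)) ^ b ∣ (s.Q : Ideal (𝓞 K)) ^ b' *
          ((s.P : Ideal (𝓞 K)) ^ a' * R) := by
        rw [← mul_assoc, mul_comm (_ ^ b')]; exact (dvd_mul_left _ _).trans h
      have h2 : IsCoprime ((s.Q : Ideal (𝓞 K)) ^ b) ((s.P : Ideal (𝓞 K)) ^ a' * R) :=
        IsCoprime.mul_right (s.cop.symm.pow) (hR2.pow_left)
      exact (pow_dvd_pow_iff' s.pQ).1 (h2.dvd_of_dvd_mul_right h1)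
  · rintro ⟨h1, h2⟩
    exact (mul_dvd_mul (pow_dvd_pow _ h1) (pow_dvd_pow _ h2)).trans (dvd_mul_right _ _)

theorem SP.jm_eq {p D : ℕ} (s : SP K p) (d : QD K D) {H H' : (Ideal (𝓞 K))⁰} {σ : ℕ}
    (hH : H = s.P ^ σ * H') (hc : Nat.Coprime p (nm K H')) (a b : ℕ) :
    jm (s.P ^ a * s.Q ^ b) H = p ^ max (a - σ) b := by
  refine jm_eq_of d (Nat.one_le_pow _ _ s.hp.one_le) fun r hr => ?_
  set ρ := r.factorization p with hρ
  have hr0 : r ≠ 0 := by omega
  have hr' : p ^ ρ * (r / p ^ ρ) = r := Nat.ordProj_mul_ordCompl_eq_self r p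
  have hcop : Nat.Coprime p (r / p ^ ρ) := Nat.coprime_ordCompl s.hp hr0
  have hpos : 1 ≤ r / p ^ ρ := Nat.ordCompl_pos p hr0
  have h1 : spn K r * H = s.P ^ (ρ + σ) * s.Q ^ ρ * (spn K (r / p ^ ρ) * H') := by
    conv_lhs => rw [← hr']
    rw [spn_mul _ _ (Nat.one_le_pow _ _ s.hp.one_le) hpos, spn_pow _ _ s.hp.one_le, ← s.mul, hH,
      mul_pow, pow_add]
    apply Subtype.ext
    simp only [Submonoid.coe_mul, SubmonoidClass.coe_pow]
    ring
  have hn : Nat.Coprime p (nm K (spn K (r / p ^ ρ) * H')) := by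
    rw [nm_mul, nm_spn d.h2 _ hpos]
    exact Nat.Coprime.mul_right (Nat.Coprime.pow_right 2 hcop) hc
  rw [h1, dvd_coe]
  simp only [Submonoid.coe_mul, SubmonoidClass.coe_pow]
  have h2 := s.dvd_iff (a := a) (b := b) (a' := ρ + σ) (b' := ρ)
    (R := (spn K (r / p ^ ρ) : Ideal (𝓞 K)) * (H' : Ideal (𝓞 K)))
    (by
      have := coprime_of_nm (A := s.P) (B := spn K (r / p ^ ρ) * H') (by rw [s.nP]; exact hn)
      simpa using this)
    (by
      have := coprime_of_nm (A := s.Q) (B := spn K (r / p ^ ρ) * H') (by rw [s.nQ]; exact hn)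
      simpa using this)
  rw [h2, s.hp.pow_dvd_iff_le_factorization hr0, ← hρ]
  omega

theorem SP.alI_eq {p : ℕ} (s : SP K p) (a b : ℕ) : alI (s.P ^ a * s.Q ^ b) = al a * al b := by
  rw [alI_mul, alI_prime_pow _ s.pP, alI_prime_pow _ s.pQ]
  simp only [SubmonoidClass.coe_pow]
  exact s.cop.pow

theorem SP.inj {p : ℕ} (s : SP K p) {a b a' b' : ℕ}
    (h : s.P ^ a * s.Q ^ b = s.P ^ a' * s.Q ^ b') : a = a' ∧ b = b' := by
  have h0 := congrArg Subtype.val h
  simp only [Submonoid.coe_mul, SubmonoidClass.coe_pow] at h0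
  have h1 := (s.dvd_iff (a := a) (b := b) (a' := a') (b' := b') (R := ⊤)
    (by rw [← Ideal.one_eq_top]; exact isCoprime_one_right)
    (by rw [← Ideal.one_eq_top]; exact isCoprime_one_right)).1
    (by rw [← Ideal.one_eq_top, mul_one, h0])
  have h2 := (s.dvd_iff (a := a') (b := b') (a' := a) (b' := b) (R := ⊤)
    (by rw [← Ideal.one_eq_top]; exact isCoprime_one_right)
    (by rw [← Ideal.one_eq_top]; exact isCoprime_one_right)).1
    (by rw [← Ideal.one_eq_top, mul_one, h0])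
  omega

theorem SP.local_sum {p D : ℕ} (s : SP K p) (d : QD K D) {H H' : (Ideal (𝓞 K))⁰} {σ : ℕ}
    (hH : H = s.P ^ σ * H') (hc : Nat.Coprime p (nm K H')) {k : ℕ} (v : Fin k → ℕ) (e : ℕ) :
    ∑ T ∈ Fintype.piFinset (fun i => idn K (p ^ v i)),
      (if jm (∏ i, T i) H = p ^ e then ∏ i, alI (T i) else 0) = locS v e σ := by
  rw [locS]
  symm
  refine Finset.sum_bij (fun a _ => fun i => s.P ^ a i * s.Q ^ (v i - a i)) ?_ ?_ ?_ ?_
  · intro a ha
    simp only [Fintype.mem_piFinset, Finset.mem_range, mem_idn] at ha ⊢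
    intro i
    rw [nm_mul, nm_pow, nm_pow, s.nP, s.nQ, ← pow_add]
    congr 1
    have := ha i
    omega
  · intro a ha a' ha' h
    funext i
    exact (s.inj (congrFun h i)).1
  · intro T hT
    simp only [Fintype.mem_piFinset, mem_idn] at hT
    choose a ha1 ha2 using fun i => s.pow_form (hT i)
    refine ⟨a, ?_, ?_⟩
    · simp only [Fintype.mem_piFinset, Finset.mem_range]
      intro i
      have := ha1 i
      omega
    · exact funext fun i => (ha2 i).symm
  · intro a ha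
    have h1 : ∏ i, (s.P ^ a i * s.Q ^ (v i - a i)) = s.P ^ sz a * s.Q ^ sz (fun i => v i - a i) := by
      rw [Finset.prod_mul_distrib, Finset.prod_pow_eq_pow_sum, Finset.prod_pow_eq_pow_sum]
      rfl
    rw [h1, s.jm_eq d hH hc]
    have h2 : (p ^ max (sz a - σ) (sz fun i => v i - a i) = p ^ e) ↔
        max (sz a - σ) (sz fun i => v i - a i) = e :=
      ⟨fun h => Nat.pow_right_injective s.hp.two_le h, fun h => by rw [h]⟩
    simp only [h2, s.alI_eq]


/-! ### Inert primes -/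

theorem nm_eq_p_form {D : ℕ} (d : QD K D) {p : ℕ} (hp : p.Prime) {T : (Ideal (𝓞 K))⁰}
    (hT : nm K T = p) : ∃ c : ℤ, (4 * (p : ℤ)) ∣ (D : ℤ) + c ^ 2 := by
  obtain ⟨⟨⟨r, h, b⟩, hr, hh, hb⟩, he⟩ := d.decomp.2 T
  simp only at hr hh hb he
  have hb' : (4 * (h : ℤ)) ∣ (D : ℤ) + b ^ 2 := (Finset.mem_filter.1 hb).2
  have h1 : nm K T = r ^ 2 * h := by
    rw [← he, nm_mul, nm_spn d.h2 r hr, d.nm_J h b hh hb']
  rw [hT] at h1
  have h2 : r ^ 2 ∣ p := ⟨h, h1⟩
  have h3 : r = 1 := by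
    rcases (Nat.dvd_prime hp).1 h2 with h4 | h4
    · exact (Nat.pow_eq_one.1 h4).resolve_right (by norm_num)
    · exfalso
      exact (Nat.Prime.not_prime_pow (x := r) (n := 2) le_rfl) (h4 ▸ hp)
  subst h3
  simp only [one_pow, one_mul] at h1
  subst h1
  exact ⟨b, hb'⟩

/-- An inert prime. -/
structure IP (K : Type) [Field K] [NumberField K] (p : ℕ) where
  hp : p.Prime
  pr : (spn K p : Ideal (𝓞 K)).IsPrime

theorem exists_IP {D : ℕ} (d : QD K D) {p : ℕ} (hp : p.Prime)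
    (hno : ¬ ∃ c : ℤ, (4 * (p : ℤ)) ∣ (D : ℤ) + c ^ 2) : IP K p := by
  refine ⟨hp, ?_⟩
  have h1 : nm K (spn K p) = p ^ 2 := nm_spn d.h2 p hp.one_le
  have hne : (spn K p : Ideal (𝓞 K)) ≠ ⊤ := by
    intro h
    have : nm K (spn K p) = 1 := by
      rw [nm_eq_one_iff]
      exact Subtype.ext (by rw [h]; simp)
    rw [h1] at this
    have := hp.one_lt
    nlinarith
  obtain ⟨M, hM, hle⟩ := Ideal.exists_le_maximal _ hne
  have hdvd : M ∣ (spn K p : Ideal (𝓞 K)) := Ideal.dvd_iff_le.2 hle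
  have hM0 : M ≠ 0 := by
    rintro rfl
    exact nonZeroDivisors.coe_ne_zero (spn K p) (zero_dvd_iff.1 hdvd)
  set M' : (Ideal (𝓞 K))⁰ := ⟨M, mem_nonZeroDivisors_of_ne_zero hM0⟩ with hM'
  have hd : M' ∣ spn K p := (dvd_coe _ _).2 hdvd
  obtain ⟨N, hN⟩ := hd
  have h2 : nm K M' * nm K N = p ^ 2 := by rw [← nm_mul, ← hN, h1]
  have h3 : nm K M' ∣ p ^ 2 := ⟨_, h2.symm⟩
  obtain ⟨i, hi, h4⟩ := (Nat.dvd_prime_pow hp).1 h3
  have hi2 : i = 2 := by
    interval_cases i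
    · exfalso
      rw [pow_zero, nm_eq_one_iff] at h4
      apply hM.ne_top
      have := congrArg Subtype.val h4
      simpa [hM', Ideal.one_eq_top] using this
    · exfalso
      exact hno (nm_eq_p_form d hp (by rw [h4, pow_one]))
    · rfl
  subst hi2
  have h5 : nm K N = 1 := by
    rw [h4] at h2
    have : 0 < p ^ 2 := pow_pos hp.pos 2
    exact Nat.eq_of_mul_eq_mul_left this (by rw [h2, mul_one])
  rw [nm_eq_one_iff] at h5
  rw [h5, mul_one] at hN
  rw [hN]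
  exact hM.isPrime

theorem IP.pow_form {p D : ℕ} (s : IP K p) (d : QD K D) {n : ℕ} {T : (Ideal (𝓞 K))⁰}
    (hT : nm K T = p ^ n) : Even n ∧ T = spn K p ^ (n / 2) := by
  have h1 : T ∣ spn K p ^ n := by
    rw [← spn_pow p n s.hp.one_le, ← hT]; exact dvd_spn_nm T
  rw [dvd_coe] at h1
  simp only [SubmonoidClass.coe_pow] at h1
  obtain ⟨a, ha, h2⟩ := exists_ideal_pow s.pr h1
  have hTe : T = spn K p ^ a := Subtype.ext (by simpa using h2)
  rw [hTe, nm_pow, nm_spn d.h2 p s.hp.one_le, ← pow_mul] at hT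
  have := Nat.pow_right_injective s.hp.two_le hT
  refine ⟨⟨a, by omega⟩, ?_⟩
  rw [hTe]
  congr 1
  omega

theorem IP.jm_eq {p D : ℕ} (s : IP K p) (d : QD K D) {H : (Ideal (𝓞 K))⁰}
    (hc : Nat.Coprime p (nm K H)) (a : ℕ) : jm (spn K p ^ a) H = p ^ a := by
  refine jm_eq_of d (Nat.one_le_pow _ _ s.hp.one_le) fun r hr => ?_
  set ρ := r.factorization p with hρ
  have hr0 : r ≠ 0 := by omega
  have hr' : p ^ ρ * (r / p ^ ρ) = r := Nat.ordProj_mul_ordCompl_eq_self r p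
  have hcop : Nat.Coprime p (r / p ^ ρ) := Nat.coprime_ordCompl s.hp hr0
  have hpos : 1 ≤ r / p ^ ρ := Nat.ordCompl_pos p hr0
  have h1 : spn K r * H = spn K p ^ ρ * (spn K (r / p ^ ρ) * H) := by
    conv_lhs => rw [← hr']
    rw [spn_mul _ _ (Nat.one_le_pow _ _ s.hp.one_le) hpos, spn_pow _ _ s.hp.one_le, mul_assoc]
  have hn : Nat.Coprime (nm K (spn K p)) (nm K (spn K (r / p ^ ρ) * H)) := by
    rw [nm_mul, nm_spn d.h2 _ hpos, nm_spn d.h2 p s.hp.one_le]
    exact Nat.Coprime.pow_left 2 (Nat.Coprime.mul_right (Nat.Coprime.pow_right 2 hcop) hc)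
  rw [h1, dvd_coe, s.hp.pow_dvd_iff_le_factorization hr0, ← hρ]
  have hcp := coprime_of_nm hn
  simp only [Submonoid.coe_mul, SubmonoidClass.coe_pow] at hcp ⊢
  rw [← pow_dvd_pow_iff' s.pr]
  constructor
  · intro h
    exact (hcp.pow_left).dvd_of_dvd_mul_right h
  · intro h
    exact h.trans (dvd_mul_right _ _)

theorem IP.local_sum {p D : ℕ} (s : IP K p) (d : QD K D) {H : (Ideal (𝓞 K))⁰}
    (hc : Nat.Coprime p (nm K H)) {k : ℕ} (v : Fin k → ℕ) (e : ℕ) :
    ∑ T ∈ Fintype.piFinset (fun i => idn K (p ^ v i)),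
      (if jm (∏ i, T i) H = p ^ e then ∏ i, alI (T i) else 0) = locI v e := by
  classical
  by_cases hv : ∀ i, Even (v i)
  · have h1 : Fintype.piFinset (fun i => idn K (p ^ v i)) = {fun i => spn K p ^ (v i / 2)} := by
      ext T
      simp only [Fintype.mem_piFinset, mem_idn, Finset.mem_singleton]
      constructor
      · intro h
        exact funext fun i => (s.pow_form d (h i)).2
      · rintro rfl i
        rw [nm_pow, nm_spn d.h2 p s.hp.one_le, ← pow_mul]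
        congr 1
        obtain ⟨c, hc⟩ := hv i
        omega
    rw [h1, Finset.sum_singleton, Finset.prod_pow_eq_pow_sum, s.jm_eq d hc]
    have h2 : (p ^ (∑ i, v i / 2) = p ^ e) ↔ sz v = 2 * e := by
      have h3 : sz v = 2 * ∑ i, v i / 2 := by
        rw [sz, Finset.mul_sum]
        refine Finset.sum_congr rfl fun i _ => ?_
        obtain ⟨c, hc⟩ := hv i
        omega
      rw [h3]
      constructor
      · intro h
        have := Nat.pow_right_injective s.hp.two_le h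
        omega
      · intro h
        congr 1
        omega
    simp only [h2, locI, hv, alI_prime_pow _ s.pr]
    simp
  · have h1 : Fintype.piFinset (fun i => idn K (p ^ v i)) = ∅ := by
      rw [Finset.eq_empty_iff_forall_notMem]
      intro T hT
      simp only [Fintype.mem_piFinset, mem_idn] at hT
      exact hv fun i => (s.pow_form d (hT i)).1
    rw [h1, Finset.sum_empty, locI, if_neg (fun h => hv h.1)]


/-! ### Which primes are split -/

theorem parity {D : ℕ} (d : QD K D) {c : ℤ} (hc : (4 : ℤ) ∣ (D : ℤ) + c ^ 2) :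
    2 * ((d.t - c) / 2) = d.t - c := by
  have h1 := d.disc
  have h2 : (4 : ℤ) ∣ c ^ 2 - d.t ^ 2 := by
    rw [← h1] at hc
    have : c ^ 2 - d.t ^ 2 = (4 * d.q - d.t ^ 2 + c ^ 2) - 4 * d.q := by ring
    rw [this]
    exact dvd_sub hc (dvd_mul_right _ _)
  have h3 : (2 : ℤ) ∣ d.t - c := by
    have h4 : Even (c ^ 2 - d.t ^ 2) := (even_iff_two_dvd).2 ((by norm_num : (2 : ℤ) ∣ 4).trans h2)
    rw [Int.even_sub, Int.even_pow' two_ne_zero, Int.even_pow' two_ne_zero] at h4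
    rw [← even_iff_two_dvd, Int.even_sub]
    exact h4.symm
  exact Int.mul_ediv_cancel' h3

theorem dvd_coeff {D : ℕ} (d : QD K D) {p m n : ℤ}
    (h : (p : 𝓞 K) ∣ (m : 𝓞 K) + (n : 𝓞 K) * d.ω) : p ∣ m ∧ p ∣ n := by
  obtain ⟨y, hy⟩ := h
  obtain ⟨m', n', rfl⟩ := d.span y
  have h1 : ((m - p * m' : ℤ) : 𝓞 K) + ((n - p * n' : ℤ) : 𝓞 K) * d.ω = 0 := by
    push_cast
    linear_combination hy
  obtain ⟨h2, h3⟩ := d.ind _ _ h1
  exact ⟨⟨m', by linarith⟩, ⟨n', by linarith⟩⟩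

theorem exists_SP {D : ℕ} (d : QD K D) {p : ℕ} (hp : p.Prime) (hpD : ¬ p ∣ D) (c : ℤ)
    (hc : (4 * (p : ℤ)) ∣ (D : ℤ) + c ^ 2) : ∃ s : SP K p, s.P = d.J p c := by
  have hnP := d.nm_J p c hp.one_le hc
  have h1 : d.J p c ∣ spn K p := by
    have := dvd_spn_nm (d.J p c)
    rwa [hnP] at this
  obtain ⟨Q, hQ⟩ := h1
  have hnQ : nm K Q = p := by
    have h2 : nm K (d.J p c) * nm K Q = p ^ 2 := by
      rw [← nm_mul, ← hQ, nm_spn d.h2 p hp.one_le]
    rw [hnP, sq] at h2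
    exact Nat.eq_of_mul_eq_mul_left hp.pos h2
  refine ⟨⟨d.J p c, Q, hp, hnP, hnQ, ?_, hQ.symm⟩, rfl⟩
  intro hPQ
  have h4 : (4 : ℤ) ∣ (D : ℤ) + c ^ 2 := (dvd_mul_right _ _).trans hc
  have hpar := parity d h4
  set β : ℤ := (d.t - c) / 2 with hβ
  have hx : d.ω - (β : 𝓞 K) ∈ (d.J p c : Ideal (𝓞 K)) := by
    rw [d.J_mem p c hp.one_le hc]
    refine ⟨0, 1, ?_⟩
    rw [← hβ]
    push_cast
    ring
  have hx2 : (d.ω - (β : 𝓞 K)) * (d.ω - (β : 𝓞 K)) ∈ (spn K p : Ideal (𝓞 K)) := by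
    rw [hQ, ← hPQ, Submonoid.coe_mul]
    exact Ideal.mul_mem_mul hx hx
  rw [spn_coe p hp.one_le, Ideal.mem_span_singleton] at hx2
  have h5 : (d.ω - (β : 𝓞 K)) * (d.ω - (β : 𝓞 K)) =
      ((β ^ 2 - d.q : ℤ) : 𝓞 K) + ((c : ℤ) : 𝓞 K) * d.ω := by
    have h6 := congrArg (Int.cast (R := 𝓞 K)) hpar
    push_cast at h6 ⊢
    linear_combination d.mul - h6 * d.ω
  rw [h5] at hx2
  have h7 := (dvd_coeff d (p := (p : ℤ)) (by exact_mod_cast hx2)).2
  have h8 : (p : ℤ) ∣ (D : ℤ) := by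
    have h9 : (p : ℤ) ∣ (D : ℤ) + c ^ 2 := (dvd_mul_left _ _).trans hc
    exact (dvd_add_left (h7.pow two_ne_zero)).1 h9
  exact hpD (by exact_mod_cast h8)

theorem exists_root_iff {D : ℕ} (d : QD K D) {p : ℕ} (hp : p.Prime) (hp2 : p ≠ 2)
    (hpD : ¬ p ∣ D) : (∃ c : ℤ, (4 * (p : ℤ)) ∣ (D : ℤ) + c ^ 2) ↔
      jacobiSym (-(D : ℤ)) p = 1 := by
  have : Fact p.Prime := ⟨hp⟩
  have hne : ((-(D : ℤ) : ℤ) : ZMod p) ≠ 0 := by
    intro h
    rw [ZMod.intCast_zmod_eq_zero_iff_dvd] at h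
    rw [dvd_neg] at h
    exact hpD (by exact_mod_cast h)
  rw [← jacobiSym.legendreSym.to_jacobiSym, legendreSym.eq_one_iff p hne]
  constructor
  · rintro ⟨c, hc⟩
    refine ⟨(c : ZMod p), ?_⟩
    have h1 : (p : ℤ) ∣ (D : ℤ) + c ^ 2 := (dvd_mul_left _ _).trans hc
    have h2 : (((D : ℤ) + c ^ 2 : ℤ) : ZMod p) = 0 := (ZMod.intCast_zmod_eq_zero_iff_dvd _ _).2 h1
    push_cast at h2 ⊢
    linear_combination -h2
  · rintro ⟨x, hx⟩
    have h1 : (p : ℤ) ∣ (D : ℤ) + (x.val : ℤ) ^ 2 := by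
      rw [← ZMod.intCast_zmod_eq_zero_iff_dvd]
      push_cast at hx ⊢
      rw [ZMod.natCast_zmod_val]
      linear_combination -hx
    have hodd : ¬ (2 : ℤ) ∣ p := by
      intro h
      have : 2 ∣ p := by exact_mod_cast h
      exact hp2 ((Nat.prime_dvd_prime_iff_eq Nat.prime_two hp).1 this).symm
    obtain ⟨c, hc1, hc2⟩ : ∃ c : ℤ, (p : ℤ) ∣ (D : ℤ) + c ^ 2 ∧ (2 : ℤ) ∣ c - d.t := by
      by_cases h2 : (2 : ℤ) ∣ (x.val : ℤ) - d.t
      · exact ⟨_, h1, h2⟩
      · refine ⟨(x.val : ℤ) + p, ?_, by omega⟩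
        have : (D : ℤ) + ((x.val : ℤ) + p) ^ 2 = ((D : ℤ) + (x.val : ℤ) ^ 2) +
          p * (2 * x.val + p) := by ring
        rw [this]
        exact dvd_add h1 (dvd_mul_right _ _)
    refine ⟨c, ?_⟩
    have h4 : (4 : ℤ) ∣ (D : ℤ) + c ^ 2 := by
      obtain ⟨w, hw⟩ := hc2
      have : c = d.t + 2 * w := by linarith
      rw [← d.disc, this]
      exact ⟨d.q + d.t * w + w ^ 2, by ring⟩
    have hco : IsCoprime (4 : ℤ) (p : ℤ) := by
      have : IsCoprime (2 : ℤ) (p : ℤ) := by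
        rw [Int.isCoprime_iff_gcd_eq_one]
        have : Nat.Coprime 2 p := (Nat.coprime_primes Nat.prime_two hp).2 (Ne.symm hp2)
        exact_mod_cast this
      have := this.pow_left (m := 2)
      norm_num at this
      exact this
    exact hco.mul_dvd h4 hc1

theorem SP.exists_H {D : ℕ} (d : QD K D) {p : ℕ} (hp : p.Prime) (hp2 : p ≠ 2) (hpD : ¬ p ∣ D)
    (h : ℕ) (b : ℤ) (hh : 1 ≤ h) (hb : b ∈ rts h D) (hs : Spl D h p) :
    ∃ (s : SP K p) (H' : (Ideal (𝓞 K))⁰), d.J h b = s.P ^ (h.factorization p) * H' ∧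
      Nat.Coprime p (nm K H') := by
  have hb' : (4 * (h : ℤ)) ∣ (D : ℤ) + b ^ 2 := (Finset.mem_filter.1 hb).2
  by_cases hph : p ∣ h
  · have hc : (4 * (p : ℤ)) ∣ (D : ℤ) + b ^ 2 :=
      (mul_dvd_mul_left 4 (by exact_mod_cast hph)).trans hb'
    obtain ⟨s, hsP⟩ := exists_SP d hp hpD b hc
    have hPH : s.P ∣ d.J h b := by
      rw [hsP, dvd_coe, Ideal.dvd_iff_le]
      intro x hx
      rw [d.J_mem h b hh hb'] at hx
      obtain ⟨m, n, rfl⟩ := hx
      rw [d.J_mem p b hp.one_le hc]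
      obtain ⟨h', rfl⟩ := hph
      refine ⟨m * h', n, ?_⟩
      push_cast
      ring
    have hh0 : h ≠ 0 := by omega
    set σ := h.factorization p with hσ
    have hfac : p ^ σ * (h / p ^ σ) = h := Nat.ordProj_mul_ordCompl_eq_self h p
    have hcop : Nat.Coprime p (h / p ^ σ) := Nat.coprime_ordCompl hp hh0
    have hpos : 1 ≤ h / p ^ σ := Nat.ordCompl_pos p hh0
    have hn : nm K (d.J h b) = p ^ σ * (h / p ^ σ) := by rw [hfac, d.nm_J h b hh hb']
    obtain ⟨A, B, hA, hB, hAB⟩ := split_exists d.h2 (Nat.Coprime.pow_left σ hcop)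
      (Nat.one_le_pow _ _ hp.one_le) hpos _ hn
    obtain ⟨a, ha, hAf⟩ := s.pow_form hA
    have ha1 : a ≠ 0 := by
      rintro rfl
      rw [hAB, hAf, pow_zero, one_mul, dvd_coe] at hPH
      simp only [Submonoid.coe_mul, SubmonoidClass.coe_pow] at hPH
      have hc1 : IsCoprime (s.P : Ideal (𝓞 K)) ((s.Q : Ideal (𝓞 K)) ^ (σ - 0) * (B : Ideal (𝓞 K))) :=
        IsCoprime.mul_right (s.cop.pow_right) (coprime_of_nm (by rw [s.nP, hB]; exact hcop))
      have := hc1.isUnit_of_dvd' dvd_rfl hPH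
      rw [Ideal.isUnit_iff] at this
      exact s.pP.ne_top this
    have ha2 : σ - a = 0 := by
      by_contra hne
      have h1 : spn K p ∣ d.J h b := by
        rw [hAB, hAf, ← s.mul]
        exact (mul_dvd_mul (dvd_pow_self _ ha1) (dvd_pow_self _ hne)).trans (dvd_mul_right _ _)
      have := d.J_prim h b hh hb' p hp.one_le ((dvd_coe _ _).1 h1)
      exact hp.one_lt.ne' this
    have ha3 : a = σ := by omega
    refine ⟨s, B, ?_, by rw [hB]; exact hcop⟩
    rw [hAB, hAf, ha2, pow_zero, mul_one, ha3]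
  · have hj : jacobiSym (-(D : ℤ)) p = 1 := hs.resolve_left hph
    obtain ⟨c, hc⟩ := (exists_root_iff d hp hp2 hpD).2 hj
    obtain ⟨s, -⟩ := exists_SP d hp hpD c hc
    refine ⟨s, d.J h b, ?_, ?_⟩
    · rw [Nat.factorization_eq_zero_of_not_dvd hph, pow_zero, one_mul]
    · rw [d.nm_J h b hh hb']
      exact (Nat.Prime.coprime_iff_not_dvd hp).2 hph

open Classical in
theorem local_sum {D : ℕ} (d : QD K D) {p : ℕ} (hp : p.Prime) (hp2 : p ≠ 2) (hpD : ¬ p ∣ D)
    (h : ℕ) (b : ℤ) (hh : 1 ≤ h) (hb : b ∈ rts h D) {k : ℕ} (v : Fin k → ℕ) (e : ℕ) :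
    ∑ T ∈ Fintype.piFinset (fun i => idn K (p ^ v i)),
      (if jm (∏ i, T i) (d.J h b) = p ^ e then ∏ i, alI (T i) else 0) =
    if Spl D h p then locS v e (h.factorization p) else locI v e := by
  by_cases hs : Spl D h p
  · rw [if_pos hs]
    obtain ⟨s, H', h1, h2⟩ := SP.exists_H d hp hp2 hpD h b hh hb hs
    exact s.local_sum d h1 h2 v e
  · rw [if_neg hs]
    have hno : ¬ ∃ c : ℤ, (4 * (p : ℤ)) ∣ (D : ℤ) + c ^ 2 := by
      rw [exists_root_iff d hp hp2 hpD]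
      exact fun h1 => hs (Or.inr h1)
    have hph : ¬ p ∣ h := fun h1 => hs (Or.inl h1)
    have hb' : (4 * (h : ℤ)) ∣ (D : ℤ) + b ^ 2 := (Finset.mem_filter.1 hb).2
    refine (exists_IP d hp hno).local_sum d ?_ v e
    rw [d.nm_J h b hh hb']
    exact (Nat.Prime.coprime_iff_not_dvd hp).2 hph


/-! ### The product formula -/

open Classical in
theorem main_sum {D : ℕ} (d : QD K D) (h : ℕ) (b : ℤ) (hh : 1 ≤ h) (hb : b ∈ rts h D) {k : ℕ}
    (M : ℕ) : ∀ (m : Fin k → ℕ) (j : ℕ), (∀ i, 1 ≤ m i) → ∏ i, m i = M →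
    Nat.Coprime M (2 * D) → j ∣ M →
    ∑ T ∈ Fintype.piFinset (fun i => idn K (m i)),
      (if jm (∏ i, T i) (d.J h b) = j then ∏ i, alI (T i) else 0) =
    ∏ p ∈ M.primeFactors,
      if Spl D h p then
        locS (fun i => (m i).factorization p) (j.factorization p) (h.factorization p)
      else locI (fun i => (m i).factorization p) (j.factorization p) := by
  induction M using Nat.strong_induction_on with
  | _ M ih =>
  intro m j hm hM hcop hj
  have hM1 : 1 ≤ M := by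
    rw [← hM]
    exact Finset.one_le_prod' fun i _ => hm i
  by_cases hM2 : M = 1
  · subst hM2
    have hmi : ∀ i, m i = 1 := by
      intro i
      have : m i ∣ 1 := by rw [← hM]; exact Finset.dvd_prod_of_mem m (Finset.mem_univ i)
      exact Nat.dvd_one.1 this
    have hj1 : j = 1 := Nat.dvd_one.1 hj
    have h1 : Fintype.piFinset (fun i => idn K (m i)) = {fun _ => 1} := by
      ext T
      simp only [Fintype.mem_piFinset, mem_idn, Finset.mem_singleton, hmi, nm_eq_one_iff]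
      constructor
      · intro h2
        exact funext h2
      · rintro rfl i
        rfl
    have h2 : jm (1 : (Ideal (𝓞 K))⁰) (d.J h b) = 1 := by
      have := (jm_pos d 1 (d.J h b)).2
      rw [nm_one] at this
      exact Nat.dvd_one.1 this
    rw [h1, Finset.sum_singleton, Finset.prod_const_one, h2, if_pos hj1.symm]
    simp [alI_one]
  · set p := M.minFac with hpdef
    have hp : p.Prime := Nat.minFac_prime hM2
    have hpM : p ∣ M := Nat.minFac_dvd M
    have hp2 : p ≠ 2 := by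
      intro h2
      have h3 : p ∣ 1 := by
        rw [← hcop]
        exact Nat.dvd_gcd hpM (h2 ▸ dvd_mul_right _ _)
      exact hp.one_lt.ne' (Nat.dvd_one.1 h3)
    have hpD : ¬ p ∣ D := by
      intro h2
      have h3 : p ∣ 1 := by
        rw [← hcop]
        exact Nat.dvd_gcd hpM (h2.mul_left 2)
      exact hp.one_lt.ne' (Nat.dvd_one.1 h3)
    set v : Fin k → ℕ := fun i => (m i).factorization p with hv
    set m' : Fin k → ℕ := fun i => m i / p ^ v i with hm'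
    have hfac : ∀ i, p ^ v i * m' i = m i := fun i => Nat.ordProj_mul_ordCompl_eq_self (m i) p
    have hmi0 : ∀ i, m i ≠ 0 := fun i => by have := hm i; omega
    have hcop1 : ∀ i, Nat.Coprime p (m' i) := fun i => Nat.coprime_ordCompl hp (hmi0 i)
    have hm'1 : ∀ i, 1 ≤ m' i := fun i => Nat.ordCompl_pos p (hmi0 i)
    set M' := ∏ i, m' i with hM'
    have hMM : M = p ^ (sz v) * M' := by
      rw [← hM, hM', sz, ← Finset.prod_pow_eq_pow_sum, ← Finset.prod_mul_distrib]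
      exact Finset.prod_congr rfl fun i _ => (hfac i).symm
    have hcM' : Nat.Coprime p M' := Nat.Coprime.prod_right fun i _ => hcop1 i
    have hM'0 : M' ≠ 0 := by
      intro h0
      rw [h0, mul_zero] at hMM
      omega
    have hsz : sz v ≠ 0 := by
      intro h0
      rw [h0, pow_zero, one_mul] at hMM
      rw [hMM] at hpM
      exact (Nat.Prime.coprime_iff_not_dvd hp).1 hcM' hpM
    have hlt : M' < M := by
      rw [hMM]
      have h1 : 1 < p ^ sz v := Nat.one_lt_pow hsz hp.one_lt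
      have h2 : 0 < M' := Nat.pos_of_ne_zero hM'0
      nlinarith
    have hM'M : M' ∣ M := by rw [hMM]; exact dvd_mul_left _ _
    have hj0 : j ≠ 0 := by
      rintro rfl
      rw [zero_dvd_iff] at hj
      omega
    set e := j.factorization p with he
    set j' := j / p ^ e with hj'
    have hjfac : p ^ e * j' = j := Nat.ordProj_mul_ordCompl_eq_self j p
    have hcj : Nat.Coprime p j' := Nat.coprime_ordCompl hp hj0
    have hj'0 : j' ≠ 0 := by
      intro h0
      rw [h0, mul_zero] at hjfac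
      exact hj0 hjfac.symm
    have hj'M : j' ∣ M' := by
      have h1 : j' ∣ p ^ sz v * M' := by
        rw [← hMM]
        exact (Dvd.intro_left _ hjfac).trans hj
      exact (Nat.Coprime.pow_right _ hcj.symm).dvd_of_dvd_mul_left h1
    have hih := ih M' hlt m' j' hm'1 rfl (Nat.Coprime.coprime_dvd_left hM'M hcop) hj'M
    have hloc := local_sum d hp hp2 hpD h b hh hb v e
    have h1 : (fun i => idn K (m i)) = fun i => idn K (p ^ v i * m' i) := by
      funext i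
      rw [hfac i]
    rw [h1, sum_split d.h2 (fun i => p ^ v i) m' (fun i => Nat.Coprime.pow_left _ (hcop1 i))
      (fun i => Nat.one_le_pow _ _ hp.one_le) hm'1]
    have h2 : ∀ A ∈ Fintype.piFinset (fun i => idn K (p ^ v i)),
        ∀ B ∈ Fintype.piFinset (fun i => idn K (m' i)),
        (if jm (∏ i, A i * B i) (d.J h b) = j then ∏ i, alI (A i * B i) else 0) =
          (if jm (∏ i, A i) (d.J h b) = p ^ e then ∏ i, alI (A i) else 0) *
          (if jm (∏ i, B i) (d.J h b) = j' then ∏ i, alI (B i) else 0) := by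
      intro A hA B hB
      simp only [Fintype.mem_piFinset, mem_idn] at hA hB
      have hnA : nm K (∏ i, A i) = p ^ sz v := by
        have : nm K (∏ i, A i) = ∏ i, nm K (A i) := by
          simp [nm, map_prod]
        rw [this, sz, ← Finset.prod_pow_eq_pow_sum]
        exact Finset.prod_congr rfl fun i _ => hA i
      have hnB : nm K (∏ i, B i) = M' := by
        have : nm K (∏ i, B i) = ∏ i, nm K (B i) := by
          simp [nm, map_prod]
        rw [this]
        exact Finset.prod_congr rfl fun i _ => hB i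
      have hcAB : Nat.Coprime (nm K (∏ i, A i)) (nm K (∏ i, B i)) := by
        rw [hnA, hnB]
        exact Nat.Coprime.pow_left _ hcM'
      have hal : ∏ i, alI (A i * B i) = (∏ i, alI (A i)) * ∏ i, alI (B i) := by
        rw [← Finset.prod_mul_distrib]
        refine Finset.prod_congr rfl fun i _ => alI_mul _ _ (coprime_of_nm ?_)
        rw [hA i, hB i]
        exact Nat.Coprime.pow_left _ (hcop1 i)
      have hjA := (jm_pos d (∏ i, A i) (d.J h b)).2
      have hjB := (jm_pos d (∏ i, B i) (d.J h b)).2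
      rw [hnA] at hjA
      rw [hnB] at hjB
      rw [Finset.prod_mul_distrib, jm_mul d hcAB, hal]
      obtain ⟨a, -, ha⟩ := (Nat.dvd_prime_pow hp).1 hjA
      have hcB : Nat.Coprime p (jm (∏ i, B i) (d.J h b)) :=
        Nat.Coprime.coprime_dvd_right hjB hcM'
      have hiff : (jm (∏ i, A i) (d.J h b) * jm (∏ i, B i) (d.J h b) = j) ↔
          (jm (∏ i, A i) (d.J h b) = p ^ e ∧ jm (∏ i, B i) (d.J h b) = j') := by
        constructor
        · intro h3
          rw [ha, ← hjfac] at h3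
          have h4 : p ^ a ∣ p ^ e * j' := ⟨_, h3.symm⟩
          have h5 : p ^ e ∣ p ^ a * jm (∏ i, B i) (d.J h b) := ⟨_, h3⟩
          have h6 : p ^ a ∣ p ^ e :=
            (Nat.Coprime.pow_left _ hcj).dvd_of_dvd_mul_right h4
          have h7 : p ^ e ∣ p ^ a :=
            (Nat.Coprime.pow_left _ hcB).dvd_of_dvd_mul_right h5
          have h8 := Nat.dvd_antisymm h6 h7
          refine ⟨by rw [ha, h8], ?_⟩
          rw [h8] at h3
          exact Nat.eq_of_mul_eq_mul_left (pow_pos hp.pos e) h3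
        · rintro ⟨h3, h4⟩
          rw [h3, h4, hjfac]
      by_cases hc1 : jm (∏ i, A i) (d.J h b) = p ^ e
      · by_cases hc2 : jm (∏ i, B i) (d.J h b) = j'
        · rw [if_pos (hiff.2 ⟨hc1, hc2⟩), if_pos hc1, if_pos hc2]
        · rw [if_neg (fun h3 => hc2 (hiff.1 h3).2), if_neg hc2, mul_zero]
      · rw [if_neg (fun h3 => hc1 (hiff.1 h3).1), if_neg hc1, zero_mul]
    rw [Finset.sum_congr rfl fun A hA => Finset.sum_congr rfl (h2 A hA)]
    simp only [← Finset.mul_sum]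
    rw [← Finset.sum_mul, hloc, hih]
    have hpf : M.primeFactors = insert p M'.primeFactors := by
      rw [hMM, Nat.primeFactors_mul (pow_ne_zero _ hp.ne_zero) hM'0,
        Nat.primeFactors_prime_pow hsz hp]
      rfl
    have hpn : p ∉ M'.primeFactors := fun h3 =>
      (Nat.Prime.coprime_iff_not_dvd hp).1 hcM' (Nat.dvd_of_mem_primeFactors h3)
    rw [hpf, Finset.prod_insert hpn]
    congr 1
    refine Finset.prod_congr rfl fun q hq => ?_
    have hqp : q ≠ p := fun h3 => hpn (h3 ▸ hq)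
    have hqm : ∀ i, (m' i).factorization q = (m i).factorization q := by
      intro i
      rw [← hfac i, Nat.factorization_mul (pow_ne_zero _ hp.ne_zero)
        (by have := hm'1 i; omega), Nat.Prime.factorization_pow hp]
      simp [Finsupp.single_eq_of_ne hqp]
    have hqj : j'.factorization q = j.factorization q := by
      rw [← hjfac, Nat.factorization_mul (pow_ne_zero _ hp.ne_zero) hj'0,
        Nat.Prime.factorization_pow hp]
      simp [Finsupp.single_eq_of_ne hqp]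
    simp only [hqm, hqj]

end TS

variable {K : Type} [Field K] [NumberField K]

namespace QD

variable {D : ℕ} (d : QD K D)

theorem tuple_sum {k : ℕ} (m : Fin k → ℕ) (hm : ∀ i, 1 ≤ m i) (h : ℕ) (b : ℤ) (hh : 1 ≤ h)
    (hb : b ∈ rts h D) (j : ℕ) :
    ∑ T ∈ Fintype.piFinset (fun i => idn K (m i)),
      (if jm (∏ i, T i) (d.J h b) = j then ∏ i, alD D (T i) else 0) = acoef m j h D := by
  classical
  have hn : ∀ T ∈ Fintype.piFinset (fun i => idn K (m i)), nm K (∏ i, T i) = ∏ i, m i := by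
    intro T hT
    simp only [Fintype.mem_piFinset, mem_idn] at hT
    have : nm K (∏ i, T i) = ∏ i, nm K (T i) := by
      simp [nm, map_prod]
    rw [this]
    exact Finset.prod_congr rfl fun i _ => hT i
  by_cases hc : Nat.Coprime (∏ i, m i) (2 * D)
  · by_cases hj : j ∣ ∏ i, m i
    · rw [acoef, if_pos ⟨hc, hj⟩, ← TS.main_sum d h b hh hb _ m j hm rfl hc hj]
      refine Finset.sum_congr rfl fun T hT => ?_
      simp only [Fintype.mem_piFinset, mem_idn] at hT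
      have : ∏ i, alD D (T i) = ∏ i, alI (T i) := by
        refine Finset.prod_congr rfl fun i _ => ?_
        rw [alD, if_pos]
        rw [hT i]
        exact Nat.Coprime.coprime_dvd_left (Finset.dvd_prod_of_mem m (Finset.mem_univ i)) hc
      rw [this]
    · rw [acoef, if_neg (fun h3 => hj h3.2)]
      refine Finset.sum_eq_zero fun T hT => ?_
      rw [if_neg]
      intro h3
      apply hj
      rw [← h3, ← hn T hT]
      exact (jm_pos d _ _).2
  · rw [acoef, if_neg (fun h3 => hc h3.1)]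
    refine Finset.sum_eq_zero fun T hT => ?_
    simp only [Fintype.mem_piFinset, mem_idn] at hT
    have : ∃ i, ¬ Nat.Coprime (m i) (2 * D) := by
      by_contra hno
      push Not at hno
      exact hc (Nat.Coprime.prod_left fun i _ => hno i)
    obtain ⟨i, hi⟩ := this
    have h0 : ∏ i, alD D (T i) = 0 := by
      refine Finset.prod_eq_zero (Finset.mem_univ i) ?_
      rw [alD, if_neg]
      rw [hT i]
      exact hi
    rw [h0, ite_self]

/-- Weighted form: for any function `g` of `jm`. -/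
theorem tuple_sum' {k : ℕ} (m : Fin k → ℕ) (hm : ∀ i, 1 ≤ m i) (h : ℕ) (b : ℤ) (hh : 1 ≤ h)
    (hb : b ∈ rts h D) (g : ℕ → ℝ) :
    ∑ T ∈ Fintype.piFinset (fun i => idn K (m i)),
      (∏ i, alD D (T i)) * g (jm (∏ i, T i) (d.J h b)) =
      ∑ j ∈ (∏ i, m i).divisors, acoef m j h D * g j := by
  classical
  have hn : ∀ T ∈ Fintype.piFinset (fun i => idn K (m i)), nm K (∏ i, T i) = ∏ i, m i := by
    intro T hT
    simp only [Fintype.mem_piFinset, mem_idn] at hT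
    have : nm K (∏ i, T i) = ∏ i, nm K (T i) := by
      simp [nm, map_prod]
    rw [this]
    exact Finset.prod_congr rfl fun i _ => hT i
  have h0 : ∏ i, m i ≠ 0 := Finset.prod_ne_zero_iff.2 fun i _ => by have := hm i; omega
  simp only [← d.tuple_sum m hm h b hh hb, Finset.sum_mul]
  rw [Finset.sum_comm]
  refine Finset.sum_congr rfl fun T hT => ?_
  have hmem : jm (∏ i, T i) (d.J h b) ∈ (∏ i, m i).divisors := by
    rw [Nat.mem_divisors]
    refine ⟨?_, h0⟩
    rw [← hn T hT]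
    exact (jm_pos d _ _).2
  rw [Finset.sum_eq_single_of_mem _ hmem]
  · rw [if_pos rfl]
  · intro j _ hj
    rw [if_neg (Ne.symm hj), zero_mul]

end QD

end Pool.Hhelper76.SC
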